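import Pool.Agent.Helper98.MT.Words

/-!
A square zero element of rank two produces a square zero element of rank one.
-/

open Module Polynomial

namespace MTP

variable {K : Type*} [Field K] {V : Type*} [AddCommGroup V] [Module K V] [FiniteDimensional K V]
variable {ω : LinearMap.BilinForm K V} {L : Submodule K (Module.End K V)}
  {S : Set (Module.End K V)}

/-- The operator `z ↦ ω u z • u`. -/
noncomputable def tv (ω : LinearMap.BilinForm K V) (u : V) : Module.End K V :=
  (ω u).smulRight u

omit [FiniteDimensional K V] in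
@[simp] lemma tv_apply (u z : V) : tv ω u z = ω u z • u := rfl

omit [FiniteDimensional K V] in
lemma tv_mul_self (halt : ω.IsAlt) (u : V) : tv ω u * tv ω u = 0 := by
  ext z
  simp [Module.End.mul_apply, halt.self_eq_zero]

omit [FiniteDimensional K V] in
lemma tv_sk (halt : ω.IsAlt) (u : V) : IsSk ω (tv ω u) := by
  intro a b
  have h := halt.neg_eq a u
  simp only [tv_apply, map_smul, LinearMap.smul_apply, smul_eq_mul]
  rw [← h]; ring

lemma rk_tv (hω : ω.Nondegenerate) {u : V} (hu : u ≠ 0) : rk (tv ω u) = 1 := by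
  have h : LinearMap.range (tv ω u) = K ∙ u := by
    apply le_antisymm
    · rintro _ ⟨z, rfl⟩
      exact Submodule.smul_mem _ _ (Submodule.mem_span_singleton_self u)
    · rw [Submodule.span_singleton_le_iff_mem]
      obtain ⟨z, hz⟩ : ∃ z, ω u z ≠ 0 := by
        by_contra hcon
        push Not at hcon
        exact hu (hω.1 u hcon)
      refine ⟨(ω u z)⁻¹ • z, ?_⟩
      rw [tv_apply, map_smul, smul_eq_mul, inv_mul_cancel₀ hz, one_smul]
  unfold rk
  rw [h, finrank_span_singleton hu]

lemma rk_tv_le (u : V) : rk (tv ω u) ≤ 1 := by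
  have h : LinearMap.range (tv ω u) ≤ K ∙ u := by
    rintro _ ⟨z, rfl⟩
    exact Submodule.smul_mem _ _ (Submodule.mem_span_singleton_self u)
  refine (Submodule.finrank_mono h).trans ?_
  have := finrank_span_le_card (R := K) ({u} : Set V)
  simpa using this

omit [FiniteDimensional K V] in
lemma sk_symm (halt : ω.IsAlt) {x : Module.End K V} (hx : IsSk ω x) (a b : V) :
    ω a (x b) = ω b (x a) := by
  have h1 := hx b a
  have h2 := halt.neg_eq a (x b)
  rw [h1] at h2
  exact neg_injective h2

omit [FiniteDimensional K V] in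
lemma exists_quad [CharZero K] (hω : ω.Nondegenerate) (halt : ω.IsAlt) {x : Module.End K V}
    (hx : IsSk ω x) (hx0 : x ≠ 0) : ∃ a, ω a (x a) ≠ 0 := by
  by_contra hcon
  push Not at hcon
  apply hx0
  ext b
  rw [LinearMap.zero_apply]
  apply hω.2
  intro a
  have h1 := hcon (a + b)
  have h2 := sk_symm halt hx a b
  simp only [map_add, LinearMap.add_apply, hcon, zero_add, add_zero] at h1
  rw [← h2] at h1
  have h3 : (2 : K) * ω a (x b) = 0 := by linear_combination h1
  simpa using h3

omit [FiniteDimensional K V] in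
/-- Removing a rank one piece. -/
lemma peel (halt : ω.IsAlt) {x : Module.End K V} (hx : IsSk ω x) {a : V}
    (ha : ω a (x a) ≠ 0) {k : V} (hk : x k = 0) :
    (x + (ω a (x a))⁻¹ • tv ω (x a)) a = 0 ∧ (x + (ω a (x a))⁻¹ • tv ω (x a)) k = 0 ∧
      IsSk ω (x + (ω a (x a))⁻¹ • tv ω (x a)) := by
  refine ⟨?_, ?_, ?_⟩
  · rw [LinearMap.add_apply, LinearMap.smul_apply, tv_apply, hx a a, smul_smul, mul_neg,
      inv_mul_cancel₀ ha, neg_one_smul, add_neg_cancel]
  · rw [LinearMap.add_apply, LinearMap.smul_apply, tv_apply, hx a k, hk, map_zero, neg_zero,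
      zero_smul, smul_zero, add_zero]
  · intro b c
    have := tv_sk halt (x a) b c
    rw [LinearMap.add_apply, LinearMap.smul_apply, LinearMap.add_apply, LinearMap.smul_apply,
      map_add, map_add, LinearMap.add_apply, hx b c, map_smul, map_smul, LinearMap.smul_apply, this]
    simp only [smul_eq_mul]
    ring

/-- Normal form of an infinitesimally symplectic operator of rank two. -/
lemma normal_form [IsAlgClosed K] [CharZero K] (hω : ω.Nondegenerate) (halt : ω.IsAlt)
    {x : Module.End K V} (hx : IsSk ω x) (h2 : rk x = 2) :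
    ∃ v w : V, (∀ a b : K, a • v + b • w = 0 → a = 0 ∧ b = 0) ∧
      ∀ z, x z = ω w z • v + ω v z • w := by
  have hx0 : x ≠ 0 := by
    rintro rfl
    have : rk (0 : Module.End K V) = 0 := rk_eq_zero.mpr rfl
    omega
  obtain ⟨a, ha⟩ := exists_quad hω halt hx hx0
  set x' := x + (ω a (x a))⁻¹ • tv ω (x a) with hx'
  have p1 := fun k (hk : x k = 0) => peel halt hx ha hk
  have hx'0 : x' ≠ 0 := by
    intro h0
    rw [hx'] at h0
    have : x = -((ω a (x a))⁻¹ • tv ω (x a)) := eq_neg_of_add_eq_zero_left h0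
    have h3 : rk x ≤ 1 := by
      rw [this, rk_neg, rk_smul (inv_ne_zero ha)]
      exact rk_tv_le _
    omega
  have hxa' : x' a = 0 := (p1 0 (map_zero x)).1
  have hsk' : IsSk ω x' := (p1 0 (map_zero x)).2.2
  have hker' : ∀ k, x k = 0 → x' k = 0 := fun k hk => (p1 k hk).2.1
  obtain ⟨a', ha'⟩ := exists_quad hω halt hsk' hx'0
  set x'' := x' + (ω a' (x' a'))⁻¹ • tv ω (x' a') with hx''
  have p2 := fun k (hk : x' k = 0) => peel halt hsk' ha' hk
  have k1 : x'' a' = 0 := (p2 0 (map_zero x')).1
  have k2 : x'' a = 0 := (p2 a hxa').2.1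
  have k3 : ∀ k, x k = 0 → x'' k = 0 := fun k hk => (p2 k (hker' k hk)).2.1
  have hxa0 : x a ≠ 0 := by intro h; rw [h, map_zero] at ha; exact ha rfl
  have hxa'0 : x' a' ≠ 0 := by intro h; rw [h, map_zero] at ha'; exact ha' rfl
  -- independence of `x a`, `x a'`
  have ind : ∀ c d : K, c • x a + d • x a' = 0 → c = 0 ∧ d = 0 := by
    intro c d h
    have h1 : x (c • a + d • a') = 0 := by rw [map_add, map_smul, map_smul, h]
    have h2 := hker' _ h1
    rw [map_add, map_smul, map_smul, hxa', smul_zero, zero_add] at h2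
    have hd : d = 0 := by
      rcases smul_eq_zero.mp h2 with h | h
      · exact h
      · exact absurd h hxa'0
    rw [hd, zero_smul, add_zero] at h
    rcases smul_eq_zero.mp h with h | h
    · exact ⟨h, hd⟩
    · exact absurd h hxa0
  have hli : LinearIndependent K ![x a, x a'] := by
    rw [LinearIndependent.pair_iff]
    exact ind
  have hspan : Submodule.span K (Set.range ![x a, x a']) = LinearMap.range x := by
    apply Submodule.eq_of_le_of_finrank_eq
    · rw [Submodule.span_le]
      rintro _ ⟨i, rfl⟩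
      fin_cases i
      · exact ⟨a, rfl⟩
      · exact ⟨a', rfl⟩
    · rw [finrank_span_eq_card hli]
      exact h2.symm
  have hzero : x'' = 0 := by
    ext z
    have hz : x z ∈ Submodule.span K (Set.range ![x a, x a']) := by
      rw [hspan]; exact ⟨z, rfl⟩
    rw [Matrix.range_cons, Matrix.range_cons, Matrix.range_empty, Set.union_empty,
      ← Set.insert_eq, Submodule.mem_span_pair] at hz
    obtain ⟨c, d, hcd⟩ := hz
    have h1 : x (z - (c • a + d • a')) = 0 := by
      rw [map_sub, map_add, map_smul, map_smul, hcd, sub_self]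
    have h2 := k3 _ h1
    rw [map_sub, map_add, map_smul, map_smul, k1, k2, smul_zero, smul_zero, add_zero,
      sub_zero] at h2
    rw [h2, LinearMap.zero_apply]
  set β := ω a (x a) with hβ
  set β' := ω a' (x' a') with hβ'
  set u := x a with hu
  set u' := x' a' with hu'
  have hu'e : u' = x a' + (β⁻¹ * ω u a') • u := by
    rw [hu', hx']
    simp only [LinearMap.add_apply, LinearMap.smul_apply, tv_apply, smul_smul]
  have ind' : ∀ c d : K, c • u + d • u' = 0 → c = 0 ∧ d = 0 := by
    intro c d h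
    rw [hu'e] at h
    have h1 : (c + d * (β⁻¹ * ω u a')) • u + d • x a' = 0 := by
      rw [← h]; module
    obtain ⟨h2, h3⟩ := ind _ _ h1
    rw [h3, zero_mul, add_zero] at h2
    exact ⟨h2, h3⟩
  have hxz : ∀ z, x z = -(β⁻¹ * ω u z) • u - (β'⁻¹ * ω u' z) • u' := by
    intro z
    have h1 : x'' z = 0 := by rw [hzero]; rfl
    rw [hx'', hx'] at h1
    simp only [LinearMap.add_apply, LinearMap.smul_apply, tv_apply, smul_smul] at h1
    rw [neg_smul]
    have := eq_neg_of_add_eq_zero_left h1
    have h3 : x z = -((β'⁻¹ * ω u' z) • u') - (β⁻¹ * ω u z) • u := by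
      rw [← this]; abel
    rw [h3]; abel
  obtain ⟨α, hα⟩ := IsAlgClosed.exists_pow_nat_eq (-β⁻¹) (n := 2) (by norm_num)
  obtain ⟨γ, hγ⟩ := IsAlgClosed.exists_pow_nat_eq (β'⁻¹) (n := 2) (by norm_num)
  have hα0 : α ≠ 0 := by
    rintro rfl
    have : -β⁻¹ ≠ 0 := neg_ne_zero.mpr (inv_ne_zero ha)
    exact this (by rw [← hα]; norm_num)
  have hγ0 : γ ≠ 0 := by
    rintro rfl
    exact (inv_ne_zero ha') (by rw [← hγ]; norm_num)
  refine ⟨(2 : K)⁻¹ • (α • u + γ • u'), α • u - γ • u', ?_, ?_⟩
  · intro c d h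
    have h1 : ((c * 2⁻¹ + d) * α) • u + ((c * 2⁻¹ - d) * γ) • u' = 0 := by
      rw [← h]; module
    obtain ⟨h2, h3⟩ := ind' _ _ h1
    have h4 : c * 2⁻¹ + d = 0 := by
      rcases mul_eq_zero.mp h2 with h | h
      · exact h
      · exact absurd h hα0
    have h5 : c * 2⁻¹ - d = 0 := by
      rcases mul_eq_zero.mp h3 with h | h
      · exact h
      · exact absurd h hγ0
    constructor
    · linear_combination h4 + h5
    · have : 2 * d = 0 := by linear_combination h4 - h5
      simpa using this
  · intro z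
    rw [hxz z]
    simp only [map_sub, map_add, map_smul, LinearMap.sub_apply, LinearMap.add_apply,
      LinearMap.smul_apply, smul_eq_mul]
    have e1 : -(β⁻¹ * ω u z) = α ^ 2 * ω u z := by rw [hα]; ring
    have e2 : β'⁻¹ * ω u' z = γ ^ 2 * ω u' z := by rw [hγ]
    rw [e1, e2]
    match_scalars <;> field_simp <;> ring

/-- A square zero element of rank two yields a square zero element of rank one. -/
theorem Ctx.exists_rank_one_of_two [IsAlgClosed K] [CharZero K] (hC : Ctx ω L S)
    (halt : ω.IsAlt) {x : Module.End K V} (hx : x ∈ L) (hxx : x * x = 0) (h2 : rk x = 2) :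
    ∃ y ∈ L, y * y = 0 ∧ rk y = 1 := by
  obtain ⟨v, w, hind, hxz⟩ := normal_form hC.nd halt (hC.irr.sk x hx) h2
  have hv : v ≠ 0 := by
    rintro rfl
    have := (hind 1 0 (by simp)).1
    exact one_ne_zero this
  have hw : w ≠ 0 := by
    rintro rfl
    have := (hind 0 1 (by simp)).2
    exact one_ne_zero this
  have hfv : (ω v) ≠ 0 := by
    intro h
    exact hv (hC.nd.1 v (fun z => by rw [h]; rfl))
  have hfw : (ω w) ≠ 0 := by
    intro h
    exact hw (hC.nd.1 w (fun z => by rw [h]; rfl))
  -- it suffices to find `y` with `ω v (y v) ≠ 0`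
  suffices hy : ∃ y ∈ L, ω v (y v) ≠ 0 by
    obtain ⟨y, hy, hyv⟩ := hy
    obtain ⟨α, hα⟩ := IsAlgClosed.exists_pow_nat_eq (ω v (y v)) (n := 2) (by norm_num)
    obtain ⟨β, hβ⟩ := IsAlgClosed.exists_pow_nat_eq (ω w (y w)) (n := 2) (by norm_num)
    have hα0 : α ≠ 0 := by
      rintro rfl
      apply hyv
      rw [← hα]; norm_num
    set u := α • w + β • v with hu
    have hu0 : u ≠ 0 := by
      intro h0
      have := (hind β α (by rw [add_comm]; exact h0)).2
      exact hα0 this
    have hmem : tv ω u ∈ L := by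
      have h1 := hC.irr.sandwich hx hxx hy
      have e : tv ω u = x * y * x + (α * β - ω w (y v)) • x := by
        ext z
        have hs : ω v (y w) = ω w (y v) := sk_symm halt (hC.irr.sk y hy) v w
        simp only [tv_apply, hu, LinearMap.add_apply, Module.End.mul_apply, LinearMap.smul_apply,
          hxz, map_add, map_smul, smul_eq_mul]
        rw [hs, ← hα, ← hβ]
        module
      rw [e]
      exact L.add_mem h1 (L.smul_mem _ hx)
    exact ⟨tv ω u, hmem, tv_mul_self halt u, rk_tv hC.nd hu0⟩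
  by_contra hcon
  push Not at hcon
  obtain ⟨l₁, hl₁, hf₁⟩ := hC.exists_word hv hfv
  obtain ⟨l₂, hl₂, hf₂⟩ := hC.exists_word hv hfw
  obtain ⟨l, hl, h1, h2⟩ := exists_both hl₁ hl₂ hf₁ hf₂
  obtain ⟨g', m, hm, e1, e2, e3, e4⟩ := hC.word_conj hl
  have h3 := hcon _ (e4 x hx)
  have h4 : ω (wd l v) (wd l ((g' * x * wd l) v)) = 0 := by rw [e3, h3, mul_zero]
  have h5 : wd l ((g' * x * wd l) v) = x (wd l v) := by
    have : wd l ((g' * x * wd l) v) = ((wd l * g') * x * wd l) v := by
      simp only [Module.End.mul_apply]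
    rw [this, e1, one_mul, Module.End.mul_apply]
  rw [h5, hxz, map_add, map_smul, map_smul, smul_eq_mul, smul_eq_mul] at h4
  have h6 := halt.neg_eq v (wd l v)
  have h7 := halt.neg_eq w (wd l v)
  rw [← h6, ← h7] at h4
  have h8 : (2 : K) * (ω w (wd l v) * ω v (wd l v)) = 0 := by linear_combination -h4
  rcases mul_eq_zero.mp h8 with h | h
  · exact two_ne_zero h
  · rcases mul_eq_zero.mp h with h | h
    · exact h2 h
    · exact h1 h

end MTP
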