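import Mathlib

/-!
Orthogonal projection onto a rational subspace of `ι → ℚ` stable under a doubly transitive group
of signed permutations.
-/

open Module Matrix

namespace MTP

variable {ι : Type*} [Fintype ι] [DecidableEq ι] {T : Submodule ℚ (ι → ℚ)}

/-- `p` represents the coordinate functions on `T`. -/
structure Repr (T : Submodule ℚ (ι → ℚ)) (p : ι → ι → ℚ) : Prop where
  mem : ∀ i, p i ∈ T
  rep : ∀ i, ∀ t ∈ T, p i ⬝ᵥ t = t i

omit [DecidableEq ι] in
lemma exists_repr (T : Submodule ℚ (ι → ℚ)) : ∃ p : ι → ι → ℚ, Repr T p := by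
  let Φ : T →ₗ[ℚ] Module.Dual ℚ T :=
    { toFun := fun a =>
        { toFun := fun b => (a : ι → ℚ) ⬝ᵥ (b : ι → ℚ)
          map_add' := by intro b c; simp [dotProduct_add]
          map_smul' := by intro c b; simp }
      map_add' := by intro a b; ext c; simp [add_dotProduct]
      map_smul' := by intro c a; ext b; simp }
  have hinj : Function.Injective Φ := by
    rw [injective_iff_map_eq_zero]
    intro a ha
    have h1 : (a : ι → ℚ) ⬝ᵥ (a : ι → ℚ) = 0 := congrArg (fun φ => φ a) ha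
    rw [dotProduct_self_eq_zero] at h1
    exact Subtype.ext h1
  have hfin : finrank ℚ T = finrank ℚ (Module.Dual ℚ T) := Subspace.dual_finrank_eq.symm
  have hsurj : Function.Surjective Φ :=
    (LinearMap.injective_iff_surjective_of_finrank_eq_finrank hfin).mp hinj
  have h : ∀ i : ι, ∃ q : T, ∀ t : T, (q : ι → ℚ) ⬝ᵥ (t : ι → ℚ) = (t : ι → ℚ) i := by
    intro i
    obtain ⟨q, hq⟩ := hsurj ((LinearMap.proj i).comp T.subtype)
    exact ⟨q, fun t => congrArg (fun φ => φ t) hq⟩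
  choose q hq using h
  exact ⟨fun i => q i, fun i => (q i).2, fun i t ht => hq i ⟨t, ht⟩⟩

namespace Repr
variable {p : ι → ι → ℚ} (H : Repr T p)
include H

omit [DecidableEq ι] in
lemma dot (i j : ι) : p i ⬝ᵥ p j = p j i := H.rep i _ (H.mem j)

omit [DecidableEq ι] in
lemma symm (i j : ι) : p i j = p j i := by
  rw [← H.dot i j, dotProduct_comm, H.dot]

omit [DecidableEq ι] in
lemma sum_sq (i : ι) : ∑ j, p i j ^ 2 = p i i := by
  rw [← H.dot i i, dotProduct]
  exact Finset.sum_congr rfl fun j _ => by ring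

lemma trace : ∑ i, p i i = finrank ℚ T := by
  let f : (ι → ℚ) →ₗ[ℚ] (ι → ℚ) :=
    { toFun := fun x => ∑ i, x i • p i
      map_add' := by intro x y; simp [add_smul, Finset.sum_add_distrib]
      map_smul' := by intro c x; simp [mul_smul, Finset.smul_sum] }
  have hf : LinearMap.IsProj T f := by
    constructor
    · intro x
      exact T.sum_mem fun i _ => T.smul_mem _ (H.mem i)
    · intro t ht
      have h1 : f t ∈ T := T.sum_mem fun i _ => T.smul_mem _ (H.mem i)
      have h2 : ∀ u ∈ T, (f t - t) ⬝ᵥ u = 0 := by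
        intro u hu
        have : (f t) ⬝ᵥ u = t ⬝ᵥ u := by
          change (∑ i, t i • p i) ⬝ᵥ u = t ⬝ᵥ u
          rw [sum_dotProduct]
          apply Finset.sum_congr rfl
          intro i _
          rw [smul_dotProduct, H.rep i u hu, smul_eq_mul]
        rw [sub_dotProduct, this, sub_self]
      have h3 := h2 _ (T.sub_mem h1 ht)
      rw [dotProduct_self_eq_zero] at h3
      exact sub_eq_zero.mp h3
  have h1 := hf.trace
  rw [← h1, LinearMap.trace_eq_matrix_trace ℚ (Pi.basisFun ℚ ι) f]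
  unfold Matrix.trace
  apply Finset.sum_congr rfl
  intro i _
  rw [Matrix.diag_apply, LinearMap.toMatrix_apply, Pi.basisFun_apply, Pi.basisFun_repr]
  change _ = (∑ j, (Pi.single i (1 : ℚ) : ι → ℚ) j • p j) i
  rw [Finset.sum_apply, Finset.sum_eq_single i]
  · simp
  · intro j _ hj
    simp [Pi.single_eq_of_ne hj]
  · simp

omit [DecidableEq ι] in
/-- Equivariance under a signed permutation preserving `T`. -/
lemma equiv (π : Equiv.Perm ι) (ε : ι → ℤˣ)
    (hT : ∀ t ∈ T, (fun a => ((ε a : ℤ) : ℚ) * t (π a)) ∈ T) (a b : ι) :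
    p (π a) (π b) = ((ε a : ℤ) : ℚ) * ((ε b : ℤ) : ℚ) * p a b := by
  have hε : ∀ a, ((ε a : ℤ) : ℚ) * ((ε a : ℤ) : ℚ) = 1 := by
    intro a
    rcases Int.units_eq_one_or (ε a) with h | h <;> rw [h] <;> norm_num
  let g : T →ₗ[ℚ] T :=
    { toFun := fun t => ⟨fun a => ((ε a : ℤ) : ℚ) * (t : ι → ℚ) (π a), hT t t.2⟩
      map_add' := by
        intro x y; apply Subtype.ext; funext a
        simp [mul_add]
      map_smul' := by
        intro c x; apply Subtype.ext; funext a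
        simp only [Submodule.coe_smul, Pi.smul_apply, smul_eq_mul, RingHom.id_apply]
        ring }
  have hdot : ∀ x y : T, ((g x : T) : ι → ℚ) ⬝ᵥ ((g y : T) : ι → ℚ) =
      (x : ι → ℚ) ⬝ᵥ (y : ι → ℚ) := by
    intro x y
    change ∑ a, (((ε a : ℤ) : ℚ) * (x : ι → ℚ) (π a)) * (((ε a : ℤ) : ℚ) * (y : ι → ℚ) (π a)) =
      ∑ a, (x : ι → ℚ) a * (y : ι → ℚ) a
    rw [← Equiv.sum_comp π (fun a => (x : ι → ℚ) a * (y : ι → ℚ) a)]
    apply Finset.sum_congr rfl
    intro a _
    linear_combination ((x : ι → ℚ) (π a) * (y : ι → ℚ) (π a)) * hε a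
  have hinj : Function.Injective g := by
    rw [injective_iff_map_eq_zero]
    intro x hx
    have h1 := hdot x x
    rw [hx] at h1
    have h2 : (x : ι → ℚ) ⬝ᵥ (x : ι → ℚ) = 0 := by rw [← h1]; simp
    rw [dotProduct_self_eq_zero] at h2
    exact Subtype.ext h2
  have hsurj : Function.Surjective g := LinearMap.injective_iff_surjective.mp hinj
  have key : ((g ⟨p (π a), H.mem _⟩ : T) : ι → ℚ) = ((ε a : ℤ) : ℚ) • p a := by
    have h1 : ∀ t ∈ T, (((g ⟨p (π a), H.mem _⟩ : T) : ι → ℚ) - ((ε a : ℤ) : ℚ) • p a) ⬝ᵥ t = 0 := by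
      intro t ht
      obtain ⟨t', ht'⟩ := hsurj ⟨t, ht⟩
      have e1 : t = ((g t' : T) : ι → ℚ) := by rw [ht']
      have e2 : ((g ⟨p (π a), H.mem _⟩ : T) : ι → ℚ) ⬝ᵥ t = (t' : ι → ℚ) (π a) := by
        rw [e1, hdot]
        exact H.rep _ _ t'.2
      have e3 : t a = ((ε a : ℤ) : ℚ) * (t' : ι → ℚ) (π a) := by rw [e1]; rfl
      rw [sub_dotProduct, e2, smul_dotProduct, H.rep a t ht, e3, smul_eq_mul, ← mul_assoc, hε,
        one_mul, sub_self]
    have h2 := h1 _ (T.sub_mem (g ⟨p (π a), H.mem _⟩).2 (T.smul_mem ((ε a : ℤ) : ℚ) (H.mem a)))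
    rw [dotProduct_self_eq_zero] at h2
    exact sub_eq_zero.mp h2
  have h3 := congrFun key b
  change ((ε b : ℤ) : ℚ) * p (π a) (π b) = ((ε a : ℤ) : ℚ) * p a b at h3
  have h4 := hε b
  linear_combination ((ε b : ℤ) : ℚ) * h3 - p (π a) (π b) * h4

end Repr

/-- The stabiliser of `T` in the group of signed permutations is doubly transitive on the
coordinates. -/
def TwoTrans (T : Submodule ℚ (ι → ℚ)) : Prop :=
  ∀ i j k l : ι, i ≠ j → k ≠ l → ∃ (π : Equiv.Perm ι) (ε : ι → ℤˣ), π i = k ∧ π j = l ∧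
    ∀ t ∈ T, (fun a => ((ε a : ℤ) : ℚ) * t (π a)) ∈ T

/-- The numerical consequences of double transitivity. -/
lemma TwoTrans.gram (hT : TwoTrans T) (h2 : 2 ≤ finrank ℚ T) {p : ι → ι → ℚ} (H : Repr T p) :
    ∃ ρ κ : ℚ, 0 < ρ ∧ κ ≠ ρ ^ 2 ∧ (∀ i, p i i = ρ) ∧ (∀ i j, i ≠ j → p i j ^ 2 = κ) ∧
      (Fintype.card ι : ℚ) * ρ = finrank ℚ T ∧ ρ ^ 2 + (Fintype.card ι - 1) * κ = ρ := by
  have hcard : 2 ≤ Fintype.card ι := by
    have h1 := Submodule.finrank_le T
    rw [finrank_fintype_fun_eq_card] at h1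
    omega
  have hnt : Nontrivial ι := Fintype.one_lt_card_iff_nontrivial.mp hcard
  obtain ⟨i₀, j₀, h₀⟩ := exists_pair_ne ι
  have hsq : ∀ e : ℤˣ, ((e : ℤ) : ℚ) * ((e : ℤ) : ℚ) = 1 := by
    intro e
    rcases Int.units_eq_one_or e with h | h <;> rw [h] <;> norm_num
  have hdiag : ∀ i, p i i = p i₀ i₀ := by
    intro i
    obtain ⟨j, hj⟩ := exists_ne i
    obtain ⟨π, ε, h1, h2, h3⟩ := hT i₀ j₀ i j h₀ hj.symm
    have h4 := H.equiv π ε h3 i₀ i₀
    rw [h1, hsq, one_mul] at h4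
    exact h4
  have hoff : ∀ i j, i ≠ j → p i j ^ 2 = p i₀ j₀ ^ 2 := by
    intro i j hij
    obtain ⟨π, ε, h1, h2, h3⟩ := hT i₀ j₀ i j h₀ hij
    have h4 := H.equiv π ε h3 i₀ j₀
    rw [h1, h2] at h4
    rw [h4]
    linear_combination (((ε j₀ : ℤ) : ℚ) * ((ε j₀ : ℤ) : ℚ) * p i₀ j₀ ^ 2) * hsq (ε i₀)
      + (p i₀ j₀ ^ 2) * hsq (ε j₀)
  have htr : (Fintype.card ι : ℚ) * p i₀ i₀ = finrank ℚ T := by
    rw [← H.trace, Finset.sum_congr rfl (fun i _ => hdiag i), Finset.sum_const, Finset.card_univ,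
      nsmul_eq_mul]
  have hrow : p i₀ i₀ ^ 2 + (Fintype.card ι - 1) * p i₀ j₀ ^ 2 = p i₀ i₀ := by
    have h1 := H.sum_sq i₀
    rw [← Finset.add_sum_erase _ _ (Finset.mem_univ i₀),
      Finset.sum_congr rfl (fun j hj => hoff i₀ j (Finset.ne_of_mem_erase hj).symm),
      Finset.sum_const, Finset.card_erase_of_mem (Finset.mem_univ i₀), Finset.card_univ,
      nsmul_eq_mul, Nat.cast_sub (by omega), Nat.cast_one] at h1
    exact h1
  have hg0 : (0 : ℚ) < Fintype.card ι := by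
    have : 0 < Fintype.card ι := by omega
    exact_mod_cast this
  have hr2 : (2 : ℚ) ≤ finrank ℚ T := by exact_mod_cast h2
  have hρ : 0 < p i₀ i₀ := by
    by_contra hcon
    push Not at hcon
    have : (Fintype.card ι : ℚ) * p i₀ i₀ ≤ 0 := mul_nonpos_of_nonneg_of_nonpos hg0.le hcon
    rw [htr] at this
    linarith
  refine ⟨p i₀ i₀, p i₀ j₀ ^ 2, hρ, ?_, hdiag, hoff, htr, hrow⟩
  intro heq
  rw [heq] at hrow
  have h1 : p i₀ i₀ * ((Fintype.card ι : ℚ) * p i₀ i₀ - 1) = 0 := by linear_combination hrow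
  rcases mul_eq_zero.mp h1 with h | h
  · exact hρ.ne' h
  · rw [htr] at h
    linarith

/-- The absolute bound excludes `64` equiangular lines in dimension `8`. -/
lemma gerzon {p : ι → ι → ℚ} (H : Repr T p) {ρ κ : ℚ} (hρκ : κ ≠ ρ ^ 2) (hκ : 0 ≤ κ) (hρ : 0 < ρ)
    (hd : ∀ i, p i i = ρ) (ho : ∀ i j, i ≠ j → p i j ^ 2 = κ) :
    Fintype.card ι ≤ (finrank ℚ T + 1).choose 2 := by
  classical
  set n := finrank ℚ T with hn
  let t : Basis (Fin n) ℚ T := finBasis ℚ T
  let F : Sym2 (Fin n) → (ι → ℚ) :=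
    Sym2.lift ⟨fun a b => (t a : ι → ℚ) * (t b : ι → ℚ), fun a b => mul_comm _ _⟩
  let W : Submodule ℚ (ι → ℚ) := Submodule.span ℚ (Set.range F)
  have hW : finrank ℚ W ≤ (n + 1).choose 2 := by
    have h1 := finrank_range_le_card (R := ℚ) F
    rw [Sym2.card, Fintype.card_fin] at h1
    exact h1
  have hrow : ∀ i, (fun j => p i j ^ 2) ∈ W := by
    intro i
    have e : p i = ∑ a, (t.repr ⟨p i, H.mem i⟩ a) • (t a : ι → ℚ) := by
      have := t.sum_repr ⟨p i, H.mem i⟩
      have h2 := congrArg (Subtype.val) this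
      rw [Submodule.coe_sum] at h2
      simp only [Submodule.coe_smul] at h2
      exact h2.symm
    have e2 : (fun j => p i j ^ 2) = ∑ a, ∑ b, (t.repr ⟨p i, H.mem i⟩ a * t.repr ⟨p i, H.mem i⟩ b) •
        ((t a : ι → ℚ) * (t b : ι → ℚ)) := by
      have : (fun j => p i j ^ 2) = p i * p i := by funext j; simp [sq]
      rw [this]
      refine (congrArg₂ (· * ·) e e).trans ?_
      rw [Finset.sum_mul_sum]
      apply Finset.sum_congr rfl
      intro a _
      apply Finset.sum_congr rfl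
      intro b _
      rw [smul_mul_smul_comm]
    rw [e2]
    apply W.sum_mem
    intro a _
    apply W.sum_mem
    intro b _
    apply W.smul_mem
    apply Submodule.subset_span
    exact ⟨s(a, b), rfl⟩
  have hone : ((ρ ^ 2 - κ) + Fintype.card ι * κ) • (fun _ => (1 : ℚ)) ∈ W := by
    have h1 : ∑ i, (fun j => p i j ^ 2) ∈ W := W.sum_mem fun i _ => hrow i
    have h2 : ∑ i, (fun j => p i j ^ 2) = ((ρ ^ 2 - κ) + Fintype.card ι * κ) • (fun _ : ι => (1 : ℚ)) := by
      funext j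
      rw [Finset.sum_apply, Pi.smul_apply, smul_eq_mul, mul_one]
      rw [← Finset.add_sum_erase _ _ (Finset.mem_univ j),
        Finset.sum_congr rfl (fun i hi => ho i j (Finset.ne_of_mem_erase hi)),
        Finset.sum_const, Finset.card_erase_of_mem (Finset.mem_univ j), Finset.card_univ,
        nsmul_eq_mul, hd j]
      have hpos : 0 < Fintype.card ι := Fintype.card_pos_iff.mpr ⟨j⟩
      rw [Nat.cast_sub (by omega), Nat.cast_one]
      ring
    rw [← h2]; exact h1
  rcases isEmpty_or_nonempty ι with hι | ⟨⟨j₀⟩⟩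
  · simp
  have hne : (ρ ^ 2 - κ) + Fintype.card ι * κ ≠ 0 := by
    have hpos : (1 : ℚ) ≤ Fintype.card ι := by
      have : 0 < Fintype.card ι := Fintype.card_pos_iff.mpr ⟨j₀⟩
      exact_mod_cast this
    have : 0 < ρ ^ 2 := by positivity
    nlinarith
  have hone' : (fun _ : ι => (1 : ℚ)) ∈ W := by
    have := W.smul_mem ((ρ ^ 2 - κ) + Fintype.card ι * κ)⁻¹ hone
    rwa [smul_smul, inv_mul_cancel₀ hne, one_smul] at this
  have hsingle : ∀ i, Pi.single i (1 : ℚ) ∈ W := by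
    intro i
    have h1 := W.sub_mem (hrow i) (W.smul_mem κ hone')
    have h2 : (fun j => p i j ^ 2) - κ • (fun _ : ι => (1 : ℚ)) = (ρ ^ 2 - κ) • Pi.single i (1 : ℚ) := by
      funext j
      by_cases hij : i = j
      · subst hij
        simp [hd]
      · simp [ho i j hij, Pi.single_eq_of_ne (Ne.symm hij)]
    rw [h2] at h1
    have hne' : ρ ^ 2 - κ ≠ 0 := fun h => hρκ (by linarith)
    have := W.smul_mem (ρ ^ 2 - κ)⁻¹ h1
    rwa [smul_smul, inv_mul_cancel₀ hne', one_smul] at this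
  have htop : W = ⊤ := by
    rw [eq_top_iff]
    intro x _
    rw [pi_eq_sum_univ' x]
    apply W.sum_mem
    intro i _
    apply W.smul_mem
    convert hsingle i using 1
  rw [htop, finrank_top, finrank_fintype_fun_eq_card] at hW
  exact hW

/-- The numerical alternative. -/
lemma TwoTrans.exceptional (h2 : 2 ≤ finrank ℚ T) {p : ι → ι → ℚ} (H : Repr T p) {ρ κ : ℚ}
    (hρκ : κ ≠ ρ ^ 2) (hρ : 0 < ρ)
    (hd : ∀ i, p i i = ρ) (ho : ∀ i j, i ≠ j → p i j ^ 2 = κ)
    (h3 : (Fintype.card ι : ℚ) * ρ = finrank ℚ T)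
    (h4 : ρ ^ 2 + (Fintype.card ι - 1) * κ = ρ) (h9 : 9 * κ = ρ ^ 2) :
    (Fintype.card ι, finrank ℚ T) ∈ ({(4, 3), (10, 5), (16, 6), (28, 7)} : Set (ℕ × ℕ)) := by
  have hκ : 0 ≤ κ := by nlinarith [sq_nonneg ρ]
  have hG := gerzon H hρκ hκ hρ hd ho
  set g := Fintype.card ι with hg
  set r := finrank ℚ T with hr
  have e1 : ((g : ℚ) + 8) * ρ = 9 := by
    have h5 : ρ * (((g : ℚ) + 8) * ρ - 9) = 0 := by linear_combination 9 * h4 - ((g : ℚ) - 1) * h9
    rcases mul_eq_zero.mp h5 with h | h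
    · exact absurd h hρ.ne'
    · linarith
  have e2 : (r : ℚ) * (g + 8) = 9 * g := by
    rw [← h3]; linear_combination (g : ℚ) * e1
  have e3 : r * (g + 8) = 9 * g := by exact_mod_cast e2
  have hr9 : r < 9 := by
    by_contra hcon
    push Not at hcon
    nlinarith
  interval_cases r
  · omega
  · have : g = 4 := by omega
    rw [this]; simp
  · omega
  · have : g = 10 := by omega
    rw [this]; simp
  · have : g = 16 := by omega
    rw [this]; simp
  · have : g = 28 := by omega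
    rw [this]; simp
  · have : g = 64 := by omega
    rw [this] at hG
    exact absurd hG (by decide)

end MTP
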