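import Pool.Agent.Helper98.MT.Filt
import Pool.Agent.Helper98.MT.Proj

/-!
Every rational torus of `L` lies in the span of commuting involutions of `L`.
-/

open Module Matrix

namespace MTP

variable {K : Type*} [Field K] {V : Type*} [AddCommGroup V] [Module K V] [FiniteDimensional K V]
variable {ω : LinearMap.BilinForm K V} {L : Submodule K (Module.End K V)}
  {S : Set (Module.End K V)}

/-- The operators in `A` are simultaneously diagonalizable with rational eigenvalues. -/
def RSD (A : Set (Module.End K V)) [CharZero K] : Prop :=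
  Submodule.span K {v : V | ∀ z ∈ A, ∃ q : ℚ, z v = (q : K) • v} = ⊤

/-- The diagonal operator with entries `f`. -/
noncomputable def dg [CharZero K] {I : Type*} (b : Basis I K V) (f : I → ℚ) : Module.End K V :=
  b.constr K fun i => (f i : K) • b i

section
variable [CharZero K]

omit [FiniteDimensional K V] in
lemma dg_apply {I : Type*} (b : Basis I K V) (f : I → ℚ) (i : I) :
    dg b f (b i) = (f i : K) • b i := b.constr_basis K _ i

omit [FiniteDimensional K V] in
lemma eq_dg {I : Type*} (b : Basis I K V) {f : I → ℚ} {z : Module.End K V}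
    (h : ∀ i, z (b i) = (f i : K) • b i) : z = dg b f :=
  b.ext fun i => by rw [h, dg_apply]

omit [FiniteDimensional K V] in
lemma dg_add {I : Type*} (b : Basis I K V) (f g : I → ℚ) : dg b (f + g) = dg b f + dg b g :=
  (eq_dg b fun i => by
    rw [LinearMap.add_apply, dg_apply, dg_apply, ← add_smul, Pi.add_apply, Rat.cast_add]).symm

omit [FiniteDimensional K V] in
lemma dg_smul {I : Type*} (b : Basis I K V) (c : ℚ) (f : I → ℚ) :
    dg b (c • f) = (c : K) • dg b f :=
  (eq_dg b fun i => by
    rw [LinearMap.smul_apply, dg_apply, smul_smul, Pi.smul_apply, smul_eq_mul, Rat.cast_mul]).symm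

omit [FiniteDimensional K V] in
lemma dg_span {I : Type*} (b : Basis I K V) {A : Set (I → ℚ)} (M : Submodule K (Module.End K V))
    (hA : ∀ f ∈ A, dg b f ∈ M) {f : I → ℚ} (hf : f ∈ Submodule.span ℚ A) : dg b f ∈ M := by
  induction hf using Submodule.span_induction with
  | mem f hf => exact hA f hf
  | zero =>
    have : dg b (0 : I → ℚ) = 0 := (eq_dg b fun i => by simp).symm
    rw [this]; exact M.zero_mem
  | add f g _ _ hf hg => rw [dg_add]; exact M.add_mem hf hg
  | smul c f _ hf => rw [dg_smul]; exact M.smul_mem _ hf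

omit [FiniteDimensional K V] in
lemma RSD.adjoin {A : Set (Module.End K V)} (hA : RSD A) {s : Module.End K V} (hs : s * s = 1)
    (hc : ∀ z ∈ A, s * z = z * s) : RSD (insert s A) := by
  unfold RSD at hA ⊢
  rw [eq_top_iff, ← hA, Submodule.span_le]
  intro v hv
  have hz : ∀ z ∈ A, pp s * z = z * pp s ∧ qq s * z = z * qq s := by
    intro z hz
    constructor
    · unfold pp; rw [smul_mul_assoc, mul_smul_comm, add_mul, mul_add, hc z hz, one_mul, mul_one]
    · unfold qq; rw [smul_mul_assoc, mul_smul_comm, sub_mul, mul_sub, hc z hz, one_mul, mul_one]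
  have e1 : s * pp s = pp s := by
    unfold pp; rw [mul_smul_comm, mul_add, hs, mul_one, add_comm]
  have e2 : s * qq s = -qq s := by
    unfold qq; rw [mul_smul_comm, mul_sub, hs, mul_one, ← smul_neg, neg_sub]
  have h1 : pp s v ∈ Submodule.span K {v : V | ∀ z ∈ insert s A, ∃ q : ℚ, z v = (q : K) • v} := by
    apply Submodule.subset_span
    intro z hz'
    rcases hz' with rfl | hz'
    · exact ⟨1, by rw [← Module.End.mul_apply, e1]; simp⟩
    · obtain ⟨q, hq⟩ := hv z hz'
      exact ⟨q, by rw [← Module.End.mul_apply, ← (hz z hz').1, Module.End.mul_apply, hq, map_smul]⟩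
  have h2 : qq s v ∈ Submodule.span K {v : V | ∀ z ∈ insert s A, ∃ q : ℚ, z v = (q : K) • v} := by
    apply Submodule.subset_span
    intro z hz'
    rcases hz' with rfl | hz'
    · exact ⟨-1, by rw [← Module.End.mul_apply, e2]; simp⟩
    · obtain ⟨q, hq⟩ := hv z hz'
      exact ⟨q, by rw [← Module.End.mul_apply, ← (hz z hz').2, Module.End.mul_apply, hq, map_smul]⟩
  have e3 : v = pp s v + qq s v := by
    rw [← LinearMap.add_apply, pp_add_qq]; rfl
  rw [SetLike.mem_coe, e3]
  exact Submodule.add_mem _ h1 h2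

/-- A basis of simultaneous rational eigenvectors. -/
lemma RSD.basis {A : Set (Module.End K V)} (hA : RSD A) :
    ∃ b : Basis (Fin (finrank K V)) K V, ∀ z ∈ A, ∃ f : Fin (finrank K V) → ℚ,
      ∀ i, z (b i) = (f i : K) • b i := by
  classical
  let b₀ := Basis.ofSpan (K := K) (V := V) (s := {v : V | ∀ z ∈ A, ∃ q : ℚ, z v = (q : K) • v})
    (le_of_eq hA.symm)
  have hsub := Basis.ofSpan_subset (K := K) (V := V)
    (s := {v : V | ∀ z ∈ A, ∃ q : ℚ, z v = (q : K) • v}) (le_of_eq hA.symm)
  have hfin : Finite _ := Module.Finite.finite_basis b₀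
  let _ := Fintype.ofFinite ((linearIndepOn_empty K id).extend
    (Set.empty_subset {v : V | ∀ z ∈ A, ∃ q : ℚ, z v = (q : K) • v}))
  have hcard := finrank_eq_card_basis b₀
  let e := Fintype.equivFinOfCardEq hcard.symm
  refine ⟨b₀.reindex e, fun z hz => ?_⟩
  have h : ∀ i, ∃ q : ℚ, z (b₀.reindex e i) = (q : K) • b₀.reindex e i := by
    intro i
    rw [Basis.reindex_apply]
    exact hsub ⟨e.symm i, rfl⟩ z hz
  choose f hf using h
  exact ⟨f, hf⟩

/-- A maximal set of involutions commuting with a torus. -/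
lemma exists_max (L : Submodule K (Module.End K V)) (A : Set (Module.End K V)) (hA : RSD A) :
    ∃ J : Set (Module.End K V), (∀ s ∈ J, s ∈ L ∧ s * s = 1) ∧ RSD (J ∪ A) ∧
      ∀ s ∈ L, s * s = 1 → (∀ z ∈ J ∪ A, s * z = z * s) → s ∈ Submodule.span K J := by
  classical
  let D : Set ℕ := {d | ∃ J : Set (Module.End K V), (∀ s ∈ J, s ∈ L ∧ s * s = 1) ∧
    RSD (J ∪ A) ∧ d = finrank K (Submodule.span K J)}
  have hne : D.Nonempty := ⟨_, ∅, by simp, by rw [Set.empty_union]; exact hA, rfl⟩
  have hbdd : BddAbove D := by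
    refine ⟨finrank K (Module.End K V), ?_⟩
    rintro _ ⟨J, _, _, rfl⟩
    exact Submodule.finrank_le _
  obtain ⟨J, hJ, hJA, hd⟩ := Nat.sSup_mem hne hbdd
  refine ⟨J, hJ, hJA, ?_⟩
  intro s hs hss hc
  have h1 : RSD (insert s J ∪ A) := by
    rw [Set.insert_union]; exact hJA.adjoin hss hc
  have h2 : finrank K (Submodule.span K (insert s J)) ∈ D := by
    refine ⟨insert s J, ?_, h1, rfl⟩
    rintro t (rfl | ht)
    · exact ⟨hs, hss⟩
    · exact hJ t ht
  have h3 := le_csSup hbdd h2
  rw [hd] at h3
  have h4 : Submodule.span K J ≤ Submodule.span K (insert s J) :=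
    Submodule.span_mono (Set.subset_insert _ _)
  have h5 := Submodule.eq_of_le_of_finrank_le h4 h3
  rw [h5]
  exact Submodule.subset_span (Set.mem_insert _ _)

/-- Orthogonal decomposition of rational vectors. -/
lemma exists_orth {ι : Type*} [Fintype ι] (R : Submodule ℚ (ι → ℚ)) (x : ι → ℚ) :
    ∃ r ∈ R, ∀ t ∈ R, (x - r) ⬝ᵥ t = 0 := by
  classical
  obtain ⟨p, H⟩ := exists_repr R
  refine ⟨∑ i, x i • p i, R.sum_mem fun i _ => R.smul_mem _ (H.mem i), ?_⟩
  intro t ht
  rw [sub_dotProduct, sub_eq_zero, sum_dotProduct]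
  apply Finset.sum_congr rfl
  intro i _
  rw [smul_dotProduct, H.rep i t ht, smul_eq_mul]

/-- Large multiples dominate. -/
lemma exists_dominate {I : Type*} [Finite I] (u w : I → ℚ) :
    ∃ N : ℕ, ∀ i j, u j < u i → 0 < N * (u i - u j) + (w i - w j) ∧
      0 < N * (u i - u j) - (w i - w j) := by
  have h : ∀ p : I × I, ∃ N₀ : ℕ, ∀ N : ℕ, N₀ ≤ N → u p.2 < u p.1 →
      0 < N * (u p.1 - u p.2) + (w p.1 - w p.2) ∧ 0 < N * (u p.1 - u p.2) - (w p.1 - w p.2) := by
    intro p
    by_cases hp : u p.2 < u p.1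
    · have hpos : 0 < u p.1 - u p.2 := sub_pos.mpr hp
      obtain ⟨N₀, hN₀⟩ := exists_nat_gt (|w p.1 - w p.2| / (u p.1 - u p.2))
      refine ⟨N₀, fun N hN _ => ?_⟩
      have h1 : |w p.1 - w p.2| < N * (u p.1 - u p.2) := by
        rw [div_lt_iff₀ hpos] at hN₀
        have : (N₀ : ℚ) ≤ N := by exact_mod_cast hN
        nlinarith
      have h2 := abs_lt.mp h1
      constructor <;> linarith
    · exact ⟨0, fun N _ h => absurd h hp⟩
  choose N₀ hN₀ using h
  cases nonempty_fintype I
  refine ⟨Finset.univ.sup N₀, fun i j hij => ?_⟩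
  exact hN₀ (i, j) _ (Finset.le_sup (Finset.mem_univ (i, j))) hij

/-- The key step: a rational diagonal operator orthogonal to a maximal commuting set of
involutions preserves the `+1` eigenspace of every involution. -/
lemma IrrSymp.key [IsAlgClosed K] (hL : IrrSymp ω L) (hω : ω.Nondegenerate)
    {I : Type*} [Fintype I] [DecidableEq I] (b : Basis I K V) {J : Set (Module.End K V)}
    {R : Submodule ℚ (I → ℚ)} (hR : ∀ f ∈ R, dg b f ∈ L)
    (hmax : ∀ s ∈ L, s * s = 1 → (∀ f ∈ R, s * dg b f = dg b f * s) → s ∈ Submodule.span K J)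
    {u : I → ℚ} (huR : u ∈ R)
    (hu : ∀ z ∈ Submodule.span K J, LinearMap.trace K V (dg b u * z) = 0)
    {s : Module.End K V} (hs : s ∈ L) (hss : s * s = 1) :
    ∀ v, s v = v → s (dg b u v) = dg b u v := by
  classical
  -- a generic element of `R`
  obtain ⟨w, hwR, hw⟩ : ∃ w ∈ R, ∀ i j, w i = w j → ∀ f ∈ R, f i = f j := by
    let Q : Type _ := {p : I × I // ∃ f ∈ R, f p.1 ≠ f p.2}
    obtain ⟨w, hw, hw'⟩ := Module.Dual.exists_forall_mem_ne_zero_of_forall_exists R
      (fun p : Q => ({ toFun := fun f => f p.1.1 - f p.1.2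
                       map_add' := by intro f g; simp only [Pi.add_apply]; ring
                       map_smul' := by
                        intro c f
                        simp only [Pi.smul_apply, smul_eq_mul, RingHom.id_apply]; ring } :
                       Module.Dual ℚ (I → ℚ))) (by
        rintro ⟨p, f, hf, hne⟩
        refine ⟨f, hf, ?_⟩
        change f p.1 - f p.2 ≠ 0
        exact sub_ne_zero.mpr hne)
    refine ⟨w, hw, fun i j hij => ?_⟩
    by_contra hcon
    push Not at hcon
    have h0 : w i - w j ≠ 0 := hw' ⟨(i, j), hcon⟩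
    exact h0 (by rw [hij, sub_self])
  obtain ⟨N, hN⟩ := exists_dominate u w
  have entry0 : ∀ {s₂ : Module.End K V} {χ : I → ℚ}, (∀ i j, χ i = χ j → ∀ f ∈ R, f i = f j) →
      (∀ i j, en b s₂ i j ≠ 0 → χ i = χ j) → ∀ f ∈ R, s₂ * dg b f = dg b f * s₂ := by
    intro s₂ χ hχ h2 f hf
    symm
    rw [← sub_eq_zero]
    apply en_ext b
    intro i j
    rw [en_comm b (dg_apply b f)]
    have e0 : en b (0 : Module.End K V) i j = 0 := by simp [en]
    rw [e0]
    by_cases hij : en b s₂ i j = 0
    · rw [hij, mul_zero]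
    · rw [hχ i j (h2 i j hij) f hf, sub_self, Rat.cast_zero, zero_mul]
  have main : ∀ χ : I → ℚ, χ ∈ R → (∀ i j, χ i = χ j → ∀ f ∈ R, f i = f j) →
      ∃ s₁, s₁ * s₁ = 1 ∧ (∀ v, s₁ v = v ↔ s v = v) ∧ (∀ i j, en b s₁ i j ≠ 0 → χ j ≤ χ i) ∧
        ∑ i, (u i : K) * en b s₁ i i = 0 := by
    intro χ hχR hχ
    obtain ⟨s₁, _, h1, h2, h3, s₂, hs₂, h4, h5⟩ :=
      hL.exists_upper hω b (dg_apply b χ) (hR χ hχR) hs hss
    refine ⟨s₁, h1, h2, h3, ?_⟩
    have h6 : s₂ ∈ Submodule.span K J := by
      apply hmax s₂ hs₂ h4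
      apply entry0 hχ
      intro i j hij
      rw [h5] at hij
      by_contra hcon
      exact hij (if_neg hcon)
    have h7 := hu s₂ h6
    rw [trace_en b] at h7
    rw [← h7]
    apply Finset.sum_congr rfl
    intro i _
    rw [Finset.sum_eq_single i]
    · rw [en_diag b (dg_apply b u), if_pos rfl, h5, if_pos rfl]
    · intro j _ hj
      rw [en_diag b (dg_apply b u), if_neg (Ne.symm hj), zero_mul]
    · simp
  have hgen : ∀ c : ℚ, (c = N ∨ c = -N) → (c • u + w) ∈ R ∧
      (∀ i j, (c • u + w) i = (c • u + w) j → ∀ f ∈ R, f i = f j) := by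
    intro c hc
    refine ⟨R.add_mem (R.smul_mem _ huR) hwR, fun i j hij => ?_⟩
    apply hw
    simp only [Pi.add_apply, Pi.smul_apply, smul_eq_mul] at hij
    rcases lt_trichotomy (u i) (u j) with h | h | h
    · exfalso
      have := hN j i h
      rcases hc with rfl | rfl <;> nlinarith
    · rw [h] at hij; linarith
    · exfalso
      have := hN i j h
      rcases hc with rfl | rfl <;> nlinarith
  obtain ⟨s₁, a1, a2, a3, a4⟩ := main _ (hgen N (Or.inl rfl)).1 (hgen N (Or.inl rfl)).2
  obtain ⟨s₂, b1, b2, b3, b4⟩ := main _ (hgen (-N) (Or.inr rfl)).1 (hgen (-N) (Or.inr rfl)).2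
  have key := stable_of_traces b (dg_apply b u) a1 b1 (fun v => (a2 v).trans (b2 v).symm)
    (by
      intro i j hij
      have h1 := a3 i j hij
      simp only [Pi.add_apply, Pi.smul_apply, smul_eq_mul] at h1
      by_contra hcon
      push Not at hcon
      have := hN j i hcon
      nlinarith)
    (by
      intro i j hij
      have h1 := b3 i j hij
      simp only [Pi.add_apply, Pi.smul_apply, smul_eq_mul] at h1
      by_contra hcon
      push Not at hcon
      have := hN i j hcon
      nlinarith) a4 b4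
  intro v hv
  rw [← a2] at hv ⊢
  exact key v hv

/-- **Structure of rational tori.** A simultaneously diagonalizable set `A` of elements of `L`
with rational eigenvalues lies in the span of pairwise commuting involutions of `L` which commute
with `A`. -/
theorem Ctx.torus_span [IsAlgClosed K] (hC : Ctx ω L S) {A : Set (Module.End K V)}
    (hAL : ∀ z ∈ A, z ∈ L) (hA : RSD A) :
    ∃ J : Set (Module.End K V), (∀ s ∈ J, s ∈ L ∧ s * s = 1) ∧
      (∀ s ∈ J, ∀ z ∈ J ∪ A, s * z = z * s) ∧ ∀ z ∈ A, z ∈ Submodule.span K J := by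
  classical
  obtain ⟨J, hJ, hJA, hmax⟩ := exists_max L A hA
  obtain ⟨b, hb⟩ := hJA.basis
  have hcomm : ∀ z ∈ J ∪ A, ∀ z' ∈ J ∪ A, z * z' = z' * z := by
    intro z hz z' hz'
    obtain ⟨f, hf⟩ := hb z hz
    obtain ⟨g, hg⟩ := hb z' hz'
    apply b.ext
    intro i
    rw [Module.End.mul_apply, Module.End.mul_apply, hf, hg, map_smul, map_smul, hf, hg,
      smul_smul, smul_smul, mul_comm]
  refine ⟨J, hJ, fun s hs z hz => hcomm s (Or.inl hs) z hz, ?_⟩
  intro z hz
  let R : Submodule ℚ (Fin (finrank K V) → ℚ) := Submodule.span ℚ {f | dg b f ∈ J ∪ A}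
  let RJ : Submodule ℚ (Fin (finrank K V) → ℚ) := Submodule.span ℚ {f | dg b f ∈ J}
  have hRJ : RJ ≤ R := Submodule.span_mono fun f hf => Or.inl hf
  have hR : ∀ f ∈ R, dg b f ∈ L := by
    intro f hf
    apply dg_span b L _ hf
    rintro g (hg | hg)
    · exact (hJ _ hg).1
    · exact hAL _ hg
  obtain ⟨χ, hχ⟩ := hb z (Or.inr hz)
  have hzχ : z = dg b χ := eq_dg b hχ
  obtain ⟨r, hr, horth⟩ := exists_orth RJ χ
  set u := χ - r with hu
  have huR : u ∈ R := R.sub_mem (Submodule.subset_span (Or.inr (by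
    change dg b χ ∈ A
    rw [← hzχ]; exact hz))) (hRJ hr)
  have htr : ∀ y ∈ Submodule.span K J, LinearMap.trace K V (dg b u * y) = 0 := by
    intro y hy
    induction hy using Submodule.span_induction with
    | zero => simp
    | add x y _ _ hx hy => rw [mul_add, map_add, hx, hy, add_zero]
    | smul c x _ hx => rw [mul_smul_comm, map_smul, hx, smul_zero]
    | mem s hs =>
      obtain ⟨f, hf⟩ := hb s (Or.inl hs)
      have hsf : s = dg b f := eq_dg b hf
      have h1 : u ⬝ᵥ f = 0 := horth f (Submodule.subset_span (by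
        change dg b f ∈ J
        rw [← hsf]; exact hs))
      rw [trace_en b, hsf]
      have h2 : ∀ i, ∑ j, en b (dg b u) i j * en b (dg b f) j i = ((u i * f i : ℚ) : K) := by
        intro i
        rw [Finset.sum_eq_single i]
        · rw [en_diag b (dg_apply b u), en_diag b (dg_apply b f), if_pos rfl, if_pos rfl,
            Rat.cast_mul]
        · intro j _ hj
          rw [en_diag b (dg_apply b u), if_neg (Ne.symm hj), zero_mul]
        · simp
      rw [Finset.sum_congr rfl (fun i _ => h2 i), ← Rat.cast_sum]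
      have h3 : ∑ i, u i * f i = 0 := h1
      rw [h3, Rat.cast_zero]
  have hmax' : ∀ s ∈ L, s * s = 1 → (∀ f ∈ R, s * dg b f = dg b f * s) →
      s ∈ Submodule.span K J := by
    intro s hs hss hsR
    apply hmax s hs hss
    intro y hy
    obtain ⟨f, hf⟩ := hb y hy
    have hyf : y = dg b f := eq_dg b hf
    rw [hyf]
    apply hsR
    apply Submodule.subset_span
    change dg b f ∈ J ∪ A
    rw [← hyf]; exact hy
  -- `u` commutes with the generating involutions
  have hcu : ∀ s ∈ S, s * dg b u = dg b u * s := by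
    intro s hs
    obtain ⟨hsL, hss⟩ := hC.inv s hs
    have k1 := hC.irr.key hC.nd b hR hmax' huR htr hsL hss
    have k2 := hC.irr.key hC.nd b hR hmax' huR htr (L.neg_mem hsL)
      (by rw [neg_mul_neg, hss] : (-s) * (-s) = 1)
    have e1 : s * pp s = pp s := by
      unfold pp; rw [mul_smul_comm, mul_add, hss, mul_one, add_comm]
    have e2 : s * qq s = -qq s := by
      unfold qq; rw [mul_smul_comm, mul_sub, hss, mul_one, ← smul_neg, neg_sub]
    have c1 : s * dg b u * pp s = dg b u * pp s := by
      ext v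
      apply k1
      rw [← Module.End.mul_apply, e1]
    have c2 : s * dg b u * qq s = -(dg b u * qq s) := by
      ext v
      have := k2 (qq s v) (by
        rw [LinearMap.neg_apply, ← Module.End.mul_apply, e2, LinearMap.neg_apply, neg_neg])
      rw [LinearMap.neg_apply] at this
      exact neg_eq_iff_eq_neg.mp this
    calc s * dg b u = s * dg b u * (pp s + qq s) := by rw [pp_add_qq, mul_one]
      _ = s * dg b u * pp s + s * dg b u * qq s := by rw [mul_add]
      _ = dg b u * pp s - dg b u * qq s := by rw [c1, c2, sub_eq_add_neg]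
      _ = dg b u * s := by rw [← mul_sub, pp_sub_qq]
  -- hence all `u i` are equal
  have hconst : ∀ i j, u i = u j := by
    intro i j
    rcases hC.stable_of_inv (LinearMap.ker (dg b u - algebraMap K _ (u i : K))) (by
      intro s hs v hv
      rw [LinearMap.mem_ker, LinearMap.sub_apply, Module.algebraMap_end_apply, sub_eq_zero] at hv ⊢
      have := hcu s hs
      rw [← Module.End.mul_apply, ← this, Module.End.mul_apply, hv, map_smul]) with h1 | h1
    · have h2 : b i ∈ LinearMap.ker (dg b u - algebraMap K _ (u i : K)) := by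
        rw [LinearMap.mem_ker, LinearMap.sub_apply, Module.algebraMap_end_apply, dg_apply, sub_self]
      rw [h1, Submodule.mem_bot] at h2
      exact absurd h2 (b.ne_zero i)
    · have h2 : b j ∈ LinearMap.ker (dg b u - algebraMap K _ (u i : K)) := by rw [h1]; trivial
      rw [LinearMap.mem_ker, LinearMap.sub_apply, Module.algebraMap_end_apply, dg_apply,
        ← sub_smul] at h2
      rcases smul_eq_zero.mp h2 with h3 | h3
      · rw [sub_eq_zero] at h3
        exact_mod_cast h3.symm
      · exact absurd h3 (b.ne_zero j)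
  have hu0 : u = 0 := by
    funext i
    have h1 := trace_eq_zero_of_sk hC.nd (hC.irr.sk _ (hR u huR))
    rw [LinearMap.trace_eq_matrix_trace K b] at h1
    have h2 : (LinearMap.toMatrix b b (dg b u)).trace =
        ∑ _j : Fin (finrank K V), (u i : K) := by
      change ∑ j, en b (dg b u) j j = ∑ _j : Fin (finrank K V), (u i : K)
      apply Finset.sum_congr rfl
      intro j _
      rw [en_diag b (dg_apply b u), if_pos rfl, hconst j i]
    rw [h2, Finset.sum_const, Finset.card_univ, Fintype.card_fin, nsmul_eq_mul] at h1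
    have h3 : (finrank K V : K) ≠ 0 := by
      have : 0 < finrank K V := Fin.pos i
      exact_mod_cast this.ne'
    rcases mul_eq_zero.mp h1 with h4 | h4
    · exact absurd h4 h3
    · exact_mod_cast h4
  have hχr : χ = r := by
    rw [hu] at hu0
    exact sub_eq_zero.mp hu0
  rw [hzχ, hχr]
  exact dg_span b _ (fun f hf => Submodule.subset_span hf) hr

end

end MTP
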