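import Pool.Agent.Helper98.MT.Cut
import Mathlib.LinearAlgebra.Eigenspace.Zero

/-!
Slopes of an invertible operator with respect to an additive valuation: the slope operator
normalises every Lie algebra normalised by the operator.
-/

open Module

namespace MTP

variable {K : Type*} [Field K] {V : Type*} [AddCommGroup V] [Module K V] [FiniteDimensional K V]

/-- A basis of generalised eigenvectors. -/
lemma exists_genbasis [IsAlgClosed K] (γ : Module.End K V) :
    ∃ (b : Basis (Fin (finrank K V)) K V) (lam : Fin (finrank K V) → K),
      (∀ i, b i ∈ γ.maxGenEigenspace (lam i)) ∧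
      (∀ α, ∀ v ∈ γ.maxGenEigenspace α, ∀ i, b.repr v i ≠ 0 → lam i = α) ∧
      γ.charpoly.roots = Finset.univ.val.map lam := by
  classical
  have hI : DirectSum.IsInternal (fun α => γ.maxGenEigenspace α) :=
    DirectSum.isInternal_submodule_of_iSupIndep_of_iSup_eq_top γ.independent_maxGenEigenspace
      (Module.End.iSup_maxGenEigenspace_eq_top γ)
  let b₀ := hI.collectedBasis fun α => Module.finBasis K (γ.maxGenEigenspace α)
  have hfin : Finite (Σ α : K, Fin (finrank K (γ.maxGenEigenspace α))) :=
    Module.Finite.finite_basis b₀
  let _ := Fintype.ofFinite (Σ α : K, Fin (finrank K (γ.maxGenEigenspace α)))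
  let e : (Σ α : K, Fin (finrank K (γ.maxGenEigenspace α))) ≃ Fin (finrank K V) :=
    Fintype.equivFinOfCardEq (finrank_eq_card_basis b₀).symm
  refine ⟨b₀.reindex e, fun i => (e.symm i).1, ?_, ?_, ?_⟩
  · intro i
    rw [Basis.reindex_apply]
    exact hI.collectedBasis_mem _ _
  · intro α v hv i hi
    by_contra hne
    apply hi
    rw [Basis.repr_reindex_apply]
    exact hI.collectedBasis_repr_of_mem_ne _ (Ne.symm hne) hv
  · apply Multiset.ext.mpr
    intro α
    rw [Polynomial.count_roots, ← LinearMap.finrank_maxGenEigenspace_eq]
    rw [Multiset.count_map]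
    change _ = (Finset.univ.filter fun i => α = (e.symm i).1).card
    have h1 : (Finset.univ.filter fun i => α = (e.symm i).1).card =
        (Finset.univ.filter fun p : (Σ α : K, Fin (finrank K (γ.maxGenEigenspace α))) =>
          α = p.1).card := by
      apply Finset.card_bij (fun i _ => e.symm i)
      · intro i hi
        simpa using hi
      · intro i _ j _ hij
        exact e.symm.injective hij
      · intro p hp
        refine ⟨e p, ?_, e.symm_apply_apply p⟩
        simpa using hp
    rw [h1]
    have h2 : (Finset.univ.filter fun p : (Σ α : K, Fin (finrank K (γ.maxGenEigenspace α))) =>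
          α = p.1) = Finset.univ.map ⟨fun k : Fin (finrank K (γ.maxGenEigenspace α)) =>
            (⟨α, k⟩ : Σ α : K, Fin (finrank K (γ.maxGenEigenspace α))),
            fun k k' h => by simpa using h⟩ := by
      ext ⟨β, k⟩
      simp only [Finset.mem_filter, Finset.mem_univ, true_and, Finset.mem_map]
      constructor
      · rintro rfl
        exact ⟨k, rfl⟩
      · rintro ⟨k', h'⟩
        exact congrArg Sigma.fst h'
    rw [h2, Finset.card_map, Finset.card_univ, Fintype.card_fin]

omit [FiniteDimensional K V] in
/-- Operators in a generalised eigenspace of conjugation shift the generalised eigenspaces. -/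
lemma shift_gen {γ γ' : Module.End K V} (h' : γ' * γ = 1) {μ β : K} (a b : ℕ)
    (x : Module.End K V) (w : V)
    (hx : ((LinearMap.mulLeft K γ ∘ₗ LinearMap.mulRight K γ' - μ • 1 :
      Module.End K (Module.End K V)) ^ a) x = 0)
    (hw : ((γ - β • 1) ^ b) w = 0) : ((γ - (μ * β) • 1) ^ (a + b)) (x w) = 0 := by
  set T : Module.End K (Module.End K V) :=
    LinearMap.mulLeft K γ ∘ₗ LinearMap.mulRight K γ' - μ • 1 with hT
  have key : ∀ n a b : ℕ, a + b = n → ∀ (x : Module.End K V) (w : V), (T ^ a) x = 0 →
      ((γ - β • 1) ^ b) w = 0 → ((γ - (μ * β) • 1) ^ (a + b)) (x w) = 0 := by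
    intro n
    induction n with
    | zero =>
      intro a b hab x w hx hw
      obtain ⟨rfl, rfl⟩ : a = 0 ∧ b = 0 := by omega
      simp only [pow_zero, Module.End.one_apply] at hx
      rw [hx]; simp
    | succ n ih =>
      intro a b hab x w hx hw
      rcases Nat.eq_zero_or_pos a with ha | ha
      · subst ha
        simp only [pow_zero, Module.End.one_apply] at hx
        rw [hx]; simp
      rcases Nat.eq_zero_or_pos b with hb | hb
      · subst hb
        simp only [pow_zero, Module.End.one_apply] at hw
        rw [hw]; simp
      obtain ⟨a, rfl⟩ := Nat.exists_eq_add_of_lt ha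
      obtain ⟨b, rfl⟩ := Nat.exists_eq_add_of_lt hb
      simp only [zero_add] at *
      have e1 : (γ - (μ * β) • 1 : Module.End K V) (x w) =
          (T x) (γ w) + μ • (x ((γ - β • 1 : Module.End K V) w)) := by
        have h1 : γ' (γ w) = w := LinearMap.congr_fun h' w
        simp only [hT, LinearMap.sub_apply, LinearMap.comp_apply, LinearMap.mulLeft_apply,
          LinearMap.mulRight_apply, LinearMap.smul_apply, Module.End.one_apply,
          Module.End.mul_apply, h1, map_sub, map_smul]
        module
      have e2 : ((γ - (μ * β) • 1 : Module.End K V) ^ (a + 1 + (b + 1))) (x w) =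
          ((γ - (μ * β) • 1 : Module.End K V) ^ (a + (b + 1))) ((T x) (γ w)) +
          μ • ((γ - (μ * β) • 1 : Module.End K V) ^ (a + 1 + b))
            (x ((γ - β • 1 : Module.End K V) w)) := by
        have : a + 1 + (b + 1) = (a + (b + 1)) + 1 := by ring
        rw [this, pow_succ, Module.End.mul_apply, e1, map_add, map_smul]
        have e4 : a + 1 + b = a + (b + 1) := by ring
        rw [e4]
      rw [e2, ih a (b + 1) (by omega) (T x) (γ w), ih (a + 1) b (by omega) x _ hx, smul_zero,
        add_zero]
      · rw [← Module.End.mul_apply, ← pow_succ]; exact hw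
      · rw [← Module.End.mul_apply, ← pow_succ]; exact hx
      · have hcomm : Commute ((γ - β • 1 : Module.End K V) ^ (b + 1)) γ := by
          apply Commute.pow_left
          apply Commute.sub_left (Commute.refl γ)
          exact (Commute.one_left γ).smul_left β
        have h3 := congrArg (fun f : Module.End K V => f w) hcomm.eq
        simp only [Module.End.mul_apply] at h3
        rw [h3, hw, map_zero]
  exact key (a + b) a b rfl x w hx hw

omit [FiniteDimensional K V] in
/-- Generalised eigenspaces whose eigenvalues do not multiply to the multiplier are orthogonal. -/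
lemma orth_gen {ω : LinearMap.BilinForm K V} {γ : Module.End K V} {c : K}
    (hc : ∀ u w, ω (γ u) (γ w) = c * ω u w) {α β : K} (hαβ : α * β ≠ c) {u w : V}
    (hu : u ∈ γ.maxGenEigenspace α) (hw : w ∈ γ.maxGenEigenspace β) : ω u w = 0 := by
  rw [Module.End.mem_maxGenEigenspace] at hu hw
  obtain ⟨a, ha⟩ := hu
  obtain ⟨b, hb⟩ := hw
  have key : ∀ n a b : ℕ, a + b = n → ∀ u w : V, ((γ - α • 1) ^ a) u = 0 →
      ((γ - β • 1) ^ b) w = 0 → ω u w = 0 := by
    intro n
    induction n with
    | zero =>
      intro a b hab u w hu hw
      obtain ⟨rfl, rfl⟩ : a = 0 ∧ b = 0 := by omega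
      simp only [pow_zero, Module.End.one_apply] at hu
      rw [hu]; simp
    | succ n ih =>
      intro a b hab u w hu hw
      rcases Nat.eq_zero_or_pos a with ha | ha
      · subst ha
        simp only [pow_zero, Module.End.one_apply] at hu
        rw [hu]; simp
      rcases Nat.eq_zero_or_pos b with hb | hb
      · subst hb
        simp only [pow_zero, Module.End.one_apply] at hw
        rw [hw]; simp
      obtain ⟨a, rfl⟩ := Nat.exists_eq_add_of_lt ha
      obtain ⟨b, rfl⟩ := Nat.exists_eq_add_of_lt hb
      simp only [zero_add] at *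
      have hcomm : Commute ((γ - β • 1 : Module.End K V) ^ (b + 1)) γ := by
        apply Commute.pow_left
        apply Commute.sub_left (Commute.refl γ)
        exact (Commute.one_left γ).smul_left β
      have h3 := congrArg (fun f : Module.End K V => f w) hcomm.eq
      simp only [Module.End.mul_apply] at h3
      have h1 := ih a (b + 1) (by omega) ((γ - α • 1 : Module.End K V) u) (γ w) (by
        rw [← Module.End.mul_apply, ← pow_succ]; exact hu) (by rw [h3, hw, map_zero])
      have h2 := ih (a + 1) b (by omega) u ((γ - β • 1 : Module.End K V) w) hu (by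
        rw [← Module.End.mul_apply, ← pow_succ]; exact hw)
      have h4 := hc u w
      simp only [LinearMap.sub_apply, LinearMap.smul_apply, Module.End.one_apply, map_sub,
        map_smul, smul_eq_mul] at h1 h2
      have h5 : (c - α * β) * ω u w = 0 := by
        linear_combination h1 + α * h2 - h4
      exact (mul_eq_zero.mp h5).resolve_left (sub_ne_zero.mpr (Ne.symm hαβ))
  exact key (a + b) a b rfl u w ha hb

omit [FiniteDimensional K V] in
/-- The eigenspaces of a diagonal operator. -/
lemma finrank_eigenspace_diag [CharZero K] {I : Type*} [Fintype I] [DecidableEq I]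
    (b : Basis I K V) {χ : I → ℚ} {h : Module.End K V}
    (hh : ∀ i, h (b i) = (χ i : K) • b i) (a : ℚ) :
    finrank K (Module.End.eigenspace h (a : K)) =
      (Finset.univ.filter fun i => χ i = a).card := by
  classical
  have h1 : Module.End.eigenspace h (a : K) =
      Submodule.span K (b '' {i | χ i = a}) := by
    apply le_antisymm
    · intro v hv
      rw [Module.End.mem_eigenspace_iff] at hv
      rw [← b.sum_repr v]
      apply Submodule.sum_mem
      intro i _
      by_cases hi : b.repr v i = 0
      · rw [hi, zero_smul]; exact Submodule.zero_mem _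
      · apply Submodule.smul_mem
        apply Submodule.subset_span
        refine ⟨i, ?_, rfl⟩
        have h2 : b.repr (h v) i = (χ i : K) * b.repr v i := by
          rw [← b.sum_repr v, map_sum, map_sum, Finsupp.finsetSum_apply, b.sum_repr]
          rw [Finset.sum_eq_single i]
          · rw [map_smul, hh, map_smul, map_smul, Basis.repr_self, Finsupp.smul_apply,
              Finsupp.smul_apply, Finsupp.single_eq_same, smul_eq_mul, smul_eq_mul, mul_one,
              mul_comm]
          · intro j _ hj
            rw [map_smul, hh, map_smul, map_smul, Basis.repr_self, Finsupp.smul_apply,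
              Finsupp.smul_apply, Finsupp.single_apply, if_neg hj, smul_zero, smul_zero]
          · simp
        rw [hv, map_smul, Finsupp.smul_apply, smul_eq_mul] at h2
        have h3 := mul_right_cancel₀ hi h2
        exact (by exact_mod_cast h3.symm : χ i = a)
    · rw [Submodule.span_le]
      rintro _ ⟨i, hi, rfl⟩
      rw [SetLike.mem_coe, Module.End.mem_eigenspace_iff, hh]
      rw [Set.mem_ofPred_eq] at hi
      rw [hi]
  rw [h1]
  have h3 : (b '' {i | χ i = a}) = Set.range fun i : {i // χ i = a} => b i := by
    ext v
    constructor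
    · rintro ⟨i, hi, rfl⟩
      exact ⟨⟨i, hi⟩, rfl⟩
    · rintro ⟨⟨i, hi⟩, rfl⟩
      exact ⟨i, hi, rfl⟩
  rw [h3, finrank_span_eq_card (b := fun i : {i // χ i = a} => b i)
    (b.linearIndependent.comp _ Subtype.val_injective), Fintype.card_subtype]

/-- **The slope operator** of an operator `γ` with respect to an additive valuation. -/
theorem exists_slope [IsAlgClosed K] [CharZero K] {ω : LinearMap.BilinForm K V}
    {γ γ' : Module.End K V} (h' : γ' * γ = 1) {c : K}
    (hc : ∀ u w, ω (γ u) (γ w) = c * ω u w) {v : K → ℚ}
    (hv : ∀ x y, x ≠ 0 → y ≠ 0 → v (x * y) = v x + v y)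
    {L : Submodule K (Module.End K V)} (hL : ∀ x ∈ L, γ * x * γ' ∈ L) :
    ∃ h : Module.End K V, IsSk ω h ∧ (∀ x ∈ L, h * x - x * h ∈ L) ∧ RSD {h} ∧
      ∀ a : ℚ, finrank K (Module.End.eigenspace h (a : K)) =
        (γ.charpoly.roots.filter fun α => v α = a + v c / 2).card := by
  classical
  obtain ⟨b, lam, hb, hrep, hroots⟩ := exists_genbasis γ
  have hinj : Function.Injective γ := by
    intro x y hxy
    have h1 := congrArg γ' hxy
    have h2 : ∀ x, γ' (γ x) = x := fun x => LinearMap.congr_fun h' x
    rwa [h2, h2] at h1
  have hlam : ∀ i, lam i ≠ 0 := by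
    intro i h0
    have h1 := hb i
    rw [h0, Module.End.mem_maxGenEigenspace] at h1
    obtain ⟨k, hk⟩ := h1
    rw [zero_smul, sub_zero] at hk
    have h2 : Function.Injective (γ ^ k : Module.End K V) := by
      rw [Module.End.coe_pow]
      exact hinj.iterate k
    exact b.ne_zero i (h2 (by rw [hk, map_zero]))
  let χ : Fin (finrank K V) → ℚ := fun i => v (lam i) - v c / 2
  let h := dg b χ
  have hχ : ∀ i, h (b i) = (χ i : K) • b i := dg_apply b χ
  have hent : ∀ μ, ∀ x ∈ Module.End.maxGenEigenspace (R := K) (M := Module.End K V)
      (LinearMap.mulLeft K γ ∘ₗ LinearMap.mulRight K γ') μ, ∀ i j, en b x i j ≠ 0 →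
      lam i = μ * lam j := by
    intro μ x hx i j hij
    rw [Module.End.mem_maxGenEigenspace] at hx
    obtain ⟨a, ha⟩ := hx
    have h1 := hb j
    rw [Module.End.mem_maxGenEigenspace] at h1
    obtain ⟨k, hk⟩ := h1
    have h2 := shift_gen h' a k x (b j) ha hk
    apply hrep (μ * lam j) (x (b j))
    · rw [Module.End.mem_maxGenEigenspace]
      exact ⟨_, h2⟩
    · rw [← en_eq]; exact hij
  refine ⟨h, ?_, ?_, ?_, ?_⟩
  · have hB : ω.compLeft h = -(ω.compRight h) := by
      apply LinearMap.BilinForm.ext_basis b
      intro i j
      rw [LinearMap.BilinForm.compLeft_apply, LinearMap.BilinForm.neg_apply,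
        LinearMap.BilinForm.compRight_apply, hχ, hχ, map_smul, map_smul, LinearMap.smul_apply,
        smul_eq_mul, smul_eq_mul]
      by_cases h0 : ω (b i) (b j) = 0
      · rw [h0]; ring
      · have h1 : lam i * lam j = c := by
          by_contra hne
          exact h0 (orth_gen hc hne (hb i) (hb j))
        have h2 : v c = v (lam i) + v (lam j) := by rw [← h1]; exact hv _ _ (hlam i) (hlam j)
        have h3 : χ i = - χ j := by
          simp only [χ]; rw [h2]; ring
        rw [h3]; push_cast; ring
    intro u w
    have := congrArg (fun B : LinearMap.BilinForm K V => B u w) hB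
    simpa [LinearMap.BilinForm.compLeft_apply, LinearMap.BilinForm.compRight_apply] using this
  · intro x hx
    set Ad : Module.End K (Module.End K V) := LinearMap.mulLeft K γ ∘ₗ LinearMap.mulRight K γ'
      with hAd
    have hst : ∀ x ∈ L, Ad x ∈ L := by
      intro x hx
      have := hL x hx
      rwa [mul_assoc] at this
    have htop : ⨆ μ, Ad.genEigenspace μ ⊤ = ⊤ := Module.End.iSup_maxGenEigenspace_eq_top Ad
    have hdec := Submodule.eq_iSup_inf_genEigenspace (p := L) (f := Ad) ⊤ hst htop
    rw [hdec] at hx
    induction hx using Submodule.iSup_induction' with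
    | mem μ y hy =>
      obtain ⟨hyL, hyμ⟩ := hy
      have h1 : h * y - y * h = ((v μ : ℚ) : K) • y := by
        apply hom_comm b hχ
        intro i j hij
        have h2 := hent μ y hyμ i j hij
        have h3 : μ ≠ 0 := by
          rintro rfl
          rw [zero_mul] at h2
          exact hlam i h2
        simp only [χ]
        rw [h2, hv _ _ h3 (hlam j)]
        ring
      rw [h1]
      exact L.smul_mem _ hyL
    | zero => simp
    | add y z _ _ hy hz =>
      have : h * (y + z) - (y + z) * h = (h * y - y * h) + (h * z - z * h) := by noncomm_ring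
      rw [this]
      exact L.add_mem hy hz
  · unfold RSD
    rw [eq_top_iff, ← b.span_eq, Submodule.span_le]
    rintro _ ⟨i, rfl⟩
    apply Submodule.subset_span
    rintro z rfl
    exact ⟨χ i, hχ i⟩
  · intro a
    rw [finrank_eigenspace_diag b hχ a, hroots, Multiset.filter_map, Multiset.card_map]
    change _ = (Finset.univ.filter _).card
    congr 1
    ext i
    simp only [Finset.mem_filter, Finset.mem_univ, true_and, Function.comp, χ]
    constructor
    · intro h1; linarith
    · intro h1; linarith

end MTP
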