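import Pool.Agent.Helper98.MT.GCore3
import Pool.Agent.Helper21.MT.Trans2
import Pool.Agent.Helper21.MT.Gour3

/-!
From a split symplectic Mumford-Tate pair of weights zero and one to the Lie algebras of its
irreducible summands, with slope operators and logarithms of quadratic unipotents, and back.
(The proof of `grpCoreS` is the proof of `MTP.grpData` by helper21.)
-/

open Module MTPairs

namespace MTP

variable {K : Type*} [Field K] {m : Type*} [Fintype m] [DecidableEq m]
  {ι : Type*} [Fintype ι] [DecidableEq ι] {W : ι → Submodule K (m → K)}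
  {J : Matrix m m K} {G : Subgroup (Matrix.GeneralLinearGroup m K)}

/-- The abstract data attached to a pair. -/
theorem grpCoreS [IsAlgClosed K] [CharZero K] {σ : Type*} [Fintype σ]
    (b : Basis σ K (∀ j, Module.End K (W j))) (hG : IsMTPair J G) (hW : IsSplit J G W)
    (hnt : ∀ j, W j ≠ ⊥) : GrpCore (form J W) b (GS G hW.internal) := by
  have h := hW.internal
  have hfd : Module.Finite K (∀ j, Module.End K (W j)) := Module.Finite.of_basis b
  have hres : ∀ g ∈ G, ∃ a ∈ GS G h, (g : Matrix m m K) = mat h a := by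
    intro g hg
    obtain ⟨a, ha⟩ := exists_mat h (hW.stable g hg)
    exact ⟨a, ⟨g, hg, ha⟩, ha⟩
  refine
    { nd := form_nd hG.skew hG.det h hW.orth
      alt := form_alt hG.skew
      one := ⟨1, G.one_mem, (mat_one h).symm⟩
      mul := ?_
      inv := ?_
      closed := ?_
      sim := ?_
      gen := ?_
      irr := ?_
      ne := ?_
      nt := fun j => (Submodule.nontrivial_iff_ne_bot).mpr (hnt j) }
  · rintro a ⟨g, hg, hga⟩ a' ⟨g', hg', hga'⟩
    refine ⟨g * g', G.mul_mem hg hg', ?_⟩
    rw [mat_mul, ← hga, ← hga']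
    rfl
  · rintro a ⟨g, hg, hga⟩
    obtain ⟨a', ha', hga'⟩ := hres _ (G.inv_mem hg)
    refine ⟨a', ha', ?_, ?_⟩
    · apply mat_inj h
      rw [mat_mul, mat_one, ← hga, ← hga']
      exact Units.mul_inv g
    · apply mat_inj h
      rw [mat_mul, mat_one, ← hga, ← hga']
      exact Units.inv_mul g
  · intro a a' haa hp
    have haa' : mat h a * mat h a' = 1 := by rw [← mat_mul, haa, mat_one]
    obtain ⟨P, hP⟩ := hG.closed
    let g : Matrix.GeneralLinearGroup m K :=
      ⟨mat h a, mat h a', haa', mul_eq_one_comm.mp haa'⟩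
    refine ⟨g, ?_, rfl⟩
    rw [hP]
    intro p hpP
    let f : (∀ j, Module.End K (W j)) →ₗ[K] (m × m → K) :=
      { toFun := fun a ij => mat h a ij.1 ij.2
        map_add' := by intro x y; ext ij; simp [mat_add]
        map_smul' := by intro c x; ext ij; simp [mat_smul] }
    obtain ⟨p', hp'⟩ := exists_pullback (A := ∀ j, Module.End K (W j)) b f p
    have h1 := hp p' (by
      rintro x ⟨g', hg', hgx⟩
      rw [hp']
      have := (hP g').mp hg' p hpP
      rw [hgx] at this
      exact this)
    rw [hp'] at h1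
    exact h1
  · rintro a ⟨g, hg, hga⟩
    obtain ⟨c, hc⟩ := hG.sim g hg
    exact ⟨c, fun j v w => sim_form h hga hc j v w⟩
  · intro M hM a ha
    obtain ⟨g, hg, hga⟩ := ha
    let H : Subgroup (Matrix.GeneralLinearGroup m K) :=
      { carrier := {g | g ∈ G ∧ ∃ a ∈ M, (g : Matrix m m K) = mat h a}
        one_mem' := ⟨G.one_mem, 1, M.one_mem, (mat_one h).symm⟩
        mul_mem' := by
          rintro g g' ⟨hg, a, ha, hga⟩ ⟨hg', a', ha', hga'⟩
          refine ⟨G.mul_mem hg hg', a * a', M.mul_mem ha ha', ?_⟩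
          rw [mat_mul, ← hga, ← hga']
          rfl
        inv_mem' := by
          rintro g ⟨hg, a, ha, hga⟩
          obtain ⟨a', ha', hga'⟩ := hres _ (G.inv_mem hg)
          refine ⟨G.inv_mem hg, a', ?_, hga'⟩
          apply inv_mem_subalgebra M ha
          apply mat_inj h
          rw [mat_mul, mat_one, ← hga, ← hga']
          exact Units.inv_mul g }
    have hHclosed : ZariskiClosed H := by
      apply closed_of_linear G H hG.closed ((Subalgebra.toSubmodule M).map (matL h))
      intro g
      constructor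
      · rintro ⟨hg, a, ha, hga⟩
        exact ⟨hg, a, ha, hga.symm⟩
      · rintro ⟨hg, a, ha, hga⟩
        exact ⟨hg, a, ha, hga.symm⟩
    have hGH := hG.gen H hHclosed (by
      rintro π ⟨hπ, ht⟩
      -- `π` preserves the summands
      have hpres : ∀ j, ∀ v ∈ W j, π.mulVec v ∈ W j := by
        intro j v hv
        obtain ⟨g, hg, hgt⟩ := ht 2 two_ne_zero
        have h1 := hW.stable g hg j v hv
        have h2 : (g : Matrix m m K).mulVec v = π.mulVec v + v := by
          rw [hgt]
          have : (2 : K) • π + (1 - π) = π + 1 := by rw [two_smul]; abel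
          rw [this, Matrix.add_mulVec, Matrix.one_mulVec]
        rw [h2] at h1
        have := (W j).sub_mem h1 hv
        rwa [add_sub_cancel_right] at this
      obtain ⟨a, ha⟩ := exists_mat h hpres
      have haM : a ∈ M := by
        apply hM
        · apply mat_inj h
          rw [mat_mul, ← ha, hπ]
        · intro t ht0
          obtain ⟨g, hg, hgt⟩ := ht t ht0
          refine ⟨g, hg, ?_⟩
          rw [mat_add, mat_smul, mat_one, ← ha, hgt]
          module
      refine ⟨hπ, fun t ht0 => ?_⟩
      obtain ⟨g, hg, hgt⟩ := ht t ht0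
      refine ⟨g, ⟨hg, 1 + (t - 1) • a, M.add_mem M.one_mem (M.smul_mem haM _), ?_⟩, hgt⟩
      rw [mat_add, mat_smul, mat_one, ← ha, hgt]
      module)
    obtain ⟨-, a', ha', hga'⟩ := hGH hg
    have : a = a' := mat_inj h (by rw [← hga, hga'])
    rw [this]; exact ha'
  · intro j W' hW'
    have := hW.irr j (W'.map (W j).subtype) (by
      rintro _ ⟨v, -, rfl⟩
      exact v.2) (by
      rintro g hg _ ⟨v, hv, rfl⟩
      obtain ⟨a, ha, hga⟩ := hres g hg
      refine ⟨a j v, hW' a ha v hv, ?_⟩
      rw [hga]
      exact (mat_mulVec h a j v).symm)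
    rcases this with h1 | h1
    · left
      rw [eq_bot_iff]
      intro w hw
      have h2 : (w : m → K) ∈ W'.map (W j).subtype := ⟨w, hw, rfl⟩
      rw [h1, Submodule.mem_bot] at h2
      exact Subtype.ext h2
    · right
      rw [eq_top_iff]
      rintro ⟨v, hv⟩ -
      rw [← h1] at hv
      obtain ⟨w, hw, hwv⟩ := hv
      have : w = ⟨v, by rw [← hwv]; exact w.2⟩ := Subtype.ext hwv
      rw [← this]; exact hw
  · rintro i j hij ⟨e, he⟩
    obtain ⟨pr, hpr⟩ := (W i).exists_isCompl
    let T : (m → K) →ₗ[K] (m → K) :=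
      (W j).subtype ∘ₗ e.toLinearMap ∘ₗ (Submodule.projectionOnto (W i) pr hpr)
    have hT : ∀ v : W i, T v = e v := by
      intro v
      simp only [T, LinearMap.comp_apply]
      rw [Submodule.projectionOnto_apply_left]
      rfl
    have := hW.ne i j hij T (by
      intro v hv
      rw [hT ⟨v, hv⟩]
      exact (e ⟨v, hv⟩).2) (by
      intro g hg v hv
      obtain ⟨a, ha, hga⟩ := hres g hg
      have h1 : (g : Matrix m m K).mulVec v = (a i ⟨v, hv⟩ : W i) := by
        rw [hga]; exact mat_mulVec h a i ⟨v, hv⟩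
      rw [h1, hT, he a ha, hT ⟨v, hv⟩, hga]
      exact (mat_mulVec h a j _).symm)
    apply hnt i
    rw [eq_bot_iff]
    intro v hv
    have h1 := this v hv
    rw [hT ⟨v, hv⟩] at h1
    have h2 : e ⟨v, hv⟩ = 0 := Subtype.ext h1
    have h3 : (⟨v, hv⟩ : W i) = 0 := by
      apply e.injective; rw [h2, map_zero]
    exact congrArg Subtype.val h3

/-- **The Lie algebras of the summands.** -/
theorem exists_lie_split [IsAlgClosed K] [CharZero K] (hG : IsMTPair J G) (hW : IsSplit J G W)
    (hnt : ∀ j, W j ≠ ⊥) :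
    ∃ (L : ∀ j, Submodule K (Module.End K (W j))) (S : ∀ j, Set (Module.End K (W j))),
      (∀ j, Ctx (form J W j) (L j) (S j)) ∧
      (∀ γ ∈ G, ∀ v : K → ℚ, (∀ x y, x ≠ 0 → y ≠ 0 → v (x * y) = v x + v y) →
        ∀ j, ∀ φ : Module.End K (W j),
        (∀ w : W j, (φ w : m → K) = (γ : Matrix m m K).mulVec (w : m → K)) →
        ∃ (e : ℚ), ∃ h ∈ L j, RSD {h} ∧
          ∀ a : ℚ, finrank K (Module.End.eigenspace h (a : K)) = (slopes v φ).count (a + e)) ∧
      (∀ u ∈ G, ∀ j, ∀ r, IsQuadraticOn u (W j) r →
        ∃ N ∈ L j, N * N = 0 ∧ rk N = r) ∧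
      ((∀ j, ∀ z, IsSk (form J W j) z → z ∈ L j) → IsFull J G W) := by
  classical
  obtain ⟨n, ⟨b⟩⟩ := exists_basis (W := W)
  have D := grpCoreS b hG hW hnt
  have hres : ∀ g ∈ G, ∃ a ∈ GS G hW.internal, (g : Matrix m m K) = mat hW.internal a := by
    intro g hg
    obtain ⟨a, ha⟩ := exists_mat hW.internal (hW.stable g hg)
    exact ⟨a, ⟨g, hg, ha⟩, ha⟩
  refine ⟨GrpCore.LJ (form J W) (GS G hW.internal), GrpCore.SJ (form J W) (GS G hW.internal),
    fun j => D.ctxJ j, ?_, ?_, ?_⟩
  · intro γ hγ v hv j φ hφ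
    obtain ⟨a, haG, ha⟩ := hres γ hγ
    have hφa : φ = a j := by
      ext1 w
      apply Subtype.ext
      rw [hφ, ha, mat_mulVec]
    rw [hφa]
    exact D.slope_mem haG hv j
  · intro u hu j r hr
    obtain ⟨a, haG, ha⟩ := hres u hu
    have hsub : (u : Matrix m m K) - 1 = mat hW.internal (a - 1) := by
      rw [mat_sub, mat_one, ha]
    have hNN : (a j - 1) * (a j - 1) = 0 := by
      ext1 w
      apply Subtype.ext
      have := hr.1 w w.2
      rw [hsub, mat_mulVec, mat_mulVec] at this
      exact this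
    refine ⟨a j - 1, D.quad_mem haG hNN, hNN, ?_⟩
    have := finrank_range_restrict hW.internal (a - 1) j
    rw [← hsub, hr.2] at this
    exact this
  · intro hfull
    rintro g ⟨c, hc⟩ hpres
    rcases isEmpty_or_nonempty ι with hι | hι
    · have hm : IsEmpty m := by
        by_contra hm
        rw [not_isEmpty_iff] at hm
        obtain ⟨i⟩ := hm
        have h1 : (Pi.single i (1 : K) : m → K) ∈ iSup W := by
          rw [hW.internal.submodule_iSup_eq_top]; trivial
        rw [iSup_of_empty, Submodule.mem_bot] at h1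
        have h2 := congrFun h1 i
        rw [Pi.single_eq_same] at h2
        exact one_ne_zero h2
      have : g = 1 := by
        apply Units.ext
        ext i
        exact hm.elim i
      rw [this]; exact G.one_mem
    obtain ⟨a, ha⟩ := exists_mat hW.internal hpres
    have hm : Nonempty m := by
      obtain ⟨j⟩ := hι
      by_contra hm
      rw [not_nonempty_iff] at hm
      obtain ⟨v, w, hvw⟩ := D.exists_ne_form j
      apply hvw
      have : v = 0 := by
        apply Subtype.ext
        exact Subsingleton.elim _ _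
      rw [this]; simp
    have hc0 : c ≠ 0 := by
      rintro rfl
      rw [zero_smul] at hc
      have h1 := congrArg Matrix.det hc
      rw [Matrix.det_mul, Matrix.det_mul, Matrix.det_transpose, Matrix.det_zero] at h1
      have hg : (g : Matrix m m K).det ≠ 0 :=
        ((Matrix.isUnit_iff_isUnit_det _).mp g.isUnit).ne_zero
      exact (mul_ne_zero (mul_ne_zero hg hG.det) hg) h1
    obtain ⟨g', hg', hga⟩ := D.gsp_of_LJ (fun L h1 h2 h3 h4 =>
      goursat (fun j => (Submodule.nontrivial_iff_ne_bot).mpr (hnt j)) (form J W)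
        (form_nd hG.skew hG.det hW.internal hW.orth) (form_alt hG.skew) L h1 h2 h3 h4)
      hfull hc0 (g := a) (fun j v w => sim_form hW.internal ha hc j v w)
    have : g = g' := Units.ext (by rw [ha, hga])
    rw [this]; exact hg'

end MTP
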