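import Pool.Agent.Helper98.MT.GCore2
import Pool.Agent.Helper98.MT.Slope
import Pool.Agent.Helper21.MT.Trans

/-!
Irreducible symplectic Mumford-Tate pairs of weights zero and one in matrix form.
-/

open Module MTPairs

namespace MTP

variable {K : Type*} [Field K] {m : Type*} [Fintype m] [DecidableEq m]

/-- The elements of `G` as families indexed by the one element type. -/
def GU (G : Subgroup (Matrix.GeneralLinearGroup m K)) :
    Set (∀ _ : Unit, Module.End K (m → K)) :=
  {a | ∃ g ∈ G, a = fun _ => Matrix.toLin' (g : Matrix m m K)}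

/-- The standard representation of `G` is irreducible. -/
def Irr (G : Subgroup (Matrix.GeneralLinearGroup m K)) : Prop :=
  ∀ U : Submodule K (m → K), (∀ g ∈ G, ∀ v ∈ U, (g : Matrix m m K).mulVec v ∈ U) →
    U = ⊥ ∨ U = ⊤

lemma toBilin'_skew {J : Matrix m m K} (hJ : J.transpose = -J) (v w : m → K) :
    Matrix.toBilin' J v w = - Matrix.toBilin' J w v := by
  rw [Matrix.toBilin'_apply', Matrix.toBilin'_apply', Matrix.dotProduct_mulVec,
    ← Matrix.mulVec_transpose, hJ, Matrix.neg_mulVec, neg_dotProduct, dotProduct_comm]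

lemma toBilin'_nd {J : Matrix m m K} (hJ : J.transpose = -J) (hdet : J.det ≠ 0) :
    (Matrix.toBilin' J).Nondegenerate := by
  have hnd := Matrix.nondegenerate_of_det_ne_zero hdet
  constructor
  · intro v hv
    apply hnd.eq_zero_of_ortho
    intro w
    have := hv w
    rwa [Matrix.toBilin'_apply'] at this
  · intro v hv
    apply hnd.eq_zero_of_ortho
    intro w
    have := hv w
    rw [toBilin'_skew hJ, neg_eq_zero, Matrix.toBilin'_apply'] at this
    exact this

lemma toBilin'_sim {J g : Matrix m m K} {c : K} (hc : g.transpose * J * g = c • J)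
    (v w : m → K) : Matrix.toBilin' J (Matrix.toLin' g v) (Matrix.toLin' g w) =
      c * Matrix.toBilin' J v w := by
  rw [Matrix.toBilin'_apply', Matrix.toBilin'_apply', Matrix.toLin'_apply, Matrix.toLin'_apply]
  have e : (g.mulVec v) ⬝ᵥ J.mulVec (g.mulVec w) = v ⬝ᵥ (g.transpose * J * g).mulVec w := by
    rw [← Matrix.mulVec_mulVec, ← Matrix.mulVec_mulVec, Matrix.dotProduct_mulVec v,
      Matrix.vecMul_transpose]
  rw [e, hc, Matrix.smul_mulVec, dotProduct_smul, smul_eq_mul]

variable {J : Matrix m m K} {G : Subgroup (Matrix.GeneralLinearGroup m K)}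

/-- The abstract data attached to an irreducible pair. -/
theorem grpCore [IsAlgClosed K] [CharZero K] [Nonempty m] {σ : Type*} [Fintype σ]
    (b : Basis σ K (∀ _ : Unit, Module.End K (m → K))) (hG : IsMTPair J G) (hirr : Irr G) :
    GrpCore (W := fun _ : Unit => (m → K)) (fun _ => Matrix.toBilin' J) b (GU G) := by
  have hmul : ∀ g g' : Matrix.GeneralLinearGroup m K,
      (fun _ : Unit => Matrix.toLin' (g : Matrix m m K)) *
      (fun _ : Unit => Matrix.toLin' (g' : Matrix m m K)) =
      fun _ : Unit => Matrix.toLin' ((g * g' : Matrix.GeneralLinearGroup m K) : Matrix m m K) := by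
    intro g g'
    funext _
    rw [Pi.mul_apply, Units.val_mul, Matrix.toLin'_mul]
    rfl
  have hone : (1 : ∀ _ : Unit, Module.End K (m → K)) =
      fun _ : Unit => Matrix.toLin' ((1 : Matrix.GeneralLinearGroup m K) : Matrix m m K) := by
    funext _
    rw [Units.val_one, Matrix.toLin'_one]
    rfl
  refine
    { nd := fun _ => toBilin'_nd hG.skew hG.det
      alt := ?_
      one := ⟨1, G.one_mem, hone⟩
      mul := ?_
      inv := ?_
      closed := ?_
      sim := ?_
      gen := ?_
      irr := ?_
      ne := ?_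
      nt := fun _ => inferInstance }
  · intro _ v
    have := toBilin'_skew hG.skew v v
    have h2 : (2 : K) * Matrix.toBilin' J v v = 0 := by linear_combination this
    exact (mul_eq_zero.mp h2).resolve_left two_ne_zero
  · rintro a ⟨g, hg, rfl⟩ a' ⟨g', hg', rfl⟩
    exact ⟨g * g', G.mul_mem hg hg', hmul g g'⟩
  · rintro a ⟨g, hg, rfl⟩
    refine ⟨_, ⟨g⁻¹, G.inv_mem hg, rfl⟩, ?_, ?_⟩
    · rw [hmul, mul_inv_cancel, hone]
    · rw [hmul, inv_mul_cancel, hone]
  · intro a a' haa hp
    obtain ⟨P, hP⟩ := hG.closed
    have e1 : LinearMap.toMatrix' (a ()) * LinearMap.toMatrix' (a' ()) = 1 := by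
      rw [← LinearMap.toMatrix'_mul]
      have : a () * a' () = 1 := congrFun haa ()
      rw [this, LinearMap.toMatrix'_one]
    let g : Matrix.GeneralLinearGroup m K :=
      ⟨LinearMap.toMatrix' (a ()), LinearMap.toMatrix' (a' ()), e1, mul_eq_one_comm.mp e1⟩
    refine ⟨g, ?_, ?_⟩
    · rw [hP]
      intro p hpP
      let f : (∀ _ : Unit, Module.End K (m → K)) →ₗ[K] (m × m → K) :=
        { toFun := fun a ij => LinearMap.toMatrix' (a ()) ij.1 ij.2
          map_add' := by intro x y; ext ij; simp
          map_smul' := by intro c x; ext ij; simp }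
      obtain ⟨p', hp'⟩ := exists_pullback (A := ∀ _ : Unit, Module.End K (m → K)) b f p
      have h1 := hp p' (by
        rintro x ⟨g', hg', rfl⟩
        rw [hp']
        have := (hP g').mp hg' p hpP
        simp only [f, LinearMap.coe_mk, AddHom.coe_mk, LinearMap.toMatrix'_toLin']
        exact this)
      rw [hp'] at h1
      exact h1
    · funext _
      change a () = Matrix.toLin' (LinearMap.toMatrix' (a ()))
      rw [Matrix.toLin'_toMatrix']
  · rintro a ⟨g, hg, rfl⟩
    obtain ⟨c, hc⟩ := hG.sim g hg
    exact ⟨c, fun _ v w => toBilin'_sim hc v w⟩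
  · rintro M hM _ ⟨g, hg, rfl⟩
    let H : Subgroup (Matrix.GeneralLinearGroup m K) :=
      { carrier := {g | g ∈ G ∧ (fun _ : Unit => Matrix.toLin' (g : Matrix m m K)) ∈ M}
        one_mem' := ⟨G.one_mem, by rw [← hone]; exact M.one_mem⟩
        mul_mem' := by
          rintro g g' ⟨hg, hgM⟩ ⟨hg', hgM'⟩
          refine ⟨G.mul_mem hg hg', ?_⟩
          rw [← hmul]; exact M.mul_mem hgM hgM'
        inv_mem' := by
          rintro g ⟨hg, hgM⟩
          refine ⟨G.inv_mem hg, ?_⟩
          apply inv_mem_subalgebra M hgM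
          rw [hmul, inv_mul_cancel, hone] }
    have hHclosed : ZariskiClosed H := by
      let f : Matrix m m K →ₗ[K] (∀ _ : Unit, Module.End K (m → K)) :=
        LinearMap.pi fun _ => (Matrix.toLin' (R := K) (m := m) (n := m)).toLinearMap
      apply closed_of_linear G H hG.closed ((Subalgebra.toSubmodule M).comap f)
      intro g
      rfl
    have hGH := hG.gen H hHclosed (by
      rintro π ⟨hπ, ht⟩
      refine ⟨hπ, fun t ht0 => ?_⟩
      obtain ⟨g, hg, hgt⟩ := ht t ht0
      refine ⟨g, ⟨hg, ?_⟩, hgt⟩
      have hpi : (fun _ : Unit => Matrix.toLin' π) ∈ M := by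
        apply hM
        · funext _
          rw [Pi.mul_apply]
          have := Matrix.toLin'_mul π π
          rw [hπ] at this
          exact this.symm
        · intro t ht0
          obtain ⟨g, hg, hgt⟩ := ht t ht0
          refine ⟨g, hg, ?_⟩
          funext _
          rw [hgt]
          simp only [Pi.add_apply, Pi.one_apply, Pi.smul_apply, map_add, map_sub, map_smul,
            Matrix.toLin'_one]
          change 1 + _ = _ + (1 - _)
          module
      have e : (fun _ : Unit => Matrix.toLin' (g : Matrix m m K)) =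
          1 + (t - 1) • (fun _ : Unit => Matrix.toLin' π) := by
        funext _
        rw [hgt]
        simp only [Pi.add_apply, Pi.one_apply, Pi.smul_apply, map_add, map_sub, map_smul,
          Matrix.toLin'_one]
        change _ + (1 - _) = 1 + _
        module
      rw [e]
      exact M.add_mem M.one_mem (M.smul_mem hpi _))
    exact (hGH hg).2
  · intro _ U hU
    apply hirr U
    intro g hg v hv
    have := hU _ ⟨g, hg, rfl⟩ v hv
    rwa [Matrix.toLin'_apply] at this
  · intro i j hij
    exact absurd (Subsingleton.elim i j) hij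

end MTP
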