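import Pool.Agent.Helper98.MT.Proj

/-!
Difference classes of the weights of a rational space of functions, odd for an involution `ng`,
with a doubly transitive group of symmetries.
-/

open Module Matrix

namespace MTP

variable {X : Type*} [Fintype X] [DecidableEq X]

/-- Even functions for a fixed point free involution form a space of half the dimension. -/
lemma finrank_even (ng : X → X) (hng : ∀ a, ng (ng a) = a) (hne : ∀ a, ng a ≠ a)
    (W : Submodule ℚ (X → ℚ)) (hW : ∀ f : X → ℚ, (∀ a, f (ng a) = f a) → f ∈ W) :
    Fintype.card X ≤ 2 * finrank ℚ W := by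
  classical
  let A : Submodule ℚ (X → ℚ) :=
    { carrier := {f | ∀ a, f (ng a) = f a}
      add_mem' := by intro f g hf hg a; simp [hf a, hg a]
      zero_mem' := by intro a; simp
      smul_mem' := by intro c f hf a; simp [hf a] }
  let B : Submodule ℚ (X → ℚ) :=
    { carrier := {f | ∀ a, f (ng a) = -f a}
      add_mem' := by intro f g hf hg a; simp [hf a, hg a]; ring
      zero_mem' := by intro a; simp
      smul_mem' := by intro c f hf a; simp [hf a] }
  let e := Fintype.equivFin X
  let σ : X → ℚ := fun a => if e a < e (ng a) then 1 else -1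
  have hσ : ∀ a, σ (ng a) = -σ a := by
    intro a
    simp only [σ, hng]
    have h0 : e a ≠ e (ng a) := fun h => hne a (e.injective h).symm
    rcases lt_or_gt_of_ne h0 with h | h
    · rw [if_neg (not_lt.mpr h.le), if_pos h]
    · rw [if_pos h, if_neg (not_lt.mpr h.le), neg_neg]
  have hσ2 : ∀ a, σ a * σ a = 1 := by
    intro a
    simp only [σ]
    split_ifs <;> norm_num
  let Ψ : B →ₗ[ℚ] A :=
    { toFun := fun f => ⟨fun a => σ a * (f : X → ℚ) a, by
        intro a
        change σ (ng a) * (f : X → ℚ) (ng a) = σ a * (f : X → ℚ) a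
        rw [hσ, f.2 a]; ring⟩
      map_add' := by intro f g; apply Subtype.ext; funext a; simp [mul_add]
      map_smul' := by
        intro c f; apply Subtype.ext; funext a
        simp only [Submodule.coe_smul, Pi.smul_apply, smul_eq_mul, RingHom.id_apply]
        ring }
  have hΨ : Function.Injective Ψ := by
    rw [injective_iff_map_eq_zero]
    intro f hf
    apply Subtype.ext
    funext a
    have h1 : σ a * (f : X → ℚ) a = 0 := congrFun (congrArg Subtype.val hf) a
    have h2 : (f : X → ℚ) a = σ a * (σ a * (f : X → ℚ) a) := by rw [← mul_assoc, hσ2, one_mul]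
    rw [h2, h1, mul_zero]; rfl
  have h1 : finrank ℚ B ≤ finrank ℚ A := LinearMap.finrank_le_finrank_of_injective hΨ
  have h2 : A ⊔ B = ⊤ := by
    rw [eq_top_iff]
    intro f _
    have : f = (fun a => (f a + f (ng a)) / 2) + (fun a => (f a - f (ng a)) / 2) := by
      funext a; simp only [Pi.add_apply]; ring
    rw [this]
    refine Submodule.add_mem_sup ?_ ?_
    · intro a
      change (f (ng a) + f (ng (ng a))) / 2 = (f a + f (ng a)) / 2
      rw [hng]; ring
    · intro a
      change (f (ng a) - f (ng (ng a))) / 2 = -((f a - f (ng a)) / 2)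
      rw [hng]; ring
  have h3 := Submodule.finrank_add_le_finrank_add_finrank A B
  rw [h2, finrank_top, finrank_fintype_fun_eq_card] at h3
  have h4 : finrank ℚ A ≤ finrank ℚ W := Submodule.finrank_mono fun f hf => hW f hf
  omega

/-- **Difference classes.** -/
theorem twoTrans_classes (ng : X → X) (hng : ∀ a, ng (ng a) = a) (hne : ∀ a, ng a ≠ a)
    (E : Submodule ℚ (X → ℚ)) (hanti : ∀ h ∈ E, ∀ a, h (ng a) = - h a)
    (hsep : ∀ a b, a ≠ b → ∃ h ∈ E, h a ≠ h b)
    (htr : ∀ a b c d, b ≠ a → b ≠ ng a → d ≠ c → d ≠ ng c → ∃ s : Equiv.Perm X,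
      (∀ x, s (ng x) = ng (s x)) ∧ (∀ h ∈ E, (fun x => h (s x)) ∈ E) ∧
      (s a = c ∨ s a = ng c) ∧ (s b = d ∨ s b = ng d))
    (hex : (Fintype.card X, finrank ℚ E) ∉
      ({(8, 3), (20, 5), (32, 6), (56, 7)} : Set (ℕ × ℕ))) :
    ∀ a b a' b', a ≠ b → (∀ h ∈ E, h a - h b = h a' - h b') →
      (a' = a ∧ b' = b) ∨ (a' = ng b ∧ b' = ng a) := by
  classical
  obtain ⟨p, H⟩ := exists_repr E
  have hpn : ∀ a, p (ng a) = -p a := by
    intro a
    have h1 : ∀ h ∈ E, (p (ng a) + p a) ⬝ᵥ h = 0 := by
      intro h hh
      rw [add_dotProduct, H.rep _ h hh, H.rep _ h hh, hanti h hh, neg_add_cancel]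
    have h2 := h1 _ (E.add_mem (H.mem (ng a)) (H.mem a))
    rw [dotProduct_self_eq_zero] at h2
    exact eq_neg_of_add_eq_zero_left h2
  have hnn : ∀ a b, p (ng a) (ng b) = p a b := by
    intro a b
    rw [hanti _ (H.mem _), hpn, Pi.neg_apply, neg_neg]
  have hpinj : ∀ a b, p a = p b → a = b := by
    intro a b hab
    by_contra hcon
    obtain ⟨h, hh, hne'⟩ := hsep a b hcon
    apply hne'
    rw [← H.rep a h hh, ← H.rep b h hh, hab]
  have hpos : ∀ a, 0 < p a a := by
    intro a
    have h1 : 0 ≤ p a ⬝ᵥ p a := by
      rw [dotProduct]; exact Finset.sum_nonneg fun i _ => mul_self_nonneg _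
    have h2 : p a ⬝ᵥ p a ≠ 0 := by
      intro h
      rw [dotProduct_self_eq_zero] at h
      apply hne a
      apply hpinj
      rw [hpn, h, neg_zero]
    rw [H.dot] at h1 h2
    exact lt_of_le_of_ne h1 (Ne.symm h2)
  -- numerical data
  obtain ⟨N, κ, hN, hκN, h9, hd, ho⟩ : ∃ N κ : ℚ, 0 < N ∧ κ ≠ N ^ 2 ∧ 9 * κ ≠ N ^ 2 ∧
      (∀ a, p a a = N) ∧ (∀ a b, b ≠ a → b ≠ ng a → p a b ^ 2 = κ) := by
    by_cases hX : ∃ a b : X, b ≠ a ∧ b ≠ ng a
    · obtain ⟨a₀, b₀, h0, h0'⟩ := hX
      have hequiv : ∀ s : Equiv.Perm X, (∀ h ∈ E, (fun x => h (s x)) ∈ E) →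
          ∀ a b, p (s a) (s b) = p a b := by
        intro s hs a b
        have := H.equiv s (fun _ => 1) (by simpa using hs) a b
        simpa using this
      have hother : ∀ c : X, ∃ d, d ≠ c ∧ d ≠ ng c := by
        intro c
        by_cases h1 : a₀ = c ∨ a₀ = ng c
        · refine ⟨b₀, ?_, ?_⟩
          · rcases h1 with h1 | h1
            · rw [← h1]; exact h0
            · intro h2; apply h0'; rw [h1, hng, h2]
          · rcases h1 with h1 | h1
            · rw [← h1]; exact h0'
            · rw [← h1]; exact h0
        · push Not at h1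
          exact ⟨a₀, h1.1, h1.2⟩
      have hdiag : ∀ c, p c c = p a₀ a₀ := by
        intro c
        obtain ⟨d, hd1, hd2⟩ := hother c
        obtain ⟨s, _, hs, hsa, _⟩ := htr a₀ b₀ c d h0 h0' hd1 hd2
        have h1 := hequiv s hs a₀ a₀
        rcases hsa with h | h
        · rw [h] at h1; exact h1
        · rw [h, hnn] at h1; exact h1
      have hoff : ∀ c d, d ≠ c → d ≠ ng c → p c d ^ 2 = p a₀ b₀ ^ 2 := by
        intro c d hd1 hd2
        obtain ⟨s, _, hs, hsa, hsb⟩ := htr a₀ b₀ c d h0 h0' hd1 hd2
        have h1 := hequiv s hs a₀ b₀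
        rw [← h1]
        have e1 : ∀ a b, p a (ng b) = -p a b := fun a b => hanti _ (H.mem a) b
        rcases hsa with h | h <;> rcases hsb with h' | h' <;> rw [h, h']
        · rw [e1, neg_sq]
        · rw [hpn, Pi.neg_apply, neg_sq]
        · rw [hnn]
      have hcs : p a₀ b₀ ^ 2 ≠ p a₀ a₀ ^ 2 := by
        intro h
        have h1 : (p a₀ b₀ - p a₀ a₀) * (p a₀ b₀ + p a₀ a₀) = 0 := by linear_combination h
        have hbb := hdiag b₀
        rcases mul_eq_zero.mp h1 with h2 | h2
        · have h3 : (p a₀ - p b₀) ⬝ᵥ (p a₀ - p b₀) = 0 := by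
            rw [sub_dotProduct, dotProduct_sub, dotProduct_sub, H.dot, H.dot, H.dot, H.dot, hbb,
              H.symm b₀ a₀]
            linarith
          rw [dotProduct_self_eq_zero, sub_eq_zero] at h3
          exact h0 (hpinj _ _ h3).symm
        · have h3 : (p a₀ + p b₀) ⬝ᵥ (p a₀ + p b₀) = 0 := by
            rw [add_dotProduct, dotProduct_add, dotProduct_add, H.dot, H.dot, H.dot, H.dot, hbb,
              H.symm b₀ a₀]
            linarith
          rw [dotProduct_self_eq_zero] at h3
          have h4 : p b₀ = p (ng a₀) := by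
            rw [hpn]; exact eq_neg_of_add_eq_zero_right h3
          exact h0' (hpinj _ _ h4)
      refine ⟨p a₀ a₀, p a₀ b₀ ^ 2, hpos a₀, hcs, ?_, hdiag, hoff⟩
      -- the exceptional cases
      intro h9
      have htrace : (Fintype.card X : ℚ) * p a₀ a₀ = finrank ℚ E := by
        rw [← H.trace, Finset.sum_congr rfl (fun i _ => hdiag i), Finset.sum_const,
          Finset.card_univ, nsmul_eq_mul]
      have hcard4 : 4 ≤ Fintype.card X := by
        have h1 : ({a₀, ng a₀, b₀, ng b₀} : Finset X).card = 4 := by
          have h2 : a₀ ≠ ng b₀ := fun h => h0' (by rw [h, hng])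
          have h3 : ng a₀ ≠ ng b₀ := fun h => h0 (by rw [← hng b₀, ← h, hng])
          rw [Finset.card_insert_of_notMem, Finset.card_insert_of_notMem,
            Finset.card_insert_of_notMem, Finset.card_singleton]
          · simp [(hne b₀).symm]
          · simp [Ne.symm h0', h3]
          · simp [(hne a₀).symm, Ne.symm h0, h2]
        rw [← h1]
        exact Finset.card_le_univ _
      have hrow : 2 * p a₀ a₀ ^ 2 + (Fintype.card X - 2) * p a₀ b₀ ^ 2 = p a₀ a₀ := by
        have h1 := H.sum_sq a₀
        have hm : ng a₀ ∈ Finset.univ.erase a₀ := Finset.mem_erase.mpr ⟨hne a₀, Finset.mem_univ _⟩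
        rw [← Finset.add_sum_erase _ _ (Finset.mem_univ a₀), ← Finset.add_sum_erase _ _ hm,
          Finset.sum_congr rfl (fun j hj => hoff a₀ j
            (Finset.ne_of_mem_erase (Finset.mem_of_mem_erase hj)) (Finset.ne_of_mem_erase hj)),
          Finset.sum_const, Finset.card_erase_of_mem hm,
          Finset.card_erase_of_mem (Finset.mem_univ a₀), Finset.card_univ, nsmul_eq_mul,
          Nat.cast_sub (by omega), Nat.cast_sub (by omega), Nat.cast_one,
          hanti _ (H.mem a₀) a₀] at h1
        linear_combination h1
      set n := Fintype.card X with hn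
      set r := finrank ℚ E with hr
      have e1 : ((n : ℚ) + 16) * p a₀ a₀ = 9 := by
        have h5 : p a₀ a₀ * (((n : ℚ) + 16) * p a₀ a₀ - 9) = 0 := by
          linear_combination 9 * hrow - ((n : ℚ) - 2) * h9
        rcases mul_eq_zero.mp h5 with h | h
        · exact absurd h (hpos a₀).ne'
        · linarith
      have e2 : (r : ℚ) * (n + 16) = 9 * n := by
        rw [← htrace]; linear_combination (n : ℚ) * e1
      have e3 : r * (n + 16) = 9 * n := by exact_mod_cast e2
      have hr9 : r < 9 := by
        by_contra hcon
        push Not at hcon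
        nlinarith
      have hr0 : 0 < r := by
        rcases Nat.eq_zero_or_pos r with h | h
        · rw [h] at e3; omega
        · exact h
      interval_cases hrr : r
      · omega
      · omega
      · exact hex (by have : n = 8 := by omega
                      rw [this]; simp)
      · omega
      · exact hex (by have : n = 20 := by omega
                      rw [this]; simp)
      · exact hex (by have : n = 32 := by omega
                      rw [this]; simp)
      · exact hex (by have : n = 56 := by omega
                      rw [this]; simp)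
      · -- Gerzon bound
        have hn128 : n = 128 := by omega
        let t : Basis (Fin r) ℚ E := finBasis ℚ E
        let F : Sym2 (Fin r) → (X → ℚ) :=
          Sym2.lift ⟨fun a b => (t a : X → ℚ) * (t b : X → ℚ), fun a b => mul_comm _ _⟩
        let W : Submodule ℚ (X → ℚ) := Submodule.span ℚ (Set.range F)
        have hWr : finrank ℚ W ≤ (r + 1).choose 2 := by
          have h1 := finrank_range_le_card (R := ℚ) F
          rw [Sym2.card, Fintype.card_fin] at h1
          exact h1
        have hrow' : ∀ i, (fun j => p i j ^ 2) ∈ W := by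
          intro i
          have e : p i = ∑ a, (t.repr ⟨p i, H.mem i⟩ a) • (t a : X → ℚ) := by
            have := t.sum_repr ⟨p i, H.mem i⟩
            have h2 := congrArg (Subtype.val) this
            rw [Submodule.coe_sum] at h2
            simp only [Submodule.coe_smul] at h2
            exact h2.symm
          have e2 : (fun j => p i j ^ 2) = ∑ a, ∑ b,
              (t.repr ⟨p i, H.mem i⟩ a * t.repr ⟨p i, H.mem i⟩ b) •
              ((t a : X → ℚ) * (t b : X → ℚ)) := by
            have : (fun j => p i j ^ 2) = p i * p i := by funext j; simp [sq]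
            rw [this]
            refine (congrArg₂ (· * ·) e e).trans ?_
            rw [Finset.sum_mul_sum]
            apply Finset.sum_congr rfl
            intro a _
            apply Finset.sum_congr rfl
            intro b _
            rw [smul_mul_smul_comm]
          rw [e2]
          apply W.sum_mem
          intro a _
          apply W.sum_mem
          intro b _
          apply W.smul_mem
          apply Submodule.subset_span
          exact ⟨s(a, b), rfl⟩
        have hval : ∀ i j, p i j ^ 2 = (if j = i ∨ j = ng i then p a₀ a₀ ^ 2 else p a₀ b₀ ^ 2) := by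
          intro i j
          by_cases h1 : j = i
          · rw [if_pos (Or.inl h1), h1, hdiag]
          · by_cases h2 : j = ng i
            · rw [if_pos (Or.inr h2), h2, hanti _ (H.mem i), neg_sq, hdiag]
            · rw [if_neg (by tauto), hoff i j h1 h2]
        set A := p a₀ a₀ ^ 2 with hA
        set B := p a₀ b₀ ^ 2 with hB
        have hAB : A ≠ B := Ne.symm hcs
        -- the constant function
        have hone : (fun _ : X => (1 : ℚ)) ∈ W := by
          have h1 : ∑ i, (fun j => p i j ^ 2) ∈ W := W.sum_mem fun i _ => hrow' i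
          have h2 : ∑ i, (fun j => p i j ^ 2) = (2 * A + (n - 2) * B) • (fun _ : X => (1 : ℚ)) := by
            funext j
            rw [Finset.sum_apply, Pi.smul_apply, smul_eq_mul, mul_one]
            have hm : ng j ∈ Finset.univ.erase j :=
              Finset.mem_erase.mpr ⟨hne j, Finset.mem_univ _⟩
            have hc : ∀ i ∈ (Finset.univ.erase j).erase (ng j), p i j ^ 2 = B := by
              intro i hi
              rw [hval, if_neg]
              push Not
              refine ⟨(Finset.ne_of_mem_erase (Finset.mem_of_mem_erase hi)).symm, ?_⟩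
              intro h
              apply Finset.ne_of_mem_erase hi
              rw [h, hng]
            rw [← Finset.add_sum_erase _ _ (Finset.mem_univ j), ← Finset.add_sum_erase _ _ hm,
              Finset.sum_congr rfl hc,
              Finset.sum_const, Finset.card_erase_of_mem hm,
              Finset.card_erase_of_mem (Finset.mem_univ j), Finset.card_univ, nsmul_eq_mul,
              Nat.cast_sub (by omega), Nat.cast_sub (by omega), Nat.cast_one, hval, hval,
              if_pos (Or.inl rfl), if_pos (Or.inr (hng j).symm)]
            ring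
          rw [h2] at h1
          have hne' : (2 * A + ((n : ℚ) - 2) * B) ≠ 0 := by
            rw [hrow]; exact (hpos a₀).ne'
          have := W.smul_mem (2 * A + ((n : ℚ) - 2) * B)⁻¹ h1
          rwa [smul_smul, inv_mul_cancel₀ hne', one_smul] at this
        have hpair : ∀ i, (fun j => if j = i ∨ j = ng i then (1 : ℚ) else 0) ∈ W := by
          intro i
          have h1 := W.sub_mem (hrow' i) (W.smul_mem B hone)
          have h2 : (fun j => p i j ^ 2) - B • (fun _ : X => (1 : ℚ)) =
              (A - B) • (fun j => if j = i ∨ j = ng i then (1 : ℚ) else 0) := by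
            funext j
            simp only [Pi.sub_apply, Pi.smul_apply, smul_eq_mul, mul_one, hval]
            split_ifs <;> ring
          rw [h2] at h1
          have := W.smul_mem (A - B)⁻¹ h1
          rwa [smul_smul, inv_mul_cancel₀ (sub_ne_zero.mpr hAB), one_smul] at this
        have heven : ∀ f : X → ℚ, (∀ a, f (ng a) = f a) → f ∈ W := by
          intro f hf
          have h1 : f = (2 : ℚ)⁻¹ • ∑ i, f i • (fun j => if j = i ∨ j = ng i then (1 : ℚ) else 0) := by
            funext j
            rw [Pi.smul_apply, Finset.sum_apply]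
            simp only [Pi.smul_apply, smul_eq_mul]
            have hm : ng j ∈ Finset.univ.erase j :=
              Finset.mem_erase.mpr ⟨hne j, Finset.mem_univ _⟩
            rw [← Finset.add_sum_erase _ _ (Finset.mem_univ j), ← Finset.add_sum_erase _ _ hm]
            have hz : ∑ i ∈ (Finset.univ.erase j).erase (ng j),
                f i * (if j = i ∨ j = ng i then (1 : ℚ) else 0) = 0 := by
              apply Finset.sum_eq_zero
              intro i hi
              rw [if_neg, mul_zero]
              push Not
              refine ⟨(Finset.ne_of_mem_erase (Finset.mem_of_mem_erase hi)).symm, ?_⟩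
              intro h
              apply Finset.ne_of_mem_erase hi
              rw [h, hng]
            rw [hz, if_pos (Or.inl rfl), if_pos (Or.inr (hng j).symm), hf]
            ring
          rw [h1]
          exact W.smul_mem _ (W.sum_mem fun i _ => W.smul_mem _ (hpair i))
        have h5 := finrank_even ng hng hne W heven
        have h6 : (r + 1).choose 2 = 36 := by rw [hrr]; decide
        rw [h6] at hWr
        omega
    · -- two elements
      push Not at hX
      rcases isEmpty_or_nonempty X with hX' | ⟨⟨a₀⟩⟩
      · exact ⟨1, 0, by norm_num, by norm_num, by norm_num, fun a => (hX'.false a).elim,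
          fun a => (hX'.false a).elim⟩
      · refine ⟨p a₀ a₀, 0, hpos a₀, ?_, ?_, ?_, ?_⟩
        · exact (pow_pos (hpos a₀) 2).ne
        · rw [mul_zero]; exact (pow_pos (hpos a₀) 2).ne
        · intro a
          by_cases h : a = a₀
          · rw [h]
          · rw [hX a₀ a h, hnn]
        · intro a b h1 h2
          exact absurd (hX a b h1) h2
  -- the classes
  intro a b a' b' hab hE
  have hself : ∀ x, p x ⬝ᵥ p x = N := fun x => by rw [H.dot, hd]
  have hgen : ∀ x y, y ≠ x → y ≠ ng x → (p x ⬝ᵥ p y) ^ 2 = κ := by
    intro x y h1 h2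
    rw [dotProduct_comm, H.dot]; exact ho x y h1 h2
  have hvec : p a' = p a - p b + p b' := by
    have h1 : ∀ h ∈ E, (p a - p b - (p a' - p b')) ⬝ᵥ h = 0 := by
      intro h hh
      rw [sub_dotProduct, sub_dotProduct, sub_dotProduct, H.rep _ h hh, H.rep _ h hh,
        H.rep _ h hh, H.rep _ h hh, hE h hh, sub_self]
    have h2 := h1 _ (E.sub_mem (E.sub_mem (H.mem a) (H.mem b)) (E.sub_mem (H.mem a') (H.mem b')))
    rw [dotProduct_self_eq_zero, sub_eq_zero] at h2
    rw [h2]; abel
  have hGne : p a ⬝ᵥ p b ≠ N := by
    intro h
    by_cases h1 : b = ng a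
    · rw [h1, hpn, dotProduct_neg, hself] at h
      linarith
    · have h2 := hgen a b (Ne.symm hab) h1
      rw [h] at h2
      exact hκN h2.symm
  by_cases c1 : a' = a
  · left
    refine ⟨c1, ?_⟩
    rw [c1] at hvec
    apply hpinj
    have : p b' - p b = 0 := by
      have := congrArg (fun f => f - p a) hvec
      simp only [sub_self] at this
      rw [this]; abel
    exact sub_eq_zero.mp this
  by_cases c2 : b' = ng a
  · right
    refine ⟨?_, c2⟩
    rw [c2, hpn] at hvec
    apply hpinj
    rw [hpn, hvec]; abel
  by_cases c3 : a' = ng a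
  · exfalso
    rw [c3, hpn] at hvec
    have h1 : p b' = p b - (2 : ℚ) • p a := by
      have : p b' = -p a - p a + p b := by rw [hvec]; abel
      rw [this]; module
    have h2 := hself b'
    rw [h1] at h2
    simp only [sub_dotProduct, dotProduct_sub, smul_dotProduct, dotProduct_smul, hself,
      smul_eq_mul, dotProduct_comm (p b) (p a)] at h2
    apply hGne
    linarith
  by_cases c4 : b' = a
  · exfalso
    rw [c4] at hvec
    have h1 : p a' = (2 : ℚ) • p a - p b := by rw [hvec]; module
    have h2 := hself a'
    rw [h1] at h2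
    simp only [sub_dotProduct, dotProduct_sub, smul_dotProduct, dotProduct_smul, hself,
      smul_eq_mul, dotProduct_comm (p b) (p a)] at h2
    apply hGne
    linarith
  exfalso
  have x1 := hgen a a' c1 c3
  have y1 := hgen a b' c4 c2
  have hrel : p a ⬝ᵥ p a' = N - p a ⬝ᵥ p b + p a ⬝ᵥ p b' := by
    rw [hvec, dotProduct_add, dotProduct_sub, hself]
  set x := p a ⬝ᵥ p a' with hx
  set y := p a ⬝ᵥ p b' with hy
  set z := p a ⬝ᵥ p b with hz
  have hxy : (x - y) * (x + y) = 0 := by linear_combination x1 - y1
  rcases mul_eq_zero.mp hxy with h | h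
  · apply hGne; linarith
  · by_cases c5 : b = ng a
    · have hzN : z = -N := by rw [hz, c5, hpn, dotProduct_neg, hself]
      have : x = N := by linarith
      rw [this] at x1
      exact hκN x1.symm
    · have z1 := hgen a b (Ne.symm hab) c5
      rw [← hz] at z1
      have hxz : (x - z) * (x + z) = 0 := by linear_combination x1 - z1
      rcases mul_eq_zero.mp hxz with h' | h'
      · have : 3 * x = N := by linarith
        apply h9
        rw [← x1, ← this]; ring
      · have : x = N := by linarith
        rw [this] at x1
        exact hκN x1.symm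

end MTP
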