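import Pool.Agent.Helper98.MT.MaxTorus
import Pool.Agent.Helper27.AO.Profile
import Pool.Agent.Helper21.MT.Sp

/-!
Every cut of the spectrum of a rational semisimple element of `L` is crossed by a homogeneous square
zero element of `L`; the Newton polygon criterion.
-/

open Module

namespace MTP

variable {K : Type*} [Field K] {V : Type*} [AddCommGroup V] [Module K V] [FiniteDimensional K V]
variable {ω : LinearMap.BilinForm K V} {L : Submodule K (Module.End K V)}
  {S : Set (Module.End K V)}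

section
variable [CharZero K]

omit [FiniteDimensional K V] in
/-- Eigenspaces in an eigenbasis. -/
lemma mem_range_of_eigen {I : Type*} [Fintype I] [DecidableEq I] (b : Basis I K V) {χ : I → ℚ}
    {h : Module.End K V} (hh : ∀ i, h (b i) = (χ i : K) • b i) {c : ℚ}
    (hc : Module.End.eigenspace h (c : K) ≠ ⊥) : ∃ i, χ i = c := by
  obtain ⟨v, hv, hv0⟩ := (Submodule.ne_bot_iff _).mp hc
  rw [Module.End.mem_eigenspace_iff] at hv
  by_contra hcon
  push Not at hcon
  apply hv0
  apply b.repr.injective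
  rw [map_zero]
  ext i
  rw [Finsupp.zero_apply]
  have h1 : b.repr (h v) i = (χ i : K) * b.repr v i := by
    rw [← b.sum_repr v, map_sum, map_sum, Finsupp.finsetSum_apply, b.sum_repr]
    rw [Finset.sum_eq_single i]
    · rw [map_smul, hh, map_smul, map_smul, Basis.repr_self, Finsupp.smul_apply,
        Finsupp.smul_apply, Finsupp.single_eq_same, smul_eq_mul, smul_eq_mul, mul_one, mul_comm]
    · intro j _ hj
      rw [map_smul, hh, map_smul, map_smul, Basis.repr_self, Finsupp.smul_apply,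
        Finsupp.smul_apply, Finsupp.single_apply, if_neg hj, smul_zero, smul_zero]
    · simp
  rw [hv, map_smul, Finsupp.smul_apply, smul_eq_mul] at h1
  have h2 : ((c - χ i : ℚ) : K) * b.repr v i = 0 := by
    push_cast
    linear_combination h1
  rcases mul_eq_zero.mp h2 with h3 | h3
  · exfalso
    apply hcon i
    have : c - χ i = 0 := by exact_mod_cast h3
    linarith
  · exact h3

/-- **Crossing a cut.** -/
theorem Ctx.exists_crossing_sq [IsAlgClosed K] (hC : Ctx ω L S) {h : Module.End K V} (hhL : h ∈ L)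
    (hd : RSD {h}) (A : Set ℚ) (hA : ∃ a ∈ A, Module.End.eigenspace h (a : K) ≠ ⊥)
    (hA' : ∃ a, a ∉ A ∧ Module.End.eigenspace h (a : K) ≠ ⊥) :
    ∃ a a' : ℚ, a ∈ A ∧ a' ∉ A ∧ Module.End.eigenspace h (a : K) ≠ ⊥ ∧
      Module.End.eigenspace h (a' : K) ≠ ⊥ ∧ ∃ x ∈ L, x ≠ 0 ∧ x * x = 0 ∧
      h * x - x * h = ((a' - a : ℚ) : K) • x ∧
      ∃ r : ℚ → ℕ, (∀ c, r c + r (c - (a' - a)) ≤ finrank K (Module.End.eigenspace h (c : K))) ∧
        rk x ≤ ∑ᶠ c, r c := by
  classical
  obtain ⟨b, hb⟩ := hd.basis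
  obtain ⟨χ, hχ⟩ := hb h rfl
  obtain ⟨a₁, ha₁, he₁⟩ := hA
  obtain ⟨a₂, ha₂, he₂⟩ := hA'
  obtain ⟨i₁, hi₁⟩ := mem_range_of_eigen b hχ he₁
  obtain ⟨i₂, hi₂⟩ := mem_range_of_eigen b hχ he₂
  obtain ⟨z, hz, i, j, hij, hjA, hiA⟩ := exists_crossing hC.irr b χ A ⟨i₁, by rw [hi₁]; exact ha₁⟩
    ⟨i₂, by rw [hi₂]; exact ha₂⟩
  have heig : ∀ i, Module.End.eigenspace h (χ i : K) ≠ ⊥ := by
    intro i
    rw [Submodule.ne_bot_iff]
    exact ⟨b i, Module.End.mem_eigenspace_iff.mpr (hχ i), b.ne_zero i⟩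
  have hbr : ∀ z ∈ L, h * z - z * h ∈ L := fun z hz => hC.irr.br h hhL z hz
  set c := χ i - χ j with hc
  have hc0 : c ≠ 0 := by
    intro h0
    rw [hc, sub_eq_zero] at h0
    exact hiA (by rw [h0]; exact hjA)
  obtain ⟨y, hy, hye⟩ := exists_comp b hχ hbr hz c
  have hy0 : y ≠ 0 := by
    rintro rfl
    have h1 := hye i j
    rw [if_pos hc.symm] at h1
    apply hij
    rw [← h1]; simp [en]
  have hyc : h * y - y * h = (c : K) • y := by
    apply hom_comm b hχ
    intro i' j' h'
    rw [hye] at h'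
    by_contra hcon
    exact h' (if_neg hcon)
  -- an involution commuting with `h` but not with `y`
  obtain ⟨J, hJ, hJc, hJh⟩ := hC.torus_span (A := {h}) (by rintro z rfl; exact hhL) hd
  obtain ⟨s, hs, hsy⟩ : ∃ s ∈ J, s * y ≠ y * s := by
    by_contra hcon
    push Not at hcon
    have h1 : ∀ w ∈ Submodule.span K J, w * y = y * w := by
      intro w hw
      induction hw using Submodule.span_induction with
      | zero => simp
      | add a b _ _ ha hb => rw [add_mul, mul_add, ha, hb]
      | smul k a _ ha => rw [smul_mul_assoc, mul_smul_comm, ha]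
      | mem a ha => exact hcon a ha
    have h2 := h1 h (hJh h rfl)
    rw [h2, sub_self] at hyc
    rcases smul_eq_zero.mp hyc.symm with h3 | h3
    · exact hc0 (by exact_mod_cast h3)
    · exact hy0 h3
  obtain ⟨hsL, hss⟩ := hJ s hs
  have hsh : s * h = h * s := hJc s hs h (Or.inr rfl)
  have hph : pp s * h = h * pp s := by
    unfold pp; rw [smul_mul_assoc, mul_smul_comm, add_mul, mul_add, hsh, one_mul, mul_one]
  have hqh : qq s * h = h * qq s := by
    unfold qq; rw [smul_mul_assoc, mul_smul_comm, sub_mul, mul_sub, hsh, one_mul, mul_one]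
  obtain ⟨m1, m2, _⟩ := comps_mem hss (M := L) (fun x hx => hC.irr.br s hsL x hx) hy
  -- choose the nonzero component
  obtain ⟨x, hx, hx0, hxx, hxc⟩ : ∃ x ∈ L, x ≠ 0 ∧ x * x = 0 ∧ h * x - x * h = (c : K) • x := by
    by_cases h1 : pp s * y * qq s = 0
    · refine ⟨qq s * y * pp s, m2, ?_, ?_, ?_⟩
      · intro h2
        apply hsy
        have e1 : s * y - y * s = 2 • (pp s * y * qq s) - 2 • (qq s * y * pp s) := by
          have : s * y - y * s = (pp s - qq s) * y * (pp s + qq s)
              - (pp s + qq s) * y * (pp s - qq s) := by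
            rw [pp_sub_qq, pp_add_qq]; simp
          rw [this]; noncomm_ring
        rw [h1, h2, smul_zero, sub_zero, sub_eq_zero] at e1
        exact e1
      · calc qq s * y * pp s * (qq s * y * pp s) = qq s * y * (pp s * qq s) * y * pp s := by
              noncomm_ring
          _ = 0 := by rw [pp_mul_qq hss]; simp
      · calc h * (qq s * y * pp s) - qq s * y * pp s * h
            = (h * qq s) * y * pp s - qq s * y * (pp s * h) := by noncomm_ring
          _ = qq s * (h * y - y * h) * pp s := by rw [hph, ← hqh]; noncomm_ring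
          _ = _ := by rw [hyc, mul_smul_comm, smul_mul_assoc]
    · refine ⟨pp s * y * qq s, m1, h1, ?_, ?_⟩
      · calc pp s * y * qq s * (pp s * y * qq s) = pp s * y * (qq s * pp s) * y * qq s := by
              noncomm_ring
          _ = 0 := by rw [qq_mul_pp hss]; simp
      · calc h * (pp s * y * qq s) - pp s * y * qq s * h
            = (h * pp s) * y * qq s - pp s * y * (qq s * h) := by noncomm_ring
          _ = pp s * (h * y - y * h) * qq s := by rw [hqh, ← hph]; noncomm_ring
          _ = _ := by rw [hyc, mul_smul_comm, smul_mul_assoc]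
  have hxe : ∀ i j, en b x i j ≠ 0 → χ i - χ j = c := by
    intro i' j' h'
    have h1 := en_comm b hχ x i' j'
    rw [hxc] at h1
    have h2 : en b ((c : K) • x) i' j' = (c : K) * en b x i' j' := by simp [en]
    rw [h2] at h1
    have h3 : (c : K) = ((χ i' - χ j' : ℚ) : K) := mul_right_cancel₀ h' h1
    have : c = χ i' - χ j' := by exact_mod_cast h3
    exact this.symm
  obtain ⟨r, hr, hrk⟩ := profile b χ hχ hxe hxx
  refine ⟨χ j, χ i, hjA, hiA, heig j, heig i, x, hx, hx0, hxx, hxc, r, hr, ?_⟩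
  rw [finsum_eq_sum_of_support_subset (s := Finset.univ.image χ)]
  · exact hrk
  · intro a ha
    rw [Function.mem_support] at ha
    have h1 := hr a
    have h2 : Module.End.eigenspace h (a : K) ≠ ⊥ := by
      intro h3
      rw [h3, finrank_bot] at h1
      omega
    obtain ⟨i', hi'⟩ := mem_range_of_eigen b hχ h2
    exact Finset.mem_coe.mpr (Finset.mem_image.mpr ⟨i', Finset.mem_univ _, hi'⟩)

/-- **Newton polygon criterion.** -/
theorem Ctx.newton [IsAlgClosed K] (hC : Ctx ω L S) (halt : ω.IsAlt) {h : Module.End K V}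
    (hhL : h ∈ L) (hd : RSD {h}) (A : Set ℚ)
    (hA : ∃ a ∈ A, Module.End.eigenspace h (a : K) ≠ ⊥)
    (hA' : ∃ a, a ∉ A ∧ Module.End.eigenspace h (a : K) ≠ ⊥)
    (hN : ∀ a a' : ℚ, a ∈ A → a' ∉ A → Module.End.eigenspace h (a : K) ≠ ⊥ →
      Module.End.eigenspace h (a' : K) ≠ ⊥ → ∀ r : ℚ → ℕ,
      (∀ c, r c + r (c - (a' - a)) ≤ finrank K (Module.End.eigenspace h (c : K))) →
      ∑ᶠ c, r c ≤ 3) {z : Module.End K V} (hz : IsSk ω z) : z ∈ L := by
  obtain ⟨a, a', ha, ha', he, he', x, hx, hx0, hxx, _, r, hr, hrk⟩ :=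
    hC.exists_crossing_sq hhL hd A hA hA'
  have h1 := hN a a' ha ha' he he' r hr
  have h2 : 0 < rk x := rk_pos.mpr hx0
  by_cases h3 : rk x = 3
  · exact hC.eq_sp_of_odd halt hx hxx (by rw [h3]; decide) hz
  · exact hC.eq_sp_of_rank_le_two halt hx hx0 hxx (by omega) hz

end

end MTP
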