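import Pool.Agent.Helper98.MT.Grade

/-!
Moving an involution into a parabolic subalgebra by trace duality (an idea of helper27).
-/

open Module Polynomial

namespace MTP

variable {K : Type*} [Field K] {V : Type*} [AddCommGroup V] [Module K V] [FiniteDimensional K V]
variable {ω : LinearMap.BilinForm K V} {L : Submodule K (Module.End K V)}
  {S : Set (Module.End K V)} {I : Type*} [Fintype I] [DecidableEq I]

omit [FiniteDimensional K V] in
lemma trace_en (b : Basis I K V) (y z : Module.End K V) :
    LinearMap.trace K V (y * z) = ∑ i, ∑ j, en b y i j * en b z j i := by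
  rw [LinearMap.trace_eq_matrix_trace K b]
  change ∑ i, en b (y * z) i i = _
  exact Finset.sum_congr rfl fun i _ => en_mul b y z i i

/-- Strictly triangular operators are nilpotent. -/
lemma nilpotent_of_strict (b : Basis I K V) {χ : I → ℚ} {y : Module.End K V}
    (hy : ∀ i j, en b y i j ≠ 0 → χ j < χ i) : y ^ Fintype.card I = 0 := by
  classical
  have key : ∀ k : ℕ, ∀ i j, en b (y ^ k) i j ≠ 0 →
      k ≤ (Finset.univ.filter fun a => χ a < χ i).card := by
    intro k
    induction k with
    | zero => intro i j _; exact Nat.zero_le _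
    | succ k ih =>
      intro i j hij
      rw [pow_succ', en_mul] at hij
      obtain ⟨l, _, hl⟩ := Finset.exists_ne_zero_of_sum_ne_zero hij
      have h1 : en b y i l ≠ 0 := left_ne_zero_of_mul hl
      have h2 : en b (y ^ k) l j ≠ 0 := right_ne_zero_of_mul hl
      have h3 := ih l j h2
      have h4 := hy i l h1
      have h5 : (Finset.univ.filter fun a => χ a < χ l) ⊂ (Finset.univ.filter fun a => χ a < χ i) := by
        rw [Finset.ssubset_iff_of_subset]
        · exact ⟨l, by simp [h4], by simp⟩
        · intro a ha
          simp only [Finset.mem_filter, Finset.mem_univ, true_and] at ha ⊢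
          exact ha.trans h4
      have h6 := Finset.card_lt_card h5
      omega
  apply en_ext b
  intro i j
  have e0 : en b (0 : Module.End K V) i j = 0 := by simp [en]
  rw [e0]
  by_contra hcon
  have h1 := key _ i j hcon
  have h2 : (Finset.univ.filter fun a => χ a < χ i) ⊂ Finset.univ := by
    rw [Finset.ssubset_iff_of_subset (Finset.filter_subset _ _)]
    exact ⟨i, Finset.mem_univ _, by simp⟩
  have h3 := Finset.card_lt_card h2
  rw [Finset.card_univ] at h3
  omega

section
variable [CharZero K]

/-- Trace zero for a nilpotent operator stabilising the `+1` space of an involution. -/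
lemma trace_block {s y : Module.End K V} (hs : s * s = 1) {N : ℕ} (hN : y ^ N = 0)
    (h : qq s * y * pp s = 0) : LinearMap.trace K V (y * s) = 0 := by
  have e1 : y * pp s = pp s * y * pp s := by
    calc y * pp s = (pp s + qq s) * y * pp s := by rw [pp_add_qq, one_mul]
      _ = pp s * y * pp s + qq s * y * pp s := by noncomm_ring
      _ = _ := by rw [h, add_zero]
  have e2 : qq s * y = qq s * y * qq s := by
    calc qq s * y = qq s * y * (pp s + qq s) := by rw [pp_add_qq, mul_one]
      _ = qq s * y * pp s + qq s * y * qq s := by noncomm_ring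
      _ = _ := by rw [h, zero_add]
  have k1 : ∀ k : ℕ, (pp s * y * pp s) ^ (k + 1) = y ^ (k + 1) * pp s := by
    intro k
    induction k with
    | zero => rw [zero_add, pow_one, pow_one, e1]
    | succ k ih =>
      have h1 : pp s * (y ^ (k + 1) * pp s) = y ^ (k + 1) * pp s := by
        rw [← ih, pow_succ', ← mul_assoc, ← mul_assoc, ← mul_assoc, pp_mul_pp hs]
      calc (pp s * y * pp s) ^ (k + 1 + 1) = (pp s * y * pp s) * (pp s * y * pp s) ^ (k + 1) := by
            rw [pow_succ']
        _ = (y * pp s) * (y ^ (k + 1) * pp s) := by rw [ih, ← e1]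
        _ = y * (pp s * (y ^ (k + 1) * pp s)) := by rw [mul_assoc]
        _ = y ^ (k + 1 + 1) * pp s := by rw [h1, ← mul_assoc, ← pow_succ']
  have k2 : ∀ k : ℕ, (qq s * y * qq s) ^ (k + 1) = qq s * y ^ (k + 1) := by
    intro k
    induction k with
    | zero => rw [zero_add, pow_one, pow_one]; exact e2.symm
    | succ k ih =>
      have h1 : (qq s * y ^ (k + 1)) * qq s = qq s * y ^ (k + 1) := by
        rw [← ih, pow_succ, mul_assoc, mul_assoc (qq s * y), qq_mul_qq hs]
      calc (qq s * y * qq s) ^ (k + 1 + 1) = (qq s * y * qq s) ^ (k + 1) * (qq s * y * qq s) := by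
            rw [pow_succ]
        _ = (qq s * y ^ (k + 1)) * (qq s * y) := by rw [ih, ← e2]
        _ = ((qq s * y ^ (k + 1)) * qq s) * y := (mul_assoc _ _ _).symm
        _ = qq s * y ^ (k + 1 + 1) := by rw [h1, mul_assoc, ← pow_succ]
  have n1 : IsNilpotent (pp s * y * pp s) := ⟨N + 1, by rw [k1, pow_succ, hN, zero_mul, zero_mul]⟩
  have n2 : IsNilpotent (qq s * y * qq s) := ⟨N + 1, by rw [k2, pow_succ, hN, zero_mul, mul_zero]⟩
  have t1 := (LinearMap.isNilpotent_trace_of_isNilpotent n1).eq_zero
  have t2 := (LinearMap.isNilpotent_trace_of_isNilpotent n2).eq_zero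
  have u1 : LinearMap.trace K V (pp s * y * pp s) = LinearMap.trace K V (y * pp s) := by
    rw [mul_assoc, LinearMap.trace_mul_comm, mul_assoc, pp_mul_pp hs]
  have u2 : LinearMap.trace K V (qq s * y * qq s) = LinearMap.trace K V (y * qq s) := by
    rw [mul_assoc, LinearMap.trace_mul_comm, mul_assoc, qq_mul_qq hs]
  have e3 : y * s = y * pp s - y * qq s := by
    rw [← mul_sub, pp_sub_qq]
  rw [e3, map_sub, ← u1, ← u2, t1, t2, sub_zero]

/-- The `+1` eigenspace does not change when an element of the unipotent radical is added. -/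
lemma add_radical {s n : Module.End K V} (hs : s * s = 1) (h1 : s * n = n) (h2 : n * s = -n) :
    (s + n) * (s + n) = 1 ∧ ∀ v, (s + n) v = v ↔ s v = v := by
  have h3 : n * n = 0 := by
    have e1 : n * n = -(n * n) := by
      calc n * n = n * (s * n) := by rw [h1]
        _ = (n * s) * n := by rw [mul_assoc]
        _ = -(n * n) := by rw [h2, neg_mul]
    have e2 : (2 : K) • (n * n) = 0 := by
      rw [two_smul]; nth_rewrite 2 [e1]; exact add_neg_cancel _
    rcases smul_eq_zero.mp e2 with h | h
    · exact absurd h two_ne_zero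
    · exact h
  constructor
  · rw [add_mul, mul_add, mul_add, hs, h1, h2, h3]; abel
  · intro v
    rw [LinearMap.add_apply]
    constructor
    · intro h
      have e1 : s (s v + n v) = s v := by rw [h]
      have e2 : s (s v) = v := by rw [← Module.End.mul_apply, hs]; rfl
      have e3 : s (n v) = n v := by rw [← Module.End.mul_apply, h1]
      rw [map_add, e2, e3] at e1
      have e4 : (2 : K) • (s v - v) = 0 := by
        have : n v = s v - v := by rw [← e1]; abel
        rw [this] at h
        have h' : s v + (s v - v) - v = 0 := by rw [h, sub_self]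
        rw [← h']; module
      rcases smul_eq_zero.mp e4 with h | h
      · exact absurd h two_ne_zero
      · exact sub_eq_zero.mp h
    · intro h
      have e1 : n v = -(n v) := by
        calc n v = n (s v) := by rw [h]
          _ = (n * s) v := rfl
          _ = -(n v) := by rw [h2]; rfl
      have e2 : (2 : K) • n v = 0 := by
        rw [two_smul]; nth_rewrite 2 [e1]; exact add_neg_cancel _
      rcases smul_eq_zero.mp e2 with h' | h'
      · exact absurd h' two_ne_zero
      · rw [h', add_zero, h]

/-- Functionals on `L` are given by the trace form. -/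
lemma IrrSymp.dual [IsAlgClosed K] (hL : IrrSymp ω L) (hω : ω.Nondegenerate)
    (φ : Module.End K V →ₗ[K] K) : ∃ y ∈ L, ∀ z ∈ L, LinearMap.trace K V (y * z) = φ z := by
  let Φ : L →ₗ[K] Module.Dual K L :=
    { toFun := fun a =>
        { toFun := fun b => LinearMap.trace K V ((a : Module.End K V) * (b : Module.End K V))
          map_add' := by intro b c; simp [mul_add]
          map_smul' := by intro c b; simp }
      map_add' := by intro a b; ext c; simp [add_mul]
      map_smul' := by intro c a; ext b; simp }
  have hinj : Function.Injective Φ := by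
    rw [injective_iff_map_eq_zero]
    intro a ha
    have h1 : (a : Module.End K V) = 0 := by
      apply hL.nondeg hω a.2
      intro y hy
      exact congrArg (fun φ => φ ⟨y, hy⟩) ha
    exact Subtype.ext h1
  have hfin : finrank K L = finrank K (Module.Dual K L) := Subspace.dual_finrank_eq.symm
  have hsurj : Function.Surjective Φ :=
    (LinearMap.injective_iff_surjective_of_finrank_eq_finrank hfin).mp hinj
  obtain ⟨y, hy⟩ := hsurj (φ.comp L.subtype)
  exact ⟨y, y.2, fun z hz => congrArg (fun ψ => ψ ⟨z, hz⟩) hy⟩

/-- An involution of `L` can be moved into the subalgebra of nonnegative degree, without changing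
its `+1` eigenspace; its component of degree zero is again an involution. -/
theorem IrrSymp.exists_upper [IsAlgClosed K] (hL : IrrSymp ω L) (hω : ω.Nondegenerate)
    (b : Basis I K V) {χ : I → ℚ} {h : Module.End K V}
    (hh : ∀ i, h (b i) = (χ i : K) • b i) (hhL : h ∈ L) {s : Module.End K V} (hs : s ∈ L)
    (hss : s * s = 1) :
    ∃ s₁ ∈ L, s₁ * s₁ = 1 ∧ (∀ v, s₁ v = v ↔ s v = v) ∧ (∀ i j, en b s₁ i j ≠ 0 → χ j ≤ χ i) ∧
      ∃ s₂ ∈ L, s₂ * s₂ = 1 ∧ ∀ i j, en b s₂ i j = if χ i = χ j then en b s₁ i j else 0 := by
  have hbr : ∀ z ∈ L, h * z - z * h ∈ L := fun z hz => hL.br h hhL z hz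
  have hbs : ∀ z ∈ L, s * z - z * s ∈ L := fun z hz => hL.br s hs z hz
  let P : Submodule K (Module.End K V) :=
    { carrier := {z | z ∈ L ∧ ∀ i j, en b z i j ≠ 0 → χ j ≤ χ i}
      add_mem' := by
        rintro y z ⟨hy, hy'⟩ ⟨hz, hz'⟩
        refine ⟨L.add_mem hy hz, fun i j hij => ?_⟩
        by_contra hcon
        have h1 : en b y i j = 0 := by by_contra h; exact hcon (hy' i j h)
        have h2 : en b z i j = 0 := by by_contra h; exact hcon (hz' i j h)
        apply hij
        have : en b (y + z) i j = en b y i j + en b z i j := by simp [en]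
        rw [this, h1, h2, add_zero]
      zero_mem' := ⟨L.zero_mem, fun i j hij => absurd (by simp [en]) hij⟩
      smul_mem' := by
        rintro c z ⟨hz, hz'⟩
        refine ⟨L.smul_mem c hz, fun i j hij => hz' i j fun h => hij ?_⟩
        have : en b (c • z) i j = c * en b z i j := by simp [en]
        rw [this, h, mul_zero] }
  let R : Submodule K (Module.End K V) :=
    { carrier := {z | z ∈ L ∧ s * z = z ∧ z * s = -z}
      add_mem' := by
        rintro y z ⟨hy, hy1, hy2⟩ ⟨hz, hz1, hz2⟩
        exact ⟨L.add_mem hy hz, by rw [mul_add, hy1, hz1], by rw [add_mul, hy2, hz2]; abel⟩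
      zero_mem' := ⟨L.zero_mem, by simp, by simp⟩
      smul_mem' := by
        rintro c z ⟨hz, hz1, hz2⟩
        exact ⟨L.smul_mem c hz, by rw [mul_smul_comm, hz1], by rw [smul_mul_assoc, hz2, smul_neg]⟩ }
  have hmem : s ∈ P ⊔ R := by
    by_contra hcon
    obtain ⟨φ, hφ, hφ'⟩ := Submodule.exists_le_ker_of_notMem hcon
    obtain ⟨y, hy, hyφ⟩ := hL.dual hω φ
    have hP : ∀ z ∈ P, LinearMap.trace K V (y * z) = 0 := fun z hz => by
      rw [hyφ z hz.1]; exact hφ' (Submodule.mem_sup_left hz)
    have hR : ∀ z ∈ R, LinearMap.trace K V (y * z) = 0 := fun z hz => by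
      rw [hyφ z hz.1]; exact hφ' (Submodule.mem_sup_right hz)
    -- the block `qq y pp` vanishes
    have h1 : qq s * y * pp s = 0 := by
      apply hL.nondeg hω (comps_mem hss hbs hy).2.1
      intro z hz
      have e1 : LinearMap.trace K V (qq s * y * pp s * z) =
          LinearMap.trace K V (y * (pp s * z * qq s)) := by
        rw [mul_assoc, mul_assoc, LinearMap.trace_mul_comm]
        congr 1
      rw [e1]
      apply hR
      refine ⟨(comps_mem hss hbs hz).1, ?_, ?_⟩
      · have : s * pp s = pp s := by
          unfold pp; rw [mul_smul_comm, mul_add, hss, mul_one, add_comm]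
        rw [← mul_assoc, ← mul_assoc, this]
      · have : qq s * s = -qq s := by
          unfold qq
          rw [smul_mul_assoc, sub_mul, hss, one_mul, ← smul_neg, neg_sub]
        rw [mul_assoc, this, mul_neg]
    -- `y` is strictly triangular
    have h2 : ∀ i j, en b y i j ≠ 0 → χ j < χ i := by
      intro i j hij
      by_contra hcon2
      push Not at hcon2
      set c := χ i - χ j with hc
      obtain ⟨yc, hyc, hyce⟩ := exists_comp b hh hbr hy c
      have h3 : yc = 0 := by
        apply hL.nondeg hω hyc
        intro z hz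
        obtain ⟨zc, hzc, hzce⟩ := exists_comp b hh hbr hz (-c)
        have e1 : LinearMap.trace K V (yc * z) = LinearMap.trace K V (y * zc) := by
          rw [trace_en b, trace_en b]
          apply Finset.sum_congr rfl
          intro i' _
          apply Finset.sum_congr rfl
          intro j' _
          rw [hyce, hzce]
          by_cases hcc : χ i' - χ j' = c
          · rw [if_pos hcc, if_pos (by rw [← hcc]; ring)]
          · rw [if_neg hcc, if_neg (fun h => hcc (by linarith)), zero_mul, mul_zero]
        rw [e1]
        apply hP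
        refine ⟨hzc, fun i' j' h' => ?_⟩
        rw [hzce] at h'
        by_contra hcon3
        push Not at hcon3
        apply h'
        rw [if_neg]
        intro h4
        linarith
      have h4 := hyce i j
      rw [h3, if_pos hc.symm] at h4
      apply hij
      rw [← h4]
      simp [en]
    have h5 := trace_block hss (nilpotent_of_strict b h2) h1
    rw [hyφ s hs] at h5
    exact hφ h5
  obtain ⟨a, ha, m, hm, ham⟩ := Submodule.mem_sup.mp hmem
  have hs₁ : a = s + -m := by rw [← ham]; abel
  obtain ⟨hmL, hm1, hm2⟩ := hm
  obtain ⟨r1, r2⟩ := add_radical (n := -m) hss (by rw [mul_neg, hm1]) (by rw [neg_mul, hm2])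
  rw [← hs₁] at r1 r2
  obtain ⟨s₂, hs₂, hs₂e⟩ := exists_comp b hh hbr ha.1 0
  refine ⟨a, ha.1, r1, r2, ha.2, s₂, hs₂, ?_, ?_⟩
  · apply en_ext b
    intro i k
    rw [en_mul]
    by_cases hik : χ i = χ k
    · rw [← r1, en_mul]
      apply Finset.sum_congr rfl
      intro j _
      rw [hs₂e, hs₂e]
      by_cases h1 : en b a i j = 0
      · simp [h1]
      by_cases h2 : en b a j k = 0
      · simp [h2]
      have h3 := ha.2 _ _ h1
      have h4 := ha.2 _ _ h2
      rw [if_pos (by linarith), if_pos (by linarith)]
    · have hne : i ≠ k := by rintro rfl; exact hik rfl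
      have e1 : en b (1 : Module.End K V) i k = 0 := by simp [en, hne]
      rw [e1]
      apply Finset.sum_eq_zero
      intro j _
      rw [hs₂e, hs₂e]
      by_cases h1 : χ i - χ j = 0
      · by_cases h2 : χ j - χ k = 0
        · exfalso; apply hik; linarith
        · rw [if_neg h2, mul_zero]
      · rw [if_neg h1, zero_mul]
  · intro i j
    rw [hs₂e]
    simp only [sub_eq_zero]

end

end MTP
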