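import Pool.Agent.Helper98.MT.Dual

/-!
Two opposite involutions with the same `+1` eigenspace and the same trace against a diagonal
operator: the eigenspace is stable under the diagonal operator.
-/

open Module

namespace MTP

variable {K : Type*} [Field K] {V : Type*} [AddCommGroup V] [Module K V] [FiniteDimensional K V]
variable {I : Type*} [Fintype I] [DecidableEq I]

/-- Trace of a product of two idempotents, one of which preserves the image of the other. -/
lemma trace_idem {p π : Module.End K V} (hp : p * p = p) (hπ : π * π = π)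
    (h : π * p * π = p * π) :
    LinearMap.trace K V (p * π) =
      (finrank K ((LinearMap.range p ⊓ LinearMap.range π : Submodule K V)) : K) := by
  have hproj : LinearMap.IsProj (LinearMap.range p ⊓ LinearMap.range π) (p * π) := by
    constructor
    · intro v
      refine ⟨⟨π v, rfl⟩, ?_⟩
      rw [← h]
      exact ⟨p (π v), rfl⟩
    · rintro v ⟨⟨a, rfl⟩, ⟨c, hc⟩⟩
      have h1 : π (p a) = p a := by
        rw [← hc, ← Module.End.mul_apply, hπ]
      rw [Module.End.mul_apply, h1, ← Module.End.mul_apply, hp]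
  exact hproj.trace

/-- The projection to the span of the basis vectors with `c ≤ κ i`. -/
noncomputable def pc (b : Basis I K V) (κ : I → ℕ) (c : ℕ) : Module.End K V :=
  b.constr K fun i => if c ≤ κ i then b i else 0

omit [FiniteDimensional K V] in
lemma en_pc (b : Basis I K V) (κ : I → ℕ) (c : ℕ) (i j : I) :
    en b (pc b κ c) i j = if i = j then (if c ≤ κ i then 1 else 0) else 0 := by
  rw [en_eq, pc, Basis.constr_basis]
  by_cases hij : i = j
  · subst hij
    by_cases hc : c ≤ κ i <;> simp [hc]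
  · by_cases hc : c ≤ κ j
    · simp [hc, hij, Finsupp.single_apply, Ne.symm hij]
    · simp [hc, hij]

omit [FiniteDimensional K V] in
lemma en_pc_mul (b : Basis I K V) (κ : I → ℕ) (c : ℕ) (z : Module.End K V) (i j : I) :
    en b (pc b κ c * z) i j = if c ≤ κ i then en b z i j else 0 := by
  rw [en_mul, Finset.sum_eq_single i]
  · rw [en_pc, if_pos rfl]; split_ifs <;> simp
  · intro k _ hk
    rw [en_pc, if_neg (Ne.symm hk), zero_mul]
  · simp

omit [FiniteDimensional K V] in
lemma en_mul_pc (b : Basis I K V) (κ : I → ℕ) (c : ℕ) (z : Module.End K V) (i j : I) :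
    en b (z * pc b κ c) i j = if c ≤ κ j then en b z i j else 0 := by
  rw [en_mul, Finset.sum_eq_single j]
  · rw [en_pc, if_pos rfl]; split_ifs <;> simp
  · intro k _ hk
    rw [en_pc, if_neg hk, mul_zero]
  · simp

omit [FiniteDimensional K V] in
lemma pc_idem (b : Basis I K V) (κ : I → ℕ) (c : ℕ) : pc b κ c * pc b κ c = pc b κ c := by
  apply en_ext b
  intro i j
  rw [en_pc_mul, en_pc]
  split_ifs <;> simp_all

/-- The key statement for natural weights. -/
lemma stable_nat [CharZero K] (b : Basis I K V) (κ : I → ℕ) {p₁ p₂ : Module.End K V}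
    (h1 : p₁ * p₁ = p₁) (h2 : p₂ * p₂ = p₂) (hr : LinearMap.range p₁ = LinearMap.range p₂)
    (hu : ∀ i j, en b p₁ i j ≠ 0 → κ j ≤ κ i) (hl : ∀ i j, en b p₂ i j ≠ 0 → κ i ≤ κ j)
    (ht : ∑ i, (κ i : K) * en b p₁ i i = ∑ i, (κ i : K) * en b p₂ i i)
    {k : Module.End K V} (hk : ∀ i, k (b i) = (κ i : K) • b i) :
    ∀ v ∈ LinearMap.range p₁, k v ∈ LinearMap.range p₁ := by
  set W := LinearMap.range p₁ with hW
  -- traces
  have e1 : ∀ c, pc b κ c * p₁ * pc b κ c = p₁ * pc b κ c := by
    intro c
    apply en_ext b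
    intro i j
    rw [mul_assoc, en_pc_mul, en_mul_pc]
    by_cases hj : c ≤ κ j
    · rw [if_pos hj]
      by_cases h0 : en b p₁ i j = 0
      · rw [h0]; simp
      · rw [if_pos (hj.trans (hu i j h0))]
    · rw [if_neg hj]; simp
  have q1 : ∀ c, (1 - pc b κ c) * (1 - pc b κ c) = 1 - pc b κ c := by
    intro c
    have := pc_idem b κ c
    rw [sub_mul, mul_sub, mul_sub, this]; simp
  have en1 : ∀ i j, en b (1 : Module.End K V) i j = if i = j then 1 else 0 := by
    intro i j
    simp [en, Matrix.one_apply]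
  have esub : ∀ (y z : Module.End K V) i j, en b (y - z) i j = en b y i j - en b z i j := by
    intro y z i j; simp [en]
  have e2 : ∀ c, (1 - pc b κ c) * p₂ * (1 - pc b κ c) = p₂ * (1 - pc b κ c) := by
    intro c
    apply en_ext b
    intro i j
    have a1 : (1 - pc b κ c) * p₂ * (1 - pc b κ c) =
        p₂ * (1 - pc b κ c) - pc b κ c * (p₂ - p₂ * pc b κ c) := by noncomm_ring
    rw [a1, esub, en_pc_mul, esub, en_mul_pc]
    by_cases hj : c ≤ κ j
    · rw [if_pos hj]; simp
    · rw [if_neg hj, sub_zero]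
      by_cases h0 : en b p₂ i j = 0
      · rw [h0]; simp
      · have := hl i j h0
        rw [if_neg (by omega), sub_zero]
  have t1 : ∀ c, LinearMap.trace K V (p₁ * pc b κ c) =
      (finrank K ((W ⊓ LinearMap.range (pc b κ c) : Submodule K V)) : K) :=
    fun c => trace_idem h1 (pc_idem b κ c) (e1 c)
  have t2 : ∀ c, LinearMap.trace K V (p₂ * (1 - pc b κ c)) =
      (finrank K ((W ⊓ LinearMap.range (1 - pc b κ c) : Submodule K V)) : K) := by
    intro c
    rw [hr]
    exact trace_idem h2 (q1 c) (e2 c)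
  have t3 : LinearMap.trace K V p₂ = (finrank K W : K) := by
    have := trace_idem h2 (π := 1) (one_mul 1) (by simp)
    rw [mul_one] at this
    rw [this, hr]
    have h3 : LinearMap.range (1 : Module.End K V) = ⊤ := LinearMap.range_id
    rw [h3, inf_top_eq]
  have hdisj : ∀ c, Disjoint (W ⊓ LinearMap.range (pc b κ c))
      (W ⊓ LinearMap.range (1 - pc b κ c)) := by
    intro c
    rw [Submodule.disjoint_def]
    rintro v ⟨_, ⟨a, ha⟩⟩ ⟨_, ⟨d, hd⟩⟩
    have a1 : pc b κ c v = v := by rw [← ha, ← Module.End.mul_apply, pc_idem]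
    have a2 : pc b κ c v = 0 := by
      rw [← hd, ← Module.End.mul_apply, mul_sub, mul_one, pc_idem, sub_self]; rfl
    rw [← a1, a2]
  have hsum : ∀ c, finrank K ((W ⊓ LinearMap.range (pc b κ c) : Submodule K V)) +
      finrank K ((W ⊓ LinearMap.range (1 - pc b κ c) : Submodule K V)) =
      finrank K ((W ⊓ LinearMap.range (pc b κ c)) ⊔ (W ⊓ LinearMap.range (1 - pc b κ c)) :
        Submodule K V) := by
    intro c
    have := Submodule.finrank_sup_add_finrank_inf_eq (W ⊓ LinearMap.range (pc b κ c))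
      (W ⊓ LinearMap.range (1 - pc b κ c))
    rw [(hdisj c).eq_bot, finrank_bot, add_zero] at this
    exact this.symm
  have hsup : ∀ c, (W ⊓ LinearMap.range (pc b κ c)) ⊔ (W ⊓ LinearMap.range (1 - pc b κ c)) ≤ W :=
    fun c => sup_le inf_le_left inf_le_left
  have hle : ∀ c, finrank K ((W ⊓ LinearMap.range (pc b κ c) : Submodule K V)) +
      finrank K ((W ⊓ LinearMap.range (1 - pc b κ c) : Submodule K V)) ≤ finrank K W := by
    intro c
    rw [hsum c]
    exact Submodule.finrank_mono (hsup c)
  let τ : ℕ → ℕ := fun c => finrank K W -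
    (finrank K ((W ⊓ LinearMap.range (pc b κ c) : Submodule K V)) +
      finrank K ((W ⊓ LinearMap.range (1 - pc b κ c) : Submodule K V)))
  have hτ : ∀ c, LinearMap.trace K V (p₂ * pc b κ c) - LinearMap.trace K V (p₁ * pc b κ c) =
      (τ c : K) := by
    intro c
    have a1 : LinearMap.trace K V (p₂ * pc b κ c) =
        LinearMap.trace K V p₂ - LinearMap.trace K V (p₂ * (1 - pc b κ c)) := by
      rw [← map_sub]; congr 1; noncomm_ring
    rw [a1, t1, t2, t3]
    simp only [τ]
    rw [Nat.cast_sub (hle c), Nat.cast_add]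
    ring
  -- traces as sums
  have htr : ∀ (z : Module.End K V) c, LinearMap.trace K V (z * pc b κ c) =
      ∑ i, if c ≤ κ i then en b z i i else 0 := by
    intro z c
    rw [LinearMap.trace_eq_matrix_trace K b]
    exact Finset.sum_congr rfl fun i _ => en_mul_pc b κ c z i i
  obtain ⟨N, hN⟩ : ∃ N, ∀ i, κ i ≤ N := ⟨Finset.univ.sup κ, fun i => Finset.le_sup (Finset.mem_univ i)⟩
  have hκ : ∀ i, (κ i : K) = ∑ c ∈ Finset.range N, if c + 1 ≤ κ i then (1 : K) else 0 := by
    intro i
    rw [Finset.sum_ite, Finset.sum_const_zero, add_zero, Finset.sum_const, nsmul_eq_mul, mul_one]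
    congr 1
    have : Finset.filter (fun c => c + 1 ≤ κ i) (Finset.range N) = Finset.range (κ i) := by
      ext c
      simp only [Finset.mem_filter, Finset.mem_range]
      have := hN i
      omega
    rw [this, Finset.card_range]
  have hsw : ∀ z : Module.End K V, ∑ i, (κ i : K) * en b z i i =
      ∑ c ∈ Finset.range N, LinearMap.trace K V (z * pc b κ (c + 1)) := by
    intro z
    simp only [htr]
    rw [Finset.sum_comm]
    apply Finset.sum_congr rfl
    intro i _
    rw [hκ i, Finset.sum_mul]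
    apply Finset.sum_congr rfl
    intro c _
    split_ifs <;> simp
  have h0 : ∑ c ∈ Finset.range N, (τ (c + 1) : K) = 0 := by
    rw [← Finset.sum_congr rfl (fun c _ => hτ (c + 1)), Finset.sum_sub_distrib, ← hsw, ← hsw, ht,
      sub_self]
  have h0' : ∑ c ∈ Finset.range N, τ (c + 1) = 0 := by exact_mod_cast h0
  have hτ0 : ∀ c < N, τ (c + 1) = 0 := by
    intro c hc
    exact Finset.sum_eq_zero_iff.mp h0' c (Finset.mem_range.mpr hc)
  -- stability under the projections
  have hst : ∀ c < N, ∀ v ∈ W, pc b κ (c + 1) v ∈ W := by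
    intro c hc v hv
    have a1 : (W ⊓ LinearMap.range (pc b κ (c + 1))) ⊔ (W ⊓ LinearMap.range (1 - pc b κ (c + 1)))
        = W := by
      apply Submodule.eq_of_le_of_finrank_le (hsup _)
      rw [← hsum]
      have := hτ0 c hc
      simp only [τ] at this
      omega
    rw [← a1] at hv
    obtain ⟨x, ⟨hx, ⟨x', hx'⟩⟩, y, ⟨hy, ⟨y', hy'⟩⟩, rfl⟩ := Submodule.mem_sup.mp hv
    have b1 : pc b κ (c + 1) x = x := by rw [← hx', ← Module.End.mul_apply, pc_idem]
    have b2 : pc b κ (c + 1) y = 0 := by
      rw [← hy', ← Module.End.mul_apply, mul_sub, mul_one, pc_idem, sub_self]; rfl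
    rw [map_add, b1, b2, add_zero]
    exact hx
  have hksum : k = ∑ c ∈ Finset.range N, pc b κ (c + 1) := by
    apply b.ext
    intro i
    rw [hk, LinearMap.sum_apply, hκ i, Finset.sum_smul]
    apply Finset.sum_congr rfl
    intro c _
    rw [pc, Basis.constr_basis]
    split_ifs <;> simp
  intro v hv
  rw [hksum, LinearMap.sum_apply]
  exact W.sum_mem fun c hc => hst c (Finset.mem_range.mp hc) v hv

/-- Clearing denominators of finitely many rational weights. -/
lemma exists_nat_weights (χ : I → ℚ) : ∃ (M : ℕ) (a : ℤ) (κ : I → ℕ), M ≠ 0 ∧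
    (∀ i, (M : ℚ) * χ i = κ i + a) := by
  classical
  let M : ℕ := ∏ i, (χ i).den
  have hM : M ≠ 0 := Finset.prod_ne_zero_iff.mpr fun i _ => (χ i).den_nz
  have hint : ∀ i, ∃ z : ℤ, (M : ℚ) * χ i = z := by
    intro i
    obtain ⟨m, hm⟩ : (χ i).den ∣ M := Finset.dvd_prod_of_mem _ (Finset.mem_univ i)
    refine ⟨m * (χ i).num, ?_⟩
    rw [hm]
    push_cast
    have := Rat.den_mul_eq_num (χ i)
    rw [mul_comm ((χ i).den : ℚ) (m : ℚ), mul_assoc, this]
  choose z hz using hint
  obtain ⟨a, ha⟩ : ∃ a : ℤ, ∀ i, a ≤ z i := by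
    rcases isEmpty_or_nonempty I with h | h
    · exact ⟨0, fun i => (h.false i).elim⟩
    · exact ⟨Finset.univ.inf' Finset.univ_nonempty z, fun i => Finset.inf'_le _ (Finset.mem_univ i)⟩
  refine ⟨M, a, fun i => (z i - a).toNat, hM, fun i => ?_⟩
  rw [hz i]
  have h1 : ((z i - a).toNat : ℤ) = z i - a := Int.toNat_of_nonneg (by linarith [ha i])
  have h2 : (((z i - a).toNat : ℕ) : ℚ) = (z i : ℚ) - a := by
    have := congrArg (fun n : ℤ => (n : ℚ)) h1
    push_cast at this
    exact this
  rw [h2]; ring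

/-- **Filtration lemma.** -/
theorem stable_of_traces [CharZero K] (b : Basis I K V) {χ : I → ℚ} {h s₁ s₂ : Module.End K V}
    (hh : ∀ i, h (b i) = (χ i : K) • b i)
    (h1 : s₁ * s₁ = 1) (h2 : s₂ * s₂ = 1) (hv : ∀ v, s₁ v = v ↔ s₂ v = v)
    (hu : ∀ i j, en b s₁ i j ≠ 0 → χ j ≤ χ i) (hl : ∀ i j, en b s₂ i j ≠ 0 → χ i ≤ χ j)
    (ht1 : ∑ i, (χ i : K) * en b s₁ i i = 0) (ht2 : ∑ i, (χ i : K) * en b s₂ i i = 0) :
    ∀ v, s₁ v = v → s₁ (h v) = h v := by
  obtain ⟨M, a, κ, hM, hκ⟩ := exists_nat_weights χ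
  have hMq : (0 : ℚ) < M := by
    have := Nat.pos_of_ne_zero hM
    exact_mod_cast this
  have hMK : (M : K) ≠ 0 := by exact_mod_cast hM
  have hord : ∀ i j, χ j ≤ χ i → κ j ≤ κ i := by
    intro i j hij
    have e1 := hκ i
    have e2 := hκ j
    have : (M : ℚ) * χ j ≤ M * χ i := mul_le_mul_of_nonneg_left hij hMq.le
    rw [e1, e2] at this
    have : (κ j : ℚ) ≤ κ i := by linarith
    exact_mod_cast this
  have hrange : ∀ s : Module.End K V, s * s = 1 → ∀ v, v ∈ LinearMap.range (pp s) ↔ s v = v := by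
    intro s hs v
    have e1 : s * pp s = pp s := by
      unfold pp; rw [mul_smul_comm, mul_add, hs, mul_one, add_comm]
    constructor
    · rintro ⟨w, rfl⟩
      rw [← Module.End.mul_apply, e1]
    · intro h
      refine ⟨v, ?_⟩
      unfold pp
      rw [LinearMap.smul_apply, LinearMap.add_apply, Module.End.one_apply, h, ← two_smul K v,
        smul_smul, inv_mul_cancel₀ two_ne_zero, one_smul]
  have enpp : ∀ (s : Module.End K V) i j, en b (pp s) i j =
      (2 : K)⁻¹ * ((if i = j then 1 else 0) + en b s i j) := by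
    intro s i j
    simp only [en, pp, map_smul, map_add, map_one, Matrix.smul_apply, Matrix.add_apply,
      Matrix.one_apply, smul_eq_mul]
  have hsumκ : ∀ s : Module.End K V, ∑ i, (χ i : K) * en b s i i = 0 →
      ∑ i, (κ i : K) * en b (pp s) i i = (2 : K)⁻¹ * ((M : K) * ∑ i, (χ i : K)
        - a * LinearMap.trace K V (1 + s)) := by
    intro s hs
    have e0 : ∀ i, (κ i : K) = M * (χ i : K) - a := by
      intro i
      have := congrArg (fun q : ℚ => (q : K)) (hκ i)
      push_cast at this
      rw [this]; ring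
    have e1 : LinearMap.trace K V (1 + s) = ∑ i, (1 + en b s i i) := by
      rw [LinearMap.trace_eq_matrix_trace K b]
      apply Finset.sum_congr rfl
      intro i _
      change en b (1 + s) i i = _
      simp [en]
    rw [e1]
    have e2 : ∀ i, (κ i : K) * en b (pp s) i i = (2 : K)⁻¹ * (M * (χ i : K)) +
        (2 : K)⁻¹ * (M * ((χ i : K) * en b s i i)) - (2 : K)⁻¹ * (a * (1 + en b s i i)) := by
      intro i
      rw [enpp, if_pos rfl, e0]
      ring
    rw [Finset.sum_congr rfl (fun i _ => e2 i), Finset.sum_sub_distrib, Finset.sum_add_distrib,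
      ← Finset.mul_sum, ← Finset.mul_sum, ← Finset.mul_sum, ← Finset.mul_sum, ← Finset.mul_sum,
      ← Finset.mul_sum, hs]
    ring
  have hrr : LinearMap.range (pp s₁) = LinearMap.range (pp s₂) := by
    ext v
    rw [hrange s₁ h1, hrange s₂ h2]
    exact hv v
  have htrace : LinearMap.trace K V (1 + s₁) = LinearMap.trace K V (1 + s₂) := by
    have e : ∀ s : Module.End K V, s * s = 1 → LinearMap.trace K V (1 + s) =
        2 * (finrank K (LinearMap.range (pp s)) : K) := by
      intro s hs
      have h3 := trace_idem (pp_mul_pp hs) (π := 1) (one_mul 1) (by simp)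
      have h4 : LinearMap.range (1 : Module.End K V) = ⊤ := LinearMap.range_id
      rw [mul_one, h4, inf_top_eq] at h3
      rw [← h3]
      unfold pp
      rw [map_smul, smul_eq_mul, ← mul_assoc, mul_inv_cancel₀ two_ne_zero, one_mul]
    rw [e s₁ h1, e s₂ h2, hrr]
  let k : Module.End K V := b.constr K fun i => (κ i : K) • b i
  have hk : ∀ i, k (b i) = (κ i : K) • b i := fun i => b.constr_basis K _ i
  have key := stable_nat b κ (pp_mul_pp h1) (pp_mul_pp h2) hrr
    (by
      intro i j hij
      rw [enpp] at hij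
      by_cases hij2 : i = j
      · rw [hij2]
      · rw [if_neg hij2, zero_add] at hij
        exact hord i j (hu i j (right_ne_zero_of_mul hij)))
    (by
      intro i j hij
      rw [enpp] at hij
      by_cases hij2 : i = j
      · rw [hij2]
      · rw [if_neg hij2, zero_add] at hij
        exact hord j i (hl i j (right_ne_zero_of_mul hij)))
    (by rw [hsumκ s₁ ht1, hsumκ s₂ ht2, htrace]) hk
  have hhk : h = (M : K)⁻¹ • (k + (a : K) • (1 : Module.End K V)) := by
    apply b.ext
    intro i
    rw [hh, LinearMap.smul_apply, LinearMap.add_apply, hk, LinearMap.smul_apply,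
      Module.End.one_apply, ← add_smul, smul_smul]
    congr 1
    have := congrArg (fun q : ℚ => (q : K)) (hκ i)
    push_cast at this
    rw [← this, ← mul_assoc, inv_mul_cancel₀ hMK, one_mul]
  intro v hv'
  have hvr : v ∈ LinearMap.range (pp s₁) := (hrange s₁ h1 v).mpr hv'
  have hkv := key v hvr
  rw [← hrange s₁ h1, hhk, LinearMap.smul_apply, LinearMap.add_apply, LinearMap.smul_apply,
    Module.End.one_apply]
  exact Submodule.smul_mem _ _ (Submodule.add_mem _ hkv (Submodule.smul_mem _ _ hvr))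

end MTP
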