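import Pool.Agent.Helper21.MT.Grp

/-!
Closed groups generated by cocharacters of weights zero and one, inside a product of groups of
symplectic similitudes: the Lie algebra generated by the corresponding involutions (variant of
`Helper21/MT/Grp.lean` by helper21 without the hypothesis on unipotent elements).
-/

open Module

namespace MTP


variable {K : Type*} [Field K] {ι : Type*} [Fintype ι] [DecidableEq ι] {W : ι → Type*}
  [∀ j, AddCommGroup (W j)] [∀ j, Module K (W j)] [∀ j, FiniteDimensional K (W j)]
  {σ : Type*} [Fintype σ]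

/-- The hypotheses of the group theorem, in abstract form. -/
structure GrpCore (ω : ∀ j, LinearMap.BilinForm K (W j))
    (b : Basis σ K (∀ j, Module.End K (W j))) (G : Set (∀ j, Module.End K (W j))) : Prop where
  nd : ∀ j, (ω j).Nondegenerate
  alt : ∀ j, (ω j).IsAlt
  one : 1 ∈ G
  mul : ∀ g ∈ G, ∀ h ∈ G, g * h ∈ G
  inv : ∀ g ∈ G, ∃ h ∈ G, g * h = 1 ∧ h * g = 1
  closed : ∀ g h, g * h = 1 →
    (∀ p : MvPolynomial σ K, (∀ x ∈ G, ev b x p = 0) → ev b g p = 0) → g ∈ G
  sim : ∀ g ∈ G, ∃ c : K, ∀ j v w, ω j (g j v) (g j w) = c * ω j v w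
  gen : ∀ M : Subalgebra K (∀ j, Module.End K (W j)),
    (∀ π, π * π = π → (∀ t : K, t ≠ 0 → 1 + (t - 1) • π ∈ G) → π ∈ M) → ∀ g ∈ G, g ∈ M
  irr : ∀ j (W' : Submodule K (W j)), (∀ g ∈ G, ∀ w ∈ W', g j w ∈ W') → W' = ⊥ ∨ W' = ⊤
  ne : ∀ i j, i ≠ j → ¬ ∃ e : W i ≃ₗ[K] W j, ∀ g ∈ G, ∀ v, e (g i v) = g j (e v)
  nt : ∀ j, Nontrivial (W j)

namespace GrpCore
variable {ω : ∀ j, LinearMap.BilinForm K (W j)} {b : Basis σ K (∀ j, Module.End K (W j))}
  {G : Set (∀ j, Module.End K (W j))} (D : GrpCore ω b G)

/-- The cocharacters with weights zero and one whose involution is infinitesimally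
symplectic. -/
def Lag (ω : ∀ j, LinearMap.BilinForm K (W j)) (G : Set (∀ j, Module.End K (W j))) :
    Set (∀ j, Module.End K (W j)) :=
  {π | π * π = π ∧ (∀ t : K, t ≠ 0 → 1 + (t - 1) • π ∈ G) ∧
    ∀ j, IsSk (ω j) ((2 : K) • π j - 1)}

/-- The set of involutions. -/
def Inv (ω : ∀ j, LinearMap.BilinForm K (W j)) (G : Set (∀ j, Module.End K (W j))) :
    Set (∀ j, Module.End K (W j)) :=
  {s | ∃ π ∈ Lag ω G, s = (2 : K) • π - 1}

include D

lemma nontriv (j : ι) : Nontrivial (W j) := D.nt j

lemma exists_ne_form (j : ι) : ∃ v w, ω j v w ≠ 0 := by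
  have := D.nontriv j
  obtain ⟨v, hv⟩ := exists_ne (0 : W j)
  by_contra hcon
  push Not at hcon
  exact hv ((D.nd j).1 v (hcon v))

/-- Trichotomy for cocharacters. -/
lemma trich [CharZero K] {π : ∀ j, Module.End K (W j)} (hπ : π * π = π)
    (ht : ∀ t : K, t ≠ 0 → 1 + (t - 1) • π ∈ G) : π ∈ Lag ω G ∨ π = 0 ∨ π = 1 := by
  obtain ⟨c, hc⟩ := D.sim _ (ht 2 two_ne_zero)
  have hc' : ∀ j v w, ω j ((1 + π j) v) ((1 + π j) w) = c * ω j v w := by
    intro j v w
    have := hc j v w
    have e : (1 + ((2 : K) - 1) • π) j = 1 + π j := by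
      rw [Pi.add_apply, Pi.smul_apply, Pi.one_apply]
      norm_num
    rwa [e] at this
  have hπj : ∀ j, π j * π j = π j := fun j => congrFun hπ j
  have h4 := fun j v w => four (hπj j) (hc' j) v w
  have split : ∀ j v w, ω j v w = ω j (π j v) (π j w) + ω j (π j v) (w - π j w)
      + ω j (v - π j v) (π j w) + ω j (v - π j v) (w - π j w) := by
    intro j v w
    simp only [map_sub, LinearMap.sub_apply]
    ring
  by_cases c2 : c = 2
  · left
    refine ⟨hπ, ht, fun j v w => ?_⟩
    obtain ⟨a1, -, -, a4⟩ := h4 j v w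
    have b1 : ω j (π j v) (π j w) = 0 := by
      rw [c2] at a1; exact (mul_eq_zero.mp a1).resolve_left (by norm_num)
    have b4 : ω j (v - π j v) (w - π j w) = 0 := by
      rw [c2] at a4; exact (mul_eq_zero.mp a4).resolve_left (by norm_num)
    simp only [map_sub, LinearMap.sub_apply, LinearMap.smul_apply, map_smul,
      Module.End.one_apply, smul_eq_mul] at b1 b4 ⊢
    linear_combination 2 * b1 - 2 * b4
  · right
    have b2 : ∀ j v w, ω j (π j v) (w - π j w) = 0 := fun j v w =>
      (mul_eq_zero.mp (h4 j v w).2.1).resolve_left (sub_ne_zero.mpr c2)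
    have b3 : ∀ j v w, ω j (v - π j v) (π j w) = 0 := fun j v w =>
      (mul_eq_zero.mp (h4 j v w).2.2.1).resolve_left (sub_ne_zero.mpr c2)
    by_cases c4 : c = 4
    · right
      funext j
      ext v
      have b4 : ∀ w, ω j (v - π j v) (w - π j w) = 0 := by
        intro w
        have := (h4 j v w).2.2.2
        rw [c4] at this
        exact (mul_eq_zero.mp this).resolve_left (by norm_num)
      have : v - π j v = 0 := by
        apply (D.nd j).1
        intro w
        have e : w = π j w + (w - π j w) := by abel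
        rw [e, map_add, b3, b4, add_zero]
      rw [sub_eq_zero] at this
      exact this.symm
    · left
      funext j
      ext v
      have b1 : ∀ v w, ω j (π j v) (π j w) = 0 := fun v w =>
        (mul_eq_zero.mp (h4 j v w).1).resolve_left (sub_ne_zero.mpr c4)
      have : π j v = 0 := by
        apply (D.nd j).1
        intro w
        have e : w = π j w + (w - π j w) := by abel
        rw [e, map_add, b1, b2, add_zero]
      exact this

/-- A subalgebra containing the Lagrangian cocharacters contains `G`. -/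
lemma gen' [CharZero K] (M : Subalgebra K (∀ j, Module.End K (W j)))
    (hM : ∀ π ∈ Lag ω G, π ∈ M) : ∀ g ∈ G, g ∈ M := by
  apply D.gen
  intro π hπ ht
  rcases D.trich hπ ht with h | h | h
  · exact hM π h
  · rw [h]; exact M.zero_mem
  · rw [h]; exact M.one_mem

lemma mult_ne_zero {g : ∀ j, Module.End K (W j)} (j : ι) {h : ∀ j, Module.End K (W j)}
    (hgh : g * h = 1) {c : K} (hc : ∀ j v w, ω j (g j v) (g j w) = c * ω j v w) : c ≠ 0 := by
  rintro rfl
  obtain ⟨v, w, hvw⟩ := D.exists_ne_form j
  have h1 : ∀ x, g j (h j x) = x := fun x => LinearMap.congr_fun (congrFun hgh j) x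
  have := hc j (h j v) (h j w)
  rw [h1, h1, zero_mul] at this
  exact hvw this

/-- `G` permutes the Lagrangian cocharacters. -/
lemma lag_conj {g h : ∀ j, Module.End K (W j)} (hg : g ∈ G) (hh : h ∈ G) (hgh : g * h = 1)
    (hhg : h * g = 1) {π : ∀ j, Module.End K (W j)} (hπ : π ∈ Lag ω G) :
    g * π * h ∈ Lag ω G := by
  obtain ⟨h1, h2, h3⟩ := hπ
  refine ⟨?_, ?_, ?_⟩
  · calc g * π * h * (g * π * h) = g * π * (h * g) * π * h := by noncomm_ring
      _ = g * (π * π) * h := by rw [hhg]; noncomm_ring
      _ = _ := by rw [h1]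
  · intro t ht
    have : 1 + (t - 1) • (g * π * h) = g * (1 + (t - 1) • π) * h := by
      rw [mul_add, add_mul, mul_one, hgh, mul_smul_comm, smul_mul_assoc]
    rw [this]
    exact D.mul _ (D.mul _ hg _ (h2 t ht)) _ hh
  · intro j
    obtain ⟨c, hc⟩ := D.sim g hg
    have hc0 := D.mult_ne_zero j hgh hc
    have := (h3 j).conj (g := g j) (g' := h j) (hc j) (congrFun hgh j) hc0
    have e : g j * ((2 : K) • π j - 1) * h j = (2 : K) • (g * π * h) j - 1 := by
      have e1 : g j * h j = 1 := congrFun hgh j
      rw [mul_sub, sub_mul, mul_one, e1, mul_smul_comm, smul_mul_assoc]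
      rfl
    rwa [e] at this

/-- `G` normalises the Lie algebra. -/
lemma lie_conj {g h : ∀ j, Module.End K (W j)} (hg : g ∈ G) (hh : h ∈ G) (hgh : g * h = 1)
    (hhg : h * g = 1) {x : ∀ j, Module.End K (W j)} (hx : x ∈ lieGen K (Inv ω G)) :
    g * x * h ∈ lieGen K (Inv ω G) := by
  let M : Submodule K (∀ j, Module.End K (W j)) :=
    { carrier := {x | g * x * h ∈ lieGen K (Inv ω G)}
      add_mem' := by
        intro x y hx hy
        rw [Set.mem_ofPred_eq] at *
        rw [mul_add, add_mul]; exact Submodule.add_mem _ hx hy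
      zero_mem' := by simp
      smul_mem' := by
        intro c x hx
        rw [Set.mem_ofPred_eq] at *
        rw [mul_smul_comm, smul_mul_assoc]; exact Submodule.smul_mem _ _ hx }
  have : lieGen K (Inv ω G) ≤ M := by
    apply lieGen_le
    · intro x hx y hy
      have h1 := lieGen_comm (show g * x * h ∈ lieGen K (Inv ω G) from hx)
        (show g * y * h ∈ lieGen K (Inv ω G) from hy)
      have e : g * x * h * (g * y * h) - g * y * h * (g * x * h) = g * (x * y - y * x) * h := by
        calc g * x * h * (g * y * h) - g * y * h * (g * x * h)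
            = g * x * (h * g) * y * h - g * y * (h * g) * x * h := by noncomm_ring
          _ = _ := by rw [hhg]; noncomm_ring
      rw [e] at h1
      exact h1
    · rintro s ⟨π, hπ, rfl⟩
      apply subset_lieGen
      refine ⟨g * π * h, D.lag_conj hg hh hgh hhg hπ, ?_⟩
      rw [mul_sub, sub_mul, mul_one, hgh, mul_smul_comm, smul_mul_assoc]
  exact this hx

lemma lie_sk {x : ∀ j, Module.End K (W j)} (hx : x ∈ lieGen K (Inv ω G)) (j : ι) :
    IsSk (ω j) (x j) := by
  let M : Submodule K (∀ j, Module.End K (W j)) :=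
    { carrier := {x | IsSk (ω j) (x j)}
      add_mem' := by
        intro x y hx hy v w
        have h1 := hx v w
        have h2 := hy v w
        rw [Pi.add_apply, LinearMap.add_apply, LinearMap.add_apply, map_add, map_add,
          LinearMap.add_apply, h1, h2]
        ring
      zero_mem' := by intro v w; simp
      smul_mem' := by
        intro c x hx v w
        have h1 := hx v w
        rw [Pi.smul_apply, LinearMap.smul_apply, LinearMap.smul_apply, map_smul, map_smul,
          LinearMap.smul_apply, h1, smul_eq_mul, smul_eq_mul]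
        ring }
  have : lieGen K (Inv ω G) ≤ M := by
    apply lieGen_le
    · intro x hx y hy v w
      have h1 : IsSk (ω j) (x j) := hx
      have h2 : IsSk (ω j) (y j) := hy
      have e : (x * y - y * x) j = x j * y j - y j * x j := rfl
      rw [e]
      simp only [LinearMap.sub_apply, Module.End.mul_apply, map_sub]
      rw [h1, h2, h2, h1]
      ring
    · rintro s ⟨π, hπ, rfl⟩
      exact hπ.2.2 j
  exact this hx

/-- The Lie algebra acts on each factor through an irreducible involution generated Lie
algebra. -/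
lemma ctx [CharZero K] (j : ι) :
    Ctx (ω j) (lieGen K ((Pi.evalAlgHom K (fun j => Module.End K (W j)) j) '' (Inv ω G)))
      ((Pi.evalAlgHom K (fun j => Module.End K (W j)) j) '' (Inv ω G)) where
  irr := by
    refine ⟨fun x hx y hy => lieGen_comm hx hy, ?_, ?_⟩
    · intro x hx
      rw [← lieGen_map] at hx
      obtain ⟨x', hx', rfl⟩ := hx
      exact D.lie_sk hx' j
    · intro W' hW'
      apply D.irr j
      let M : Subalgebra K (∀ j, Module.End K (W j)) :=
        { carrier := {x | ∀ w ∈ W', x j w ∈ W'}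
          mul_mem' := by
            intro x y hx hy w hw
            exact hx _ (hy w hw)
          one_mem' := by intro w hw; exact hw
          add_mem' := by
            intro x y hx hy w hw
            exact W'.add_mem (hx w hw) (hy w hw)
          zero_mem' := by intro w hw; exact W'.zero_mem
          algebraMap_mem' := by
            intro c w hw
            exact W'.smul_mem c hw }
      have := D.gen' M (by
        intro π hπ w hw
        have hs : (Pi.evalAlgHom K (fun j => Module.End K (W j)) j) ((2 : K) • π - 1) ∈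
            lieGen K ((Pi.evalAlgHom K (fun j => Module.End K (W j)) j) '' (Inv ω G)) :=
          subset_lieGen _ ⟨_, ⟨π, hπ, rfl⟩, rfl⟩
        have h1 := hW' _ hs w hw
        have h2 : ((Pi.evalAlgHom K (fun j => Module.End K (W j)) j) ((2 : K) • π - 1)) w =
          (2 : K) • π j w - w := rfl
        rw [h2] at h1
        have h3 := W'.smul_mem (2 : K)⁻¹ (W'.add_mem h1 hw)
        rwa [sub_add_cancel, smul_smul, inv_mul_cancel₀ two_ne_zero, one_smul] at h3)
      intro g hg
      exact this g hg
  nd := D.nd j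
  inv := by
    rintro _ ⟨s, hs, rfl⟩
    refine ⟨subset_lieGen _ ⟨s, hs, rfl⟩, ?_⟩
    obtain ⟨π, hπ, rfl⟩ := hs
    have h1 : π j * π j = π j := congrFun hπ.1 j
    have h2 : (Pi.evalAlgHom K (fun j => Module.End K (W j)) j) ((2 : K) • π - 1) =
      (2 : K) • π j - 1 := rfl
    rw [h2]
    simp only [sub_mul, mul_sub, smul_mul_assoc, mul_smul_comm, h1, mul_one, one_mul]
    module
  gen := fun M h1 h2 => lieGen_le h1 h2

end GrpCore

end MTP
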