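import Pool.Agent.Helper98.MT.GCore2
import Pool.Agent.Helper98.MT.Slope

/-!
Slope operators and logarithms of quadratic unipotents belong to the projections of the Lie
algebra.
-/

open Module

namespace MTP

/-- The slopes of an operator: the multiset of the valuations of its eigenvalues (the roots of
the characteristic polynomial, with multiplicity). -/
noncomputable def slopes {K : Type*} [Field K] {E : Type*} [AddCommGroup E] [Module K E]
    [Module.Finite K E] (v : K → ℚ) (φ : Module.End K E) : Multiset ℚ :=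
  φ.charpoly.roots.map v

variable {K : Type*} [Field K] {ι : Type*} [Fintype ι] [DecidableEq ι] {W : ι → Type*}
  [∀ j, AddCommGroup (W j)] [∀ j, Module K (W j)] [∀ j, FiniteDimensional K (W j)]
  {σ : Type*} [Fintype σ]

namespace GrpCore
variable {ω : ∀ j, LinearMap.BilinForm K (W j)} {b : Basis σ K (∀ j, Module.End K (W j))}
  {G : Set (∀ j, Module.End K (W j))} (D : GrpCore ω b G)

/-- The involutions on the summand. -/
def SJ (ω : ∀ j, LinearMap.BilinForm K (W j)) (G : Set (∀ j, Module.End K (W j))) (j : ι) :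
    Set (Module.End K (W j)) :=
  (Pi.evalAlgHom K (fun j => Module.End K (W j)) j) '' (Inv ω G)

/-- The projection of the Lie algebra to a summand. -/
def LJ (ω : ∀ j, LinearMap.BilinForm K (W j)) (G : Set (∀ j, Module.End K (W j))) (j : ι) :
    Submodule K (Module.End K (W j)) :=
  lieGen K (SJ ω G j)

omit [Fintype ι] [DecidableEq ι] [∀ j, FiniteDimensional K (W j)] in
lemma mem_LJ (j : ι) (x : Module.End K (W j)) :
    x ∈ LJ ω G j ↔ ∃ y ∈ lieGen K (Inv ω G), y j = x := by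
  rw [LJ, SJ, ← lieGen_map]
  rfl

include D

lemma ctxJ [CharZero K] (j : ι) : Ctx (ω j) (LJ ω G j) (SJ ω G j) := D.ctx j

/-- Slope operators. -/
lemma slope_mem [IsAlgClosed K] [CharZero K] {a : ∀ j, Module.End K (W j)} (haG : a ∈ G)
    {v : K → ℚ} (hv : ∀ x y, x ≠ 0 → y ≠ 0 → v (x * y) = v x + v y) (j : ι) :
    ∃ (e : ℚ), ∃ h ∈ LJ ω G j, RSD {h} ∧
      ∀ q : ℚ, finrank K (Module.End.eigenspace h (q : K)) = (slopes v (a j)).count (q + e) := by
  obtain ⟨a', haG', h1, h2⟩ := D.inv a haG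
  obtain ⟨c, hc⟩ := D.sim a haG
  have hinv : a' j * a j = 1 := congrFun h2 j
  have hconj : ∀ x ∈ LJ ω G j, a j * x * a' j ∈ LJ ω G j := by
    intro x hx
    obtain ⟨y, hy, rfl⟩ := (mem_LJ j x).mp hx
    rw [mem_LJ]
    exact ⟨_, D.lie_conj haG haG' h1 h2 hy, rfl⟩
  obtain ⟨H, hsk, hnorm, hrsd, hdim⟩ := exists_slope hinv (hc j) hv hconj
  refine ⟨v c / 2, H, (D.ctxJ j).irr.mem_of_normalize (D.ctxJ j).nd hsk hnorm, hrsd,
    fun q => ?_⟩
  rw [hdim, slopes, Multiset.count_map]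
  congr 1
  apply Multiset.filter_congr
  intro x _
  exact eq_comm

/-- Logarithms of quadratic unipotents. -/
lemma quad_mem [IsAlgClosed K] [CharZero K] {a : ∀ j, Module.End K (W j)} (haG : a ∈ G) {j : ι}
    (hN : (a j - 1) * (a j - 1) = 0) : a j - 1 ∈ LJ ω G j := by
  obtain ⟨a', haG', h1, h2⟩ := D.inv a haG
  set N := a j - 1 with hNdef
  have haj : a j = 1 + N := by rw [hNdef]; abel
  have haj' : a' j = 1 - N := by
    have e1 : a' j * a j = 1 := congrFun h2 j
    have e2 : a j * (1 - N) = 1 := by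
      have e3 : (1 + N) * (1 - N) = 1 - N * N := by noncomm_ring
      rw [haj, e3, hN, sub_zero]
    calc a' j = a' j * (a j * (1 - N)) := by rw [e2, mul_one]
      _ = (a' j * a j) * (1 - N) := by rw [mul_assoc]
      _ = _ := by rw [e1, one_mul]
  obtain ⟨c, hc⟩ := D.sim a haG
  obtain ⟨c', hc'⟩ := D.sim a' haG'
  have hcc : c * c' = 1 := by
    obtain ⟨v, w, hvw⟩ := D.exists_ne_form j
    have h1 : ∀ x, a j (a' j x) = x := fun x => LinearMap.congr_fun (congrFun h1 j) x
    have e1 := hc j (a' j v) (a' j w)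
    rw [h1, h1, hc'] at e1
    have e2 : (c * c' - 1) * ω j v w = 0 := by linear_combination -e1
    have e3 := (mul_eq_zero.mp e2).resolve_right hvw
    linear_combination e3
  have hsk : IsSk (ω j) N := by
    apply quad_skew hN (c := c) (c' := c') _ _ hcc (D.nd j)
    · intro v w; rw [← haj]; exact hc j v w
    · intro v w; rw [← haj']; exact hc' j v w
  apply (D.ctxJ j).irr.mem_of_normalize (D.ctxJ j).nd hsk
  intro x hx
  obtain ⟨y, hy, rfl⟩ := (mem_LJ j x).mp hx
  have h3 : (1 + N) * y j * (1 - N) ∈ LJ ω G j := by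
    rw [mem_LJ]
    refine ⟨a * y * a', D.lie_conj haG haG' h1 h2 hy, ?_⟩
    rw [Pi.mul_apply, Pi.mul_apply, haj, haj']
  have h4 : (1 - N) * y j * (1 + N) ∈ LJ ω G j := by
    rw [mem_LJ]
    refine ⟨a' * y * a, D.lie_conj haG' haG h2 h1 hy, ?_⟩
    rw [Pi.mul_apply, Pi.mul_apply, haj, haj']
  have h5 := (LJ ω G j).smul_mem (2 : K)⁻¹ ((LJ ω G j).sub_mem h3 h4)
  have e : (1 + N) * y j * (1 - N) - (1 - N) * y j * (1 + N) =
      (2 : K) • (N * y j - y j * N) := by
    have : (1 + N) * y j * (1 - N) - (1 - N) * y j * (1 + N) =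
      (N * y j - y j * N) + (N * y j - y j * N) := by noncomm_ring
    rw [this, two_smul]
  rw [e, smul_smul, inv_mul_cancel₀ two_ne_zero, one_smul] at h5
  exact h5

/-- From the Lie algebras of the summands to the group. -/
lemma gsp_of_LJ [CharZero K] [Nonempty ι]
    (hgour : ∀ (L : Submodule K (∀ j, Module.End K (W j))),
      (∀ x ∈ L, ∀ y ∈ L, x * y - y * x ∈ L) →
      (∀ x ∈ L, ∀ j, IsSk (ω j) (x j)) →
      (∀ j, ∀ z, IsSk (ω j) z → ∃ x ∈ L, x j = z) →
      (∀ i j, i ≠ j → ¬ ∃ e : W i ≃ₗ[K] W j, ∀ x ∈ L, ∀ v, e (x i v) = x j (e v)) →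
      ∀ x : (∀ j, Module.End K (W j)), (∀ j, IsSk (ω j) (x j)) → x ∈ L)
    (hfull : ∀ j, ∀ z, IsSk (ω j) z → z ∈ LJ ω G j)
    {g : ∀ j, Module.End K (W j)} {c : K} (hc : c ≠ 0)
    (hg : ∀ j v w, ω j (g j v) (g j w) = c * ω j v w) : g ∈ G := by
  have full := hgour (lieGen K (Inv ω G))
    (fun x hx y hy => lieGen_comm hx hy) (fun x hx j => D.lie_sk hx j)
    (fun j z hz => (mem_LJ j z).mp (hfull j z hz)) (fun i j hij => D.lie_ne hij)
  exact D.gsp_mem full hc hg

end GrpCore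

end MTP
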