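import Pool.Agent.Helper98.MT.GOne

/-!
The Newton polygon criterion, group form.
-/

open Module MTPairs

namespace MTP

variable {K : Type*} [Field K] {m : Type*} [Fintype m] [DecidableEq m]

/-- The slope multiplicity: the number of eigenvalues of `γ`, counted with multiplicity, whose
valuation is `a`. -/
noncomputable def smult (v : K → ℚ) (γ : Matrix.GeneralLinearGroup m K) (a : ℚ) : ℕ :=
  ((γ : Matrix m m K).charpoly.roots.filter fun α => v α = a).card

variable {J : Matrix m m K} {G : Subgroup (Matrix.GeneralLinearGroup m K)}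

/-- The Lie algebra of a pair, with the slope operator in it. -/
theorem exists_lie [IsAlgClosed K] [CharZero K] [Nonempty m] (hG : IsMTPair J G)
    (hirr : Irr G) :
    ∃ (L : Submodule K (Module.End K (m → K))) (S : Set (Module.End K (m → K))),
      Ctx (Matrix.toBilin' J) L S ∧
      (∀ (γ : Matrix.GeneralLinearGroup m K), γ ∈ G → ∀ v : K → ℚ,
        (∀ x y, x ≠ 0 → y ≠ 0 → v (x * y) = v x + v y) →
        ∃ (e : ℚ), ∃ h ∈ L, RSD {h} ∧
          ∀ a : ℚ, finrank K (Module.End.eigenspace h (a : K)) = smult v γ (a + e)) ∧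
      ((∀ z, IsSk (Matrix.toBilin' J) z → z ∈ L) →
        ∀ g : Matrix.GeneralLinearGroup m K, (∃ c : K,
          (g : Matrix m m K).transpose * J * (g : Matrix m m K) = c • J) → g ∈ G) := by
  classical
  let b := Module.finBasis K (∀ _ : Unit, Module.End K (m → K))
  have D := grpCore b hG hirr
  have hctx := D.ctx ()
  set L := lieGen K ((Pi.evalAlgHom K (fun _ : Unit => Module.End K (m → K)) ()) ''
    (GrpCore.Inv (fun _ => Matrix.toBilin' J) (GU G))) with hL
  have hmap : ∀ x, x ∈ L ↔ ∃ y ∈ lieGen K (GrpCore.Inv (fun _ => Matrix.toBilin' J) (GU G)),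
      y () = x := by
    intro x
    rw [hL, ← lieGen_map]
    rfl
  refine ⟨L, _, hctx, ?_, ?_⟩
  · intro γ hγ v hv
    obtain ⟨c, hc⟩ := hG.sim γ hγ
    have hinv : Matrix.toLin' ((γ⁻¹ : Matrix.GeneralLinearGroup m K) : Matrix m m K) *
        Matrix.toLin' (γ : Matrix m m K) = 1 := by
      have h1 := Matrix.toLin'_mul ((γ⁻¹ : Matrix.GeneralLinearGroup m K) : Matrix m m K)
        (γ : Matrix m m K)
      rw [← Units.val_mul, inv_mul_cancel, Units.val_one, Matrix.toLin'_one] at h1
      exact h1.symm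
    have hinv' : Matrix.toLin' (γ : Matrix m m K) *
        Matrix.toLin' ((γ⁻¹ : Matrix.GeneralLinearGroup m K) : Matrix m m K) = 1 := by
      have h1 := Matrix.toLin'_mul (γ : Matrix m m K)
        ((γ⁻¹ : Matrix.GeneralLinearGroup m K) : Matrix m m K)
      rw [← Units.val_mul, mul_inv_cancel, Units.val_one, Matrix.toLin'_one] at h1
      exact h1.symm
    have hconj : ∀ x ∈ L, Matrix.toLin' (γ : Matrix m m K) * x *
        Matrix.toLin' ((γ⁻¹ : Matrix.GeneralLinearGroup m K) : Matrix m m K) ∈ L := by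
      intro x hx
      obtain ⟨y, hy, rfl⟩ := (hmap x).mp hx
      rw [hmap]
      refine ⟨_, D.lie_conj ⟨γ, hγ, rfl⟩ ⟨γ⁻¹, G.inv_mem hγ, rfl⟩ ?_ ?_ hy, rfl⟩
      · funext _; exact hinv'
      · funext _; exact hinv
    obtain ⟨h, hsk, hnorm, hrsd, hdim⟩ := exists_slope hinv (fun u w => toBilin'_sim hc u w) hv
      hconj
    refine ⟨v c / 2, h, hctx.irr.mem_of_normalize hctx.nd hsk hnorm, hrsd, fun a => ?_⟩
    rw [hdim, smult, Matrix.charpoly_toLin']
  · intro hfull g hg
    obtain ⟨c, hc⟩ := hg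
    have hc0 : c ≠ 0 := by
      rintro rfl
      rw [zero_smul] at hc
      have h1 := congrArg Matrix.det hc
      rw [Matrix.det_mul, Matrix.det_mul, Matrix.det_transpose, Matrix.det_zero] at h1
      have hg : (g : Matrix m m K).det ≠ 0 :=
        ((Matrix.isUnit_iff_isUnit_det _).mp g.isUnit).ne_zero
      exact (mul_ne_zero (mul_ne_zero hg hG.det) hg) h1
    have full : ∀ x : ∀ _ : Unit, Module.End K (m → K),
        (∀ j, IsSk (Matrix.toBilin' J) (x j)) →
        x ∈ lieGen K (GrpCore.Inv (fun _ => Matrix.toBilin' J) (GU G)) := by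
      intro x hx
      obtain ⟨y, hy, hyx⟩ := (hmap (x ())).mp (hfull _ (hx ()))
      have : x = y := by funext u; exact hyx.symm
      rw [this]; exact hy
    obtain ⟨g', hg', hgg⟩ := D.gsp_mem full hc0
      (g := fun _ : Unit => Matrix.toLin' (g : Matrix m m K)) (fun _ v w => toBilin'_sim hc v w)
    have h1 : Matrix.toLin' (g : Matrix m m K) = Matrix.toLin' (g' : Matrix m m K) :=
      congrFun hgg ()
    have h2 : g = g' := Units.ext (Matrix.toLin'.injective h1)
    rw [h2]; exact hg'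

/-- **Newton polygon criterion**, group form. -/
theorem newton_group [IsAlgClosed K] [CharZero K] (hG : IsMTPair J G)
    (hirr : Irr G) {γ : Matrix.GeneralLinearGroup m K} (hγ : γ ∈ G) {v : K → ℚ}
    (hv : ∀ x y, x ≠ 0 → y ≠ 0 → v (x * y) = v x + v y) (A : Set ℚ)
    (hA : ∃ a ∈ A, smult v γ a ≠ 0) (hA' : ∃ a, a ∉ A ∧ smult v γ a ≠ 0)
    (hcut : ∀ a a' : ℚ, a ∈ A → a' ∉ A → smult v γ a ≠ 0 → smult v γ a' ≠ 0 →
      ∀ r : ℚ → ℕ, (∀ c, r c + r (c - (a' - a)) ≤ smult v γ c) → ∑ᶠ c, r c ≤ 3) :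
    ∀ g : Matrix.GeneralLinearGroup m K, (∃ c : K,
      (g : Matrix m m K).transpose * J * (g : Matrix m m K) = c • J) → g ∈ G := by
  classical
  have hm : Nonempty m := by
    by_contra hm
    rw [not_nonempty_iff] at hm
    obtain ⟨a, -, ha⟩ := hA
    apply ha
    rw [smult, Multiset.card_eq_zero]
    have : (γ : Matrix m m K).charpoly.roots = 0 := by
      rw [← Multiset.card_eq_zero]
      have := (γ : Matrix m m K).charpoly.card_roots'
      rw [Matrix.charpoly_natDegree_eq_dim, Fintype.card_eq_zero] at this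
      omega
    rw [this]; rfl
  obtain ⟨L, S, hctx, hsl, hfin⟩ := exists_lie hG hirr
  apply hfin
  intro z hz
  obtain ⟨e, h, hh, hrsd, hdim⟩ := hsl γ hγ v hv
  have halt : (Matrix.toBilin' J).IsAlt := by
    intro v
    have := toBilin'_skew hG.skew v v
    have h2 : (2 : K) * Matrix.toBilin' J v v = 0 := by linear_combination this
    exact (mul_eq_zero.mp h2).resolve_left two_ne_zero
  have hne : ∀ a : ℚ, Module.End.eigenspace h (a : K) ≠ ⊥ ↔ smult v γ (a + e) ≠ 0 := by
    intro a
    rw [← hdim, ne_eq, ne_eq, Submodule.finrank_eq_zero]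
  refine hctx.newton halt hh hrsd {a | a + e ∈ A} ?_ ?_ ?_ hz
  · obtain ⟨a, ha, h0⟩ := hA
    refine ⟨a - e, ?_, (hne _).mpr ?_⟩
    · rw [Set.mem_ofPred_eq, sub_add_cancel]; exact ha
    · rwa [sub_add_cancel]
  · obtain ⟨a, ha, h0⟩ := hA'
    refine ⟨a - e, ?_, (hne _).mpr ?_⟩
    · rw [Set.mem_ofPred_eq, sub_add_cancel]; exact ha
    · rwa [sub_add_cancel]
  · intro a a' ha ha' h0 h0' r hr
    have h1 := hcut (a + e) (a' + e) ha ha' ((hne a).mp h0) ((hne a').mp h0')
      (fun c => r (c - e)) (by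
        intro c
        have h2 := hr (c - e)
        rw [hdim, sub_add_cancel] at h2
        have h3 : c - (a' + e - (a + e)) - e = c - e - (a' - a) := by ring
        rw [h3]
        exact h2)
    have h4 : ∑ᶠ c, r (c - e) = ∑ᶠ c, r c :=
      finsum_comp_equiv (Equiv.subRight e) (f := r)
    rw [h4] at h1
    exact h1

end MTP
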