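import Pool.Agent.Helper98.MT.RankOne

/-!
Homogeneous square zero elements obtained from the involutions.
-/

open Module Polynomial

namespace MTP

variable {K : Type*} [Field K] {V : Type*} [AddCommGroup V] [Module K V] [FiniteDimensional K V]
variable {ω : LinearMap.BilinForm K V} {L : Submodule K (Module.End K V)}
  {S : Set (Module.End K V)} {I : Type*} [Fintype I] [DecidableEq I]

/-- Matrix entries. -/
noncomputable abbrev en (b : Basis I K V) (z : Module.End K V) (i j : I) : K :=
  LinearMap.toMatrixAlgEquiv b z i j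

omit [FiniteDimensional K V] in
lemma en_eq (b : Basis I K V) (z : Module.End K V) (i j : I) : en b z i j = b.repr (z (b j)) i := by
  rw [en, LinearMap.toMatrixAlgEquiv_apply]

omit [FiniteDimensional K V] in
lemma en_mul (b : Basis I K V) (z w : Module.End K V) (i j : I) :
    en b (z * w) i j = ∑ k, en b z i k * en b w k j := by
  rw [en, map_mul, Matrix.mul_apply]

omit [FiniteDimensional K V] in
lemma en_ext (b : Basis I K V) {z w : Module.End K V} (h : ∀ i j, en b z i j = en b w i j) :
    z = w := by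
  apply (LinearMap.toMatrixAlgEquiv b).injective
  ext i j
  exact h i j

omit [FiniteDimensional K V] in
lemma en_diag [CharZero K] (b : Basis I K V) {χ : I → ℚ} {h : Module.End K V}
    (hh : ∀ i, h (b i) = (χ i : K) • b i) (i j : I) :
    en b h i j = if i = j then (χ i : K) else 0 := by
  rw [en_eq, hh, map_smul, Basis.repr_self]
  by_cases hij : i = j
  · subst hij; simp
  · rw [if_neg hij]
    simp [Finsupp.single_apply, Ne.symm hij]

omit [FiniteDimensional K V] in
lemma en_comm [CharZero K] (b : Basis I K V) {χ : I → ℚ} {h : Module.End K V}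
    (hh : ∀ i, h (b i) = (χ i : K) • b i) (z : Module.End K V) (i j : I) :
    en b (h * z - z * h) i j = ((χ i - χ j : ℚ) : K) * en b z i j := by
  have e1 : en b (h * z - z * h) i j = en b (h * z) i j - en b (z * h) i j := by
    simp [en, map_sub]
  rw [e1, en_mul, en_mul]
  simp only [en_diag b hh]
  rw [Finset.sum_eq_single i, Finset.sum_eq_single j]
  · simp
    ring
  · intro k _ hk
    rw [if_neg hk, mul_zero]
  · simp
  · intro k _ hk
    rw [if_neg (Ne.symm hk), zero_mul]
  · simp

section
variable [CharZero K]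

/-- Homogeneous components stay in `L`. -/
lemma exists_prod {χ : I → ℚ} (b : Basis I K V) {h : Module.End K V}
    (hh : ∀ i, h (b i) = (χ i : K) • b i) (hL : ∀ z ∈ L, h * z - z * h ∈ L) {z : Module.End K V}
    (hz : z ∈ L) (F : Finset ℚ) :
    ∃ z' ∈ L, ∀ i j, en b z' i j = (∏ c ∈ F, ((χ i - χ j - c : ℚ) : K)) * en b z i j := by
  induction F using Finset.induction_on with
  | empty => exact ⟨z, hz, fun i j => by simp⟩
  | insert c F hc ih =>
    obtain ⟨z', hz', h'⟩ := ih
    refine ⟨(h * z' - z' * h) - (c : K) • z', L.sub_mem (hL z' hz') (L.smul_mem _ hz'), ?_⟩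
    intro i j
    have e1 : en b ((h * z' - z' * h) - (c : K) • z') i j =
        en b (h * z' - z' * h) i j - (c : K) * en b z' i j := by
      simp [en, map_sub]
    rw [e1, en_comm b hh, h', Finset.prod_insert hc]
    push_cast
    ring

lemma exists_comp {χ : I → ℚ} (b : Basis I K V) {h : Module.End K V}
    (hh : ∀ i, h (b i) = (χ i : K) • b i) (hL : ∀ z ∈ L, h * z - z * h ∈ L) {z : Module.End K V}
    (hz : z ∈ L) (c : ℚ) :
    ∃ z' ∈ L, ∀ i j, en b z' i j = if χ i - χ j = c then en b z i j else 0 := by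
  classical
  let F : Finset ℚ := (Finset.univ.image fun p : I × I => χ p.1 - χ p.2).erase c
  obtain ⟨z', hz', h'⟩ := exists_prod b hh hL hz F
  have hne : (∏ d ∈ F, ((c - d : ℚ) : K)) ≠ 0 := by
    rw [Finset.prod_ne_zero_iff]
    intro d hd
    have : d ≠ c := Finset.ne_of_mem_erase hd
    exact_mod_cast sub_ne_zero.mpr (Ne.symm this)
  refine ⟨(∏ d ∈ F, ((c - d : ℚ) : K))⁻¹ • z', L.smul_mem _ hz', ?_⟩
  intro i j
  have e1 : en b ((∏ d ∈ F, ((c - d : ℚ) : K))⁻¹ • z') i j =
      (∏ d ∈ F, ((c - d : ℚ) : K))⁻¹ * en b z' i j := by simp [en]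
  rw [e1, h']
  by_cases hc : χ i - χ j = c
  · rw [if_pos hc, hc, ← mul_assoc, inv_mul_cancel₀ hne, one_mul]
  · rw [if_neg hc]
    have : (∏ d ∈ F, ((χ i - χ j - d : ℚ) : K)) = 0 := by
      apply Finset.prod_eq_zero (i := χ i - χ j)
      · exact Finset.mem_erase.mpr ⟨hc, Finset.mem_image.mpr ⟨(i, j), Finset.mem_univ _, rfl⟩⟩
      · simp
    rw [this, zero_mul, mul_zero]

/-- The top component of an involution is square zero. -/
lemma exists_top {χ : I → ℚ} (b : Basis I K V) {h : Module.End K V}
    (hh : ∀ i, h (b i) = (χ i : K) • b i) (hL : ∀ z ∈ L, h * z - z * h ∈ L) {s : Module.End K V}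
    (hs : s ∈ L) (hss : s * s = 1) (hpos : ∃ i j, en b s i j ≠ 0 ∧ 0 < χ i - χ j) :
    ∃ c : ℚ, c ≠ 0 ∧ ∃ x ∈ L, x ≠ 0 ∧ x * x = 0 ∧ ∀ i j, en b x i j ≠ 0 → χ i - χ j = c := by
  classical
  let D : Finset ℚ := (Finset.univ.filter fun p : I × I => en b s p.1 p.2 ≠ 0).image
    fun p => χ p.1 - χ p.2
  obtain ⟨i₀, j₀, h0, hp0⟩ := hpos
  have hmem : ∀ i j, en b s i j ≠ 0 → χ i - χ j ∈ D := by
    intro i j hij
    exact Finset.mem_image.mpr ⟨(i, j), Finset.mem_filter.mpr ⟨Finset.mem_univ _, hij⟩, rfl⟩
  have hD : D.Nonempty := ⟨_, hmem _ _ h0⟩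
  set c := D.max' hD with hc
  have hle : ∀ i j, en b s i j ≠ 0 → χ i - χ j ≤ c := fun i j hij => D.le_max' _ (hmem i j hij)
  have hcpos : 0 < c := lt_of_lt_of_le hp0 (hle _ _ h0)
  obtain ⟨x, hx, hxe⟩ := exists_comp b hh hL hs c
  refine ⟨c, hcpos.ne', x, hx, ?_, ?_, ?_⟩
  · obtain ⟨⟨i, j⟩, hij, hij2⟩ := Finset.mem_image.mp (D.max'_mem hD)
    rw [Finset.mem_filter] at hij
    rintro rfl
    have h1 := hxe i j
    have e0 : en b (0 : Module.End K V) i j = 0 := by simp [en]
    rw [e0, if_pos hij2] at h1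
    exact hij.2 h1.symm
  · apply en_ext b
    intro i k
    have e0 : en b (0 : Module.End K V) i k = 0 := by simp [en]
    rw [e0, en_mul]
    by_cases hik : χ i - χ k = 2 * c
    · have h1 : en b (s * s) i k = 0 := by
        rw [hss]
        have hne : i ≠ k := by
          rintro rfl
          rw [sub_self] at hik
          linarith
        simp [en, hne]
      rw [en_mul] at h1
      rw [← h1]
      apply Finset.sum_congr rfl
      intro j _
      rw [hxe, hxe]
      by_cases h2 : en b s i j = 0
      · simp [h2]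
      by_cases h3 : en b s j k = 0
      · simp [h3]
      have h4 := hle _ _ h2
      have h5 := hle _ _ h3
      have h6 : χ i - χ j = c := by linarith
      have h7 : χ j - χ k = c := by linarith
      rw [if_pos h6, if_pos h7]
    · apply Finset.sum_eq_zero
      intro j _
      rw [hxe, hxe]
      by_cases h6 : χ i - χ j = c
      · by_cases h7 : χ j - χ k = c
        · exfalso; apply hik; linarith
        · rw [if_neg h7, mul_zero]
      · rw [if_neg h6, zero_mul]
  · intro i j hij
    rw [hxe] at hij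
    by_contra hcon
    exact hij (if_neg hcon)

/-- Some homogeneous element of `L` of nonzero degree is nonzero and has square zero. -/
theorem Ctx.exists_hom (hC : Ctx ω L S) {χ : I → ℚ} (b : Basis I K V) {h : Module.End K V}
    (hh : ∀ i, h (b i) = (χ i : K) • b i) (hhL : h ∈ L) (hχ : ∃ i j, χ i ≠ χ j) :
    ∃ c : ℚ, c ≠ 0 ∧ ∃ x ∈ L, x ≠ 0 ∧ x * x = 0 ∧ ∀ i j, en b x i j ≠ 0 → χ i - χ j = c := by
  -- some involution does not commute with `h`
  obtain ⟨s, hs, i, j, hij, hne⟩ : ∃ s ∈ S, ∃ i j, en b s i j ≠ 0 ∧ χ i ≠ χ j := by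
    by_contra hcon
    push Not at hcon
    obtain ⟨i₀, j₀, h0⟩ := hχ
    have hcomm : ∀ s ∈ S, h * s = s * h := by
      intro s hs
      rw [← sub_eq_zero]
      apply en_ext b
      intro i j
      rw [en_comm b hh]
      have e0 : en b (0 : Module.End K V) i j = 0 := by simp [en]
      rw [e0]
      by_cases hij : en b s i j = 0
      · rw [hij, mul_zero]
      · rw [hcon s hs i j hij, sub_self, Rat.cast_zero, zero_mul]
    rcases hC.stable_of_inv (LinearMap.ker (h - algebraMap K _ (χ i₀ : K))) (by
      intro s hs w hw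
      rw [LinearMap.mem_ker, LinearMap.sub_apply, Module.algebraMap_end_apply, sub_eq_zero] at hw ⊢
      have := hcomm s hs
      rw [← Module.End.mul_apply, this, Module.End.mul_apply, hw, map_smul]) with h1 | h1
    · have h2 : b i₀ ∈ LinearMap.ker (h - algebraMap K _ (χ i₀ : K)) := by
        rw [LinearMap.mem_ker, LinearMap.sub_apply, Module.algebraMap_end_apply, hh, sub_self]
      rw [h1, Submodule.mem_bot] at h2
      exact b.ne_zero i₀ h2
    · have h2 : b j₀ ∈ LinearMap.ker (h - algebraMap K _ (χ i₀ : K)) := by rw [h1]; trivial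
      rw [LinearMap.mem_ker, LinearMap.sub_apply, Module.algebraMap_end_apply, hh, ← sub_smul] at h2
      rcases smul_eq_zero.mp h2 with h3 | h3
      · rw [sub_eq_zero] at h3
        exact h0 (by exact_mod_cast h3.symm)
      · exact b.ne_zero j₀ h3
  obtain ⟨hsL, hss⟩ := hC.inv s hs
  have hL : ∀ z ∈ L, h * z - z * h ∈ L := fun z hz => hC.irr.br h hhL z hz
  rcases lt_or_gt_of_ne hne with hlt | hgt
  · -- use `-h`
    have hh' : ∀ i, (-h) (b i) = (((-χ) i : ℚ) : K) • b i := by
      intro i
      rw [LinearMap.neg_apply, hh, Pi.neg_apply, Rat.cast_neg, neg_smul]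
    have hL' : ∀ z ∈ L, (-h) * z - z * (-h) ∈ L := by
      intro z hz
      have e : (-h) * z - z * (-h) = -(h * z - z * h) := by noncomm_ring
      rw [e]
      exact L.neg_mem (hL z hz)
    obtain ⟨c, hc, x, hx, hx0, hxx, hxe⟩ := exists_top b hh' hL' hsL hss
      ⟨i, j, hij, by simp only [Pi.neg_apply]; linarith⟩
    refine ⟨-c, neg_ne_zero.mpr hc, x, hx, hx0, hxx, fun i j hij => ?_⟩
    have := hxe i j hij
    simp only [Pi.neg_apply] at this
    linarith
  · exact exists_top b hh hL hsL hss ⟨i, j, hij, by linarith⟩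

/-- The rank is at most the number of nonzero columns. -/
lemma rk_le_card (b : Basis I K V) (x : Module.End K V) (J : Finset I)
    (hJ : ∀ i j, en b x i j ≠ 0 → j ∈ J) : rk x ≤ J.card := by
  classical
  have h : LinearMap.range x ≤ Submodule.span K ((J.image fun j => x (b j) : Finset V) : Set V) := by
    rintro _ ⟨v, rfl⟩
    rw [← b.sum_repr v, map_sum]
    apply Submodule.sum_mem
    intro j _
    rw [map_smul]
    by_cases hj : j ∈ J
    · apply Submodule.smul_mem
      apply Submodule.subset_span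
      exact Finset.mem_coe.mpr (Finset.mem_image_of_mem _ hj)
    · have : x (b j) = 0 := by
        apply b.repr.injective
        rw [map_zero]
        ext i
        rw [← en_eq, Finsupp.zero_apply]
        by_contra hcon
        exact hj (hJ i j hcon)
      rw [this, smul_zero]
      exact Submodule.zero_mem _
  unfold rk
  exact (Submodule.finrank_mono h).trans ((finrank_span_finset_le_card _).trans
    Finset.card_image_le)

end

end MTP
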