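import Pool.Agent.Helper98.MT.NewtonSplit
import Pool.Agent.Helper27.AO.Sharp
import Mathlib.Algebra.Category.Grp.Injective

/-!
The Newton polygon criterion for split pairs, with the optimal bound (the counterexamples are by
helper21 and helper27).
-/

open Module MTPairs

namespace MTP

/-- There is an additive valuation which does not vanish at `2`. -/
lemma exists_val (K : Type*) [Field K] [CharZero K] : ∃ v : K → ℚ,
    (∀ x y, x ≠ 0 → y ≠ 0 → v (x * y) = v x + v y) ∧ v 2 ≠ 0 := by
  classical
  let two : Kˣ := Units.mk0 2 two_ne_zero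
  let f : ℤ →+ Additive Kˣ :=
    { toFun := fun n => Additive.ofMul (two ^ n)
      map_zero' := by simp
      map_add' := by intro a b; rw [zpow_add]; rfl }
  have hf : Function.Injective f := by
    rw [injective_iff_map_eq_zero]
    intro n hn
    have h1 : two ^ n = 1 := hn
    have h2 : ((2 : K)) ^ n = 1 := by
      have := congrArg (Units.val) h1
      rwa [Units.val_zpow_eq_zpow_val, Units.val_one] at this
    by_contra h0
    have h3 : ((2 : ℚ)) ^ n = 1 := by
      have : (((2 : ℚ) ^ n : ℚ) : K) = ((1 : ℚ) : K) := by push_cast; exact h2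
      exact_mod_cast this
    rcases lt_or_gt_of_ne h0 with h | h
    · have := zpow_lt_one_of_neg₀ (a := (2 : ℚ)) (by norm_num) h
      linarith
    · have := one_lt_zpow₀ (a := (2 : ℚ)) (by norm_num) h
      linarith
  let g : ℤ →+ ℚ := (Int.castRingHom ℚ).toAddMonoidHom
  obtain ⟨w, hw⟩ := (Module.Baer.of_divisible ℚ).extension_property_addMonoidHom f hf g
  refine ⟨fun x => if hx : x = 0 then 0 else w (Additive.ofMul (Units.mk0 x hx)), ?_, ?_⟩
  · intro x y hx hy
    beta_reduce
    rw [dif_neg hx, dif_neg hy, dif_neg (mul_ne_zero hx hy), ← map_add, ← ofMul_mul,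
      ← Units.mk0_mul]
  · beta_reduce
    rw [dif_neg two_ne_zero]
    have h1 := DFunLike.congr_fun hw (1 : ℤ)
    have h2 : f 1 = Additive.ofMul (Units.mk0 (2 : K) two_ne_zero) := by
      change Additive.ofMul (two ^ (1 : ℤ)) = _
      rw [zpow_one]
    rw [AddMonoidHom.comp_apply, h2] at h1
    rw [h1]
    simp [g]

variable {K : Type*} [Field K] {m : Type*} [Fintype m] [DecidableEq m]

/-- An irreducible pair is split with one summand. -/
lemma isSplit_top {J : Matrix m m K} {G : Subgroup (Matrix.GeneralLinearGroup m K)}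
    (hirr : Irr G) : IsSplit J G (fun _ : Unit => ⊤) := by
  refine ⟨?_, ?_, fun _ _ _ _ _ => trivial, ?_, ?_⟩
  · rw [DirectSum.isInternal_submodule_iff_iSupIndep_and_iSup_eq_top]
    refine ⟨?_, by simp⟩
    intro i
    simp
  · intro i j hij
    exact absurd (Subsingleton.elim i j) hij
  · intro _ U _ hU
    exact hirr U hU
  · intro i j hij
    exact absurd (Subsingleton.elim i j) hij

/-- The slopes on the whole space. -/
lemma exists_slopes_top (v : K → ℚ) (γ : Matrix.GeneralLinearGroup m K) :
    ∃ φ : Module.End K (⊤ : Submodule K (m → K)),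
      (∀ w : (⊤ : Submodule K (m → K)), (φ w : m → K) = (γ : Matrix m m K).mulVec (w : m → K)) ∧
      ∀ a, (slopes v φ).count a = smult v γ a := by
  classical
  let φ : Module.End K (⊤ : Submodule K (m → K)) :=
    (Matrix.toLin' (γ : Matrix m m K)).restrict (p := ⊤) (q := ⊤) (fun _ _ => trivial)
  refine ⟨φ, fun w => rfl, fun a => ?_⟩
  have h1 : φ.charpoly = (γ : Matrix m m K).charpoly := by
    rw [← Matrix.charpoly_toLin', ← LinearEquiv.charpoly_conj Submodule.topEquiv φ]
    congr 1
  rw [slopes, smult, h1, Multiset.count_map]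
  congr 1
  apply Multiset.filter_congr
  intro x _
  exact eq_comm

/-- **The Newton polygon criterion with its optimal bound.** -/
theorem newton_split_iff (K : Type*) [Field K] [IsAlgClosed K] [CharZero K] (N : ℕ) :
    (∀ (m ι : Type) [Fintype m] [DecidableEq m] [Fintype ι] [DecidableEq ι]
      (J : Matrix m m K) (G : Subgroup (Matrix.GeneralLinearGroup m K))
      (W : ι → Submodule K (m → K)), IsMTPair J G → IsSplit J G W →
      (∀ j, ∃ γ ∈ G, ∃ v : K → ℚ, (∀ x y, x ≠ 0 → y ≠ 0 → v (x * y) = v x + v y) ∧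
        ∃ φ : Module.End K (W j),
          (∀ w : W j, (φ w : m → K) = (γ : Matrix m m K).mulVec (w : m → K)) ∧
          HasCut N (slopes v φ)) →
      IsFull J G W) ↔ N ≤ 3 := by
  constructor
  · intro h
    by_contra hN
    obtain ⟨v, hv, hv2⟩ := exists_val K
    obtain ⟨G, h1, h2, ⟨γ, hγ, h3, ⟨a, ha, h4⟩, h5⟩, g, hg, hgG⟩ :=
      newton_sharp (K := K) (b := 2) two_ne_zero hv hv2 le_rfl
    apply hgG
    apply h _ Unit (Jm K 2) G (fun _ => ⊤) h1 (isSplit_top h2) _ g ⟨1, hg⟩
      (fun _ _ _ => trivial)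
    intro _
    obtain ⟨φ, hφ, hφc⟩ := exists_slopes_top v γ
    refine ⟨γ, hγ, v, hv, φ, hφ, {0}, ⟨0, ?_, rfl⟩, ⟨a, ?_, ha⟩, ?_⟩
    · rw [← Multiset.count_pos, hφc, Nat.pos_iff_ne_zero]; exact h3
    · rw [← Multiset.count_pos, hφc, Nat.pos_iff_ne_zero]; exact h4
    · rintro a - b hb rfl hb0 r hr
      have hb0' : b ≠ 0 := hb0
      have h6 := h5 b hb0' (by rw [← hφc, ← Nat.pos_iff_ne_zero, Multiset.count_pos]; exact hb) r
        (by
          intro c
          have := hr c
          rw [hφc, sub_zero] at this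
          exact this)
      omega
  · intro hN m ι _ _ _ _ J G W hG hW hs
    apply newton_split hG hW
    intro j
    obtain ⟨γ, hγ, v, hv, φ, hφ, A, h1, h2, h3⟩ := hs j
    exact ⟨γ, hγ, v, hv, φ, hφ, A, h1, h2, fun a ha b hb haA hbA r hr =>
      (h3 a ha b hb haA hbA r hr).trans hN⟩

end MTP
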