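import Pool.Agent.Helper98.MT.GSplit

/-!
The Newton polygon criterion for split pairs.
-/

open Module MTPairs

namespace MTP

/-- `r` is a matching of the multiset of slopes `P` with difference `d`: `r a` members `a` of `P`
are matched with `r a` members `a + d`, and every member is used at most once. -/
def IsMatching (P : Multiset ℚ) (d : ℚ) (r : ℚ → ℕ) : Prop := ∀ a, r a + r (a - d) ≤ P.count a

/-- The multiset `P` of slopes can be split into two nonempty parts (the slopes in `A` and the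
slopes outside `A`) such that for `a` in the first part and `b` in the second part every matching
of `P` with difference `b - a` has at most `N` pairs. -/
def HasCut (N : ℕ) (P : Multiset ℚ) : Prop :=
  ∃ A : Set ℚ, (∃ a ∈ P, a ∈ A) ∧ (∃ b ∈ P, b ∉ A) ∧
    ∀ a ∈ P, ∀ b ∈ P, a ∈ A → b ∉ A → ∀ r, IsMatching P (b - a) r → ∑ᶠ c, r c ≤ N

/-- The criterion for one Lie algebra. -/
theorem Ctx.newton_cut {K : Type*} [Field K] [IsAlgClosed K] [CharZero K] {V : Type*}
    [AddCommGroup V] [Module K V] [FiniteDimensional K V] {ω : LinearMap.BilinForm K V}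
    {L : Submodule K (Module.End K V)} {S : Set (Module.End K V)} (hC : Ctx ω L S)
    (halt : ω.IsAlt) {h : Module.End K V} (hh : h ∈ L) (hrsd : RSD {h}) {P : Multiset ℚ} {e : ℚ}
    (hdim : ∀ a : ℚ, finrank K (Module.End.eigenspace h (a : K)) = P.count (a + e))
    (hP : HasCut 3 P) {z : Module.End K V} (hz : IsSk ω z) : z ∈ L := by
  obtain ⟨A, ⟨a₀, ha₀, haA⟩, ⟨b₀, hb₀, hbA⟩, hcut⟩ := hP
  have hne : ∀ a : ℚ, Module.End.eigenspace h (a : K) ≠ ⊥ ↔ a + e ∈ P := by
    intro a
    rw [← Multiset.count_pos, ← hdim, Nat.pos_iff_ne_zero, ne_eq, ne_eq,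
      Submodule.finrank_eq_zero]
  refine hC.newton halt hh hrsd {a | a + e ∈ A} ?_ ?_ ?_ hz
  · refine ⟨a₀ - e, ?_, (hne _).mpr ?_⟩
    · rw [Set.mem_ofPred_eq, sub_add_cancel]; exact haA
    · rwa [sub_add_cancel]
  · refine ⟨b₀ - e, ?_, (hne _).mpr ?_⟩
    · rw [Set.mem_ofPred_eq, sub_add_cancel]; exact hbA
    · rwa [sub_add_cancel]
  · intro a a' ha ha' h0 h0' r hr
    have h1 := hcut (a + e) ((hne a).mp h0) (a' + e) ((hne a').mp h0') ha ha'
      (fun c => r (c - e)) (by
        intro c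
        have h2 := hr (c - e)
        rw [hdim, sub_add_cancel] at h2
        have h3 : c - (a' + e - (a + e)) - e = c - e - (a' - a) := by ring
        change r (c - e) + r (c - (a' + e - (a + e)) - e) ≤ _
        rw [h3]
        exact h2)
    have h4 : ∑ᶠ c, r (c - e) = ∑ᶠ c, r c :=
      finsum_comp_equiv (Equiv.subRight e) (f := r)
    rw [h4] at h1
    exact h1

/-- **Newton polygon criterion** for split pairs. -/
theorem newton_split {K : Type*} [Field K] [IsAlgClosed K] [CharZero K] {m ι : Type*}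
    [Fintype m] [DecidableEq m] [Fintype ι] [DecidableEq ι] {J : Matrix m m K}
    {G : Subgroup (Matrix.GeneralLinearGroup m K)} {W : ι → Submodule K (m → K)}
    (hG : IsMTPair J G) (hW : IsSplit J G W)
    (hs : ∀ j, ∃ γ ∈ G, ∃ v : K → ℚ, (∀ x y, x ≠ 0 → y ≠ 0 → v (x * y) = v x + v y) ∧
      ∃ φ : Module.End K (W j),
        (∀ w : W j, (φ w : m → K) = (γ : Matrix m m K).mulVec (w : m → K)) ∧
        HasCut 3 (slopes v φ)) :
    IsFull J G W := by
  have hnt : ∀ j, W j ≠ ⊥ := by
    intro j hj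
    obtain ⟨γ, -, v, -, φ, -, A, ⟨a, ha, -⟩, -⟩ := hs j
    rw [slopes] at ha
    have h1 : φ.charpoly.roots = 0 := by
      rw [← Multiset.card_eq_zero]
      have h2 := φ.charpoly.card_roots'
      rw [LinearMap.charpoly_natDegree] at h2
      have h3 : finrank K (W j) = 0 := by rw [hj, finrank_bot]
      omega
    rw [h1] at ha
    simp at ha
  obtain ⟨L, S, hctx, hsl, -, hfin⟩ := exists_lie_split hG hW hnt
  apply hfin
  intro j z hz
  obtain ⟨γ, hγ, v, hv, φ, hφ, hP⟩ := hs j
  obtain ⟨e, h, hh, hrsd, hdim⟩ := hsl γ hγ v hv j φ hφ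
  exact (hctx j).newton_cut (form_alt hG.skew j) hh hrsd hdim hP hz

end MTP
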