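import Pool.Agent.Helper98.MT.RankTwo

/-!
A square zero element of rank one forces `L` to be the full symplectic Lie algebra.
-/

open Module Polynomial

namespace MTP

variable {K : Type*} [Field K] {V : Type*} [AddCommGroup V] [Module K V] [FiniteDimensional K V]
variable {ω : LinearMap.BilinForm K V} {L : Submodule K (Module.End K V)}
  {S : Set (Module.End K V)}

/-- The rank drops when a rank one piece is removed. -/
lemma rk_peel [CharZero K] (halt : ω.IsAlt) {x : Module.End K V} (hx : IsSk ω x) {a : V}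
    (ha : ω a (x a) ≠ 0) : rk (x + (ω a (x a))⁻¹ • tv ω (x a)) < rk x := by
  set x' := x + (ω a (x a))⁻¹ • tv ω (x a) with hx'
  have h1 : LinearMap.ker x < LinearMap.ker x' := by
    rw [SetLike.lt_iff_le_and_exists]
    refine ⟨fun k hk => (peel halt hx ha hk).2.1, a, (peel halt hx ha (map_zero x)).1, ?_⟩
    intro h
    rw [LinearMap.mem_ker] at h
    rw [h, map_zero] at ha
    exact ha rfl
  have h2 := Submodule.finrank_lt_finrank_of_lt h1
  have h3 := LinearMap.finrank_range_add_finrank_ker x
  have h4 := LinearMap.finrank_range_add_finrank_ker x'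
  unfold rk
  omega

omit [FiniteDimensional K V] in
/-- The polarisation of `tv`. -/
lemma tv_add (a b : V) : tv ω (a + b) = tv ω a + tv ω b + ((ω a).smulRight b + (ω b).smulRight a) := by
  ext z
  simp only [tv_apply, LinearMap.add_apply, map_add, LinearMap.smulRight_apply]
  module

omit [FiniteDimensional K V] in
lemma tv_comm (halt : ω.IsAlt) (a b : V) : tv ω a * tv ω b - tv ω b * tv ω a =
    ω a b • ((ω a).smulRight b + (ω b).smulRight a) := by
  ext z
  have h := halt.neg_eq a b
  simp only [tv_apply, LinearMap.sub_apply, LinearMap.add_apply, LinearMap.smul_apply,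
    Module.End.mul_apply, map_smul, smul_eq_mul, LinearMap.smulRight_apply]
  rw [← h]
  module

omit [FiniteDimensional K V] in
lemma tv_smul (c : K) (a : V) : tv ω (c • a) = c ^ 2 • tv ω a := by
  ext z
  simp only [tv_apply, LinearMap.smul_apply, map_smul, smul_eq_mul]
  module

section
variable [CharZero K]

lemma Ctx.tv_torus (hC : Ctx ω L S) {s : Module.End K V} (hs : s ∈ S) {t : K} (ht : t ≠ 0) {u : V}
    (hu : tv ω u ∈ L) : tv ω ((t • pp s + qq s) u) ∈ L := by
  obtain ⟨hsL, hss⟩ := hC.inv s hs
  have hsk := hC.irr.sk s hsL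
  have h := L.smul_mem t (hC.torus_mem hs ht hu)
  have e : tv ω ((t • pp s + qq s) u) =
      t • ((t • pp s + qq s) * tv ω u * (t⁻¹ • pp s + qq s)) := by
    ext z
    have h1 := adj_pp hsk u z
    have h2 := adj_qq hsk u z
    simp only [tv_apply, LinearMap.smul_apply, Module.End.mul_apply, LinearMap.add_apply,
      map_add, map_smul, smul_eq_mul, h1, h2]
    match_scalars <;> (try field_simp) <;> ring
  rw [e]
  exact h

lemma Ctx.tv_word (hC : Ctx ω L S) {l : List (K × Module.End K V)} (hl : Adm S l) {u : V}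
    (hu : tv ω u ∈ L) : tv ω (wd l u) ∈ L := by
  induction l with
  | nil => simpa [wd] using hu
  | cons p l ih =>
    have h1 := ih (fun q hq => hl q (List.mem_cons_of_mem _ hq))
    obtain ⟨ht, hs⟩ := hl p (List.mem_cons_self ..)
    exact hC.tv_torus hs ht h1

lemma Ctx.tv_pair (hC : Ctx ω L S) (halt : ω.IsAlt) {a b : V} (ha : tv ω a ∈ L) (hb : tv ω b ∈ L)
    (hab : ω a b ≠ 0) : tv ω (a + b) ∈ L := by
  have h := hC.irr.br _ ha _ hb
  rw [tv_comm halt] at h
  have h1 := L.smul_mem (ω a b)⁻¹ h
  rw [smul_smul, inv_mul_cancel₀ hab, one_smul] at h1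
  rw [tv_add]
  exact L.add_mem (L.add_mem ha hb) h1

lemma Ctx.tv_add_mem (hC : Ctx ω L S) (halt : ω.IsAlt) {a b : V} (ha : tv ω a ∈ L)
    (hb : tv ω b ∈ L) : tv ω (a + b) ∈ L := by
  by_cases ha0 : a = 0
  · rw [ha0, zero_add]; exact hb
  by_cases hb0 : b = 0
  · rw [hb0, add_zero]; exact ha
  by_cases hab : ω a b = 0
  · have hfa : (ω a) ≠ 0 := fun h => ha0 (hC.nd.1 a (fun z => by rw [h]; rfl))
    have hfb : (ω b) ≠ 0 := fun h => hb0 (hC.nd.1 b (fun z => by rw [h]; rfl))
    obtain ⟨l₁, hl₁, hf₁⟩ := hC.exists_word ha0 hfa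
    obtain ⟨l₂, hl₂, hf₂⟩ := hC.exists_word ha0 hfb
    obtain ⟨l, hl, h1, h2⟩ := exists_both hl₁ hl₂ hf₁ hf₂
    set c := wd l a with hc
    have hcL : tv ω c ∈ L := hC.tv_word hl ha
    have key : ∀ k : K, k ≠ 0 → tv ω (a + b + k • c) ∈ L := by
      intro k hk
      have hkc : tv ω (k • c) ∈ L := by rw [tv_smul]; exact L.smul_mem _ hcL
      have h3 : tv ω (a + k • c) ∈ L := by
        apply hC.tv_pair halt ha hkc
        rw [map_smul, smul_eq_mul]
        exact mul_ne_zero hk h1
      have h4 : tv ω (b + (a + k • c)) ∈ L := by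
        apply hC.tv_pair halt hb h3
        have h5 := halt.neg_eq a b
        rw [hab, neg_zero] at h5
        rw [map_add, ← h5, zero_add, map_smul, smul_eq_mul]
        exact mul_ne_zero hk h2
      have e : a + b + k • c = b + (a + k • c) := by abel
      rw [e]; exact h4
    have k1 := key 1 one_ne_zero
    have k2 := key 2 two_ne_zero
    have e : tv ω (a + b) = (2 : K) • tv ω (a + b + (1 : K) • c) - tv ω (a + b + (2 : K) • c)
        + (2 : K) • tv ω c := by
      ext z
      simp only [tv_apply, LinearMap.smul_apply, LinearMap.add_apply, LinearMap.sub_apply,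
        map_add, map_smul, smul_eq_mul]
      match_scalars <;> ring
    rw [e]
    exact L.add_mem (L.sub_mem (L.smul_mem _ k1) k2) (L.smul_mem _ hcL)
  · exact hC.tv_pair halt ha hb hab

/-- An element of rank one forces `L` to be the symplectic Lie algebra. -/
theorem Ctx.eq_sp_of_rank_one (hC : Ctx ω L S) (halt : ω.IsAlt) {y : Module.End K V} (hy : y ∈ L)
    (hr : rk y = 1) {z : Module.End K V} (hz : IsSk ω z) : z ∈ L := by
  have hysk := hC.irr.sk y hy
  have hy0 : y ≠ 0 := by
    rintro rfl
    have : rk (0 : Module.End K V) = 0 := rk_eq_zero.mpr rfl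
    omega
  obtain ⟨a, ha⟩ := exists_quad hC.nd halt hysk hy0
  have h1 := rk_peel halt hysk ha
  rw [hr, Nat.lt_one_iff, rk_eq_zero] at h1
  have hya : tv ω (y a) ∈ L := by
    have h2 : tv ω (y a) = (-(ω a (y a))) • y := by
      have h3 : (ω a (y a))⁻¹ • tv ω (y a) = -y := eq_neg_of_add_eq_zero_right h1
      calc tv ω (y a) = (ω a (y a)) • ((ω a (y a))⁻¹ • tv ω (y a)) := by
            rw [smul_smul, mul_inv_cancel₀ ha, one_smul]
        _ = _ := by rw [h3, smul_neg, neg_smul]
    rw [h2]
    exact L.smul_mem _ hy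
  have hya0 : y a ≠ 0 := by intro h; rw [h, map_zero] at ha; exact ha rfl
  let U : Submodule K V :=
    { carrier := {u | tv ω u ∈ L}
      add_mem' := by intro a b ha hb; exact hC.tv_add_mem halt ha hb
      zero_mem' := by
        change tv ω 0 ∈ L
        have : tv ω (0 : V) = 0 := by ext z; simp
        rw [this]; exact L.zero_mem
      smul_mem' := by
        intro c a ha
        change tv ω (c • a) ∈ L
        rw [tv_smul]; exact L.smul_mem _ ha }
  have hU : U = ⊤ := by
    rcases hC.stable_of_inv U (fun s hs u hu => by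
      have h2 : ((2 : K) • pp s + qq s) u ∈ U := hC.tv_torus hs two_ne_zero hu
      have e : s u = (2 : K) • ((2 : K) • pp s + qq s) u - (3 : K) • u := by
        unfold pp qq
        simp only [LinearMap.add_apply, LinearMap.smul_apply, LinearMap.sub_apply,
          Module.End.one_apply]
        match_scalars <;> field_simp <;> norm_num
      rw [e]
      exact U.sub_mem (U.smul_mem _ h2) (U.smul_mem _ hu)) with h | h
    · exfalso
      have : y a ∈ U := hya
      rw [h, Submodule.mem_bot] at this
      exact hya0 this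
    · exact h
  have hall : ∀ u, tv ω u ∈ L := by
    intro u
    have : u ∈ U := by rw [hU]; trivial
    exact this
  -- induction on the rank
  have main : ∀ n : ℕ, ∀ z : Module.End K V, IsSk ω z → rk z ≤ n → z ∈ L := by
    intro n
    induction n with
    | zero =>
      intro z _ h
      have : z = 0 := rk_eq_zero.mp (Nat.le_zero.mp h)
      rw [this]; exact L.zero_mem
    | succ n ih =>
      intro z hz h
      by_cases hz0 : z = 0
      · rw [hz0]; exact L.zero_mem
      obtain ⟨a, ha⟩ := exists_quad hC.nd halt hz hz0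
      have h2 := rk_peel halt hz ha
      have h3 := ih _ (peel halt hz ha (map_zero z)).2.2 (by omega)
      have h4 := L.sub_mem h3 (L.smul_mem (ω a (z a))⁻¹ (hall (z a)))
      rwa [add_sub_cancel_right] at h4
  exact main _ z hz le_rfl

/-- A nonzero square zero element of rank at most two forces `L` to be the symplectic Lie
algebra. -/
theorem Ctx.eq_sp_of_rank_le_two [IsAlgClosed K] (hC : Ctx ω L S) (halt : ω.IsAlt)
    {x : Module.End K V} (hx : x ∈ L) (hx0 : x ≠ 0) (hxx : x * x = 0) (hr : rk x ≤ 2)
    {z : Module.End K V} (hz : IsSk ω z) : z ∈ L := by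
  have h1 : 0 < rk x := rk_pos.mpr hx0
  rcases (by omega : rk x = 1 ∨ rk x = 2) with h | h
  · exact hC.eq_sp_of_rank_one halt hx h hz
  · obtain ⟨y, hy, _, hy1⟩ := hC.exists_rank_one_of_two halt hx hxx h
    exact hC.eq_sp_of_rank_one halt hy hy1 hz

end

end MTP
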