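import Pool.Agent.Helper98.MT.Grade
import Pool.Agent.Helper98.MT.Proj

/-!
Homogeneous square zero elements for a rational space of diagonal operators, and the doubly
transitive case.
-/

open Module Matrix

namespace MTP

variable {K : Type*} [Field K] {V : Type*} [AddCommGroup V] [Module K V] [FiniteDimensional K V]
variable {ω : LinearMap.BilinForm K V} {L : Submodule K (Module.End K V)}
  {S : Set (Module.End K V)} {I : Type*} [Fintype I] [DecidableEq I]

/-- A nonzero square zero element of `L` which is homogeneous of nonzero weight for a rational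
space of diagonal operators in `L`. -/
theorem Ctx.exists_hom_T [CharZero K] (hC : Ctx ω L S) (b : Basis I K V) {T : Type*}
    [AddCommGroup T] [Module ℚ T] (wt : I → Module.Dual ℚ T)
    (hT : ∀ t : T, ∃ D ∈ L, ∀ i, D (b i) = (wt i t : K) • b i) (hne : ∃ i j, wt i ≠ wt j) :
    ∃ α : Module.Dual ℚ T, α ≠ 0 ∧ ∃ x ∈ L, x ≠ 0 ∧ x * x = 0 ∧
      ∀ i j, en b x i j ≠ 0 → wt i - wt j = α := by
  classical
  let φ : (I × I) × (I × I) → Module.Dual ℚ T := fun q =>
    (wt q.1.1 - wt q.1.2) - (wt q.2.1 - wt q.2.2)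
  obtain ⟨t, ht⟩ := Module.Dual.exists_forall_ne_zero_of_forall_exists
    (fun q : {q : (I × I) × (I × I) // φ q ≠ 0} => φ q.1) (by
      rintro ⟨q, hq⟩
      by_contra hcon
      push Not at hcon
      exact hq (LinearMap.ext hcon))
  have key : ∀ q : (I × I) × (I × I), φ q t = 0 → φ q = 0 := by
    intro q hq
    by_contra hcon
    exact ht ⟨q, hcon⟩ hq
  obtain ⟨i₁, j₁, h₁⟩ := hne
  have hχ : ∃ i j, wt i t ≠ wt j t := by
    refine ⟨i₁, j₁, fun h => h₁ ?_⟩
    have h2 := key ((i₁, j₁), (i₁, i₁)) (by simp [φ, h])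
    simp only [φ, sub_self, sub_zero] at h2
    exact sub_eq_zero.mp h2
  obtain ⟨D, hD, hDb⟩ := hT t
  obtain ⟨c, hc, x, hx, hx0, hxx, hxe⟩ := hC.exists_hom (χ := fun i => wt i t) b hDb hD hχ
  obtain ⟨i₀, j₀, h₀⟩ : ∃ i j, en b x i j ≠ 0 := by
    by_contra hcon
    push Not at hcon
    apply hx0
    apply en_ext b
    intro i j
    rw [hcon]
    simp [en]
  have hc0 := hxe i₀ j₀ h₀
  refine ⟨wt i₀ - wt j₀, ?_, x, hx, hx0, hxx, ?_⟩
  · intro h
    apply hc
    rw [← hc0, ← LinearMap.sub_apply, h, LinearMap.zero_apply]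
  · intro i j hij
    have h2 := key ((i, j), (i₀, j₀)) (by
      simp only [φ, LinearMap.sub_apply]
      rw [hxe i j hij, hc0, sub_self])
    exact sub_eq_zero.mp h2

/-- The doubly transitive case. -/
theorem Ctx.twoTrans [IsAlgClosed K] [CharZero K] (hC : Ctx ω L S) (halt : ω.IsAlt)
    {ι : Type*} [Fintype ι] [DecidableEq ι] (b : Basis (ι ⊕ ι) K V)
    (T : Submodule ℚ (ι → ℚ)) (hrk : 2 ≤ finrank ℚ T) (hTT : TwoTrans T)
    (hT : ∀ t ∈ T, ∃ D ∈ L, ∀ i, D (b (Sum.inl i)) = (t i : K) • b (Sum.inl i) ∧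
      D (b (Sum.inr i)) = (-t i : K) • b (Sum.inr i))
    (hex : (Fintype.card ι, finrank ℚ T) ∉ ({(4, 3), (10, 5), (16, 6), (28, 7)} : Set (ℕ × ℕ)))
    {z : Module.End K V} (hz : IsSk ω z) : z ∈ L := by
  obtain ⟨p, H⟩ := exists_repr T
  obtain ⟨ρ, κ, hρ, hκρ, hd, ho, h3, h4⟩ := hTT.gram hrk H
  -- signed vectors
  let q : ι ⊕ ι → (ι → ℚ) := Sum.elim p (fun i => -p i)
  let wt : ι ⊕ ι → Module.Dual ℚ T := fun A =>
    { toFun := fun t => q A ⬝ᵥ (t : ι → ℚ)
      map_add' := by intro x y; simp [dotProduct_add]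
      map_smul' := by intro c x; simp }
  have hq : ∀ A, q A ∈ T := by
    rintro (i | i)
    · exact H.mem i
    · exact T.neg_mem (H.mem i)
  have hwt1 : ∀ i (t : T), wt (Sum.inl i) t = (t : ι → ℚ) i := fun i t => H.rep i t t.2
  have hwt2 : ∀ i (t : T), wt (Sum.inr i) t = -(t : ι → ℚ) i := by
    intro i t
    change (-p i) ⬝ᵥ (t : ι → ℚ) = _
    rw [neg_dotProduct, H.rep i t t.2]
  have hT' : ∀ t : T, ∃ D ∈ L, ∀ A, D (b A) = (wt A t : K) • b A := by
    intro t
    obtain ⟨D, hD, hDb⟩ := hT t t.2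
    refine ⟨D, hD, ?_⟩
    rintro (i | i)
    · rw [hwt1, (hDb i).1]
    · rw [hwt2, (hDb i).2]; push_cast; rfl
  have hinj : ∀ A B, wt A = wt B → q A = q B := by
    intro A B h
    have h1 : ∀ t ∈ T, (q A - q B) ⬝ᵥ t = 0 := by
      intro t ht
      rw [sub_dotProduct, sub_eq_zero]
      exact congrArg (fun φ => φ ⟨t, ht⟩) h
    have h2 := h1 _ (T.sub_mem (hq A) (hq B))
    rw [dotProduct_self_eq_zero] at h2
    exact sub_eq_zero.mp h2
  -- Gram matrix of the signed vectors
  let ln : ι ⊕ ι → ι := Sum.elim id id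
  have hGself : ∀ A, q A ⬝ᵥ q A = ρ := by
    rintro (i | i)
    · change p i ⬝ᵥ p i = ρ
      rw [H.dot, hd]
    · change (-p i) ⬝ᵥ (-p i) = ρ
      rw [neg_dotProduct_neg, H.dot, hd]
  have hGline : ∀ A B, ln A = ln B → A ≠ B → q A = -q B := by
    rintro (i | i) (j | j) h hne
    · exact absurd (congrArg Sum.inl h) hne
    · change p i = - -p j
      have : i = j := h
      rw [this, neg_neg]
    · change -p i = -p j
      have : i = j := h
      rw [this]
    · exact absurd (congrArg Sum.inr h) hne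
  have hGoff : ∀ A B, ln A ≠ ln B → (q A ⬝ᵥ q B) ^ 2 = κ := by
    rintro (i | i) (j | j) h
    · change (p i ⬝ᵥ p j) ^ 2 = κ
      rw [H.dot]; exact ho j i (Ne.symm h)
    · change (p i ⬝ᵥ (-p j)) ^ 2 = κ
      rw [dotProduct_neg, H.dot, neg_sq]; exact ho j i (Ne.symm h)
    · change ((-p i) ⬝ᵥ p j) ^ 2 = κ
      rw [neg_dotProduct, H.dot, neg_sq]; exact ho j i (Ne.symm h)
    · change ((-p i) ⬝ᵥ (-p j)) ^ 2 = κ
      rw [neg_dotProduct_neg, H.dot]; exact ho j i (Ne.symm h)
  have h9 : 9 * κ ≠ ρ ^ 2 := fun h => hex (TwoTrans.exceptional hrk H hκρ hρ hd ho h3 h4 h)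
  have hne : ∃ A B, wt A ≠ wt B := by
    have hcard : 2 ≤ Fintype.card ι := by
      have h1 := Submodule.finrank_le T
      rw [finrank_fintype_fun_eq_card] at h1
      omega
    have hι : Nonempty ι := Fintype.card_pos_iff.mp (by omega)
    obtain ⟨i⟩ := hι
    refine ⟨Sum.inl i, Sum.inr i, fun h => ?_⟩
    have h1 := hinj _ _ h
    have h2 : p i = -p i := h1
    have h5 := hd i
    have h6 := congrFun h2 i
    rw [Pi.neg_apply, h5] at h6
    linarith
  obtain ⟨α, hα, x, hx, hx0, hxx, hxe⟩ := hC.exists_hom_T b wt hT' hne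
  -- all nonzero entries have the same difference of signed vectors
  obtain ⟨I₁, J₁, h₁⟩ : ∃ i j, en b x i j ≠ 0 := by
    by_contra hcon
    push Not at hcon
    apply hx0
    apply en_ext b
    intro i j
    rw [hcon]
    simp [en]
  have hα1 := hxe I₁ J₁ h₁
  have hne1 : q I₁ ≠ q J₁ := by
    intro h
    apply hα
    rw [← hα1, sub_eq_zero]
    ext t
    change q I₁ ⬝ᵥ (t : ι → ℚ) = q J₁ ⬝ᵥ (t : ι → ℚ)
    rw [h]
  have hq1 : ∀ I' J', en b x I' J' ≠ 0 → q I' = q J' + (q I₁ - q J₁) := by
    intro I' J' h'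
    have h5 := hxe I' J' h'
    rw [← hα1] at h5
    have h6 : ∀ t ∈ T, (q I' - q J' - (q I₁ - q J₁)) ⬝ᵥ t = 0 := by
      intro t ht
      rw [sub_dotProduct, sub_eq_zero, sub_dotProduct, sub_dotProduct]
      exact congrArg (fun φ => φ ⟨t, ht⟩) h5
    have h7 := h6 _ (T.sub_mem (T.sub_mem (hq I') (hq J')) (T.sub_mem (hq I₁) (hq J₁)))
    rw [dotProduct_self_eq_zero] at h7
    rw [← sub_eq_zero, ← h7]
    abel
  -- the sources
  obtain ⟨I₁', hI₁'⟩ : ∃ I₁' : ι ⊕ ι, I₁' ≠ I₁ ∧ ln I₁' = ln I₁ := by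
    rcases I₁ with i | i
    · exact ⟨Sum.inr i, by simp, rfl⟩
    · exact ⟨Sum.inl i, by simp, rfl⟩
  have hsrc : ∀ I' J', en b x I' J' ≠ 0 → J' ∈ ({J₁, I₁'} : Finset (ι ⊕ ι)) := by
    intro I' J' h'
    rw [Finset.mem_insert, Finset.mem_singleton]
    have h5 := hq1 I' J' h'
    have h6 : q J' ⬝ᵥ q I₁ - q J' ⬝ᵥ q J₁ = -(ρ - q I₁ ⬝ᵥ q J₁) := by
      have e1 := hGself I'
      rw [h5] at e1
      simp only [add_dotProduct, dotProduct_add, sub_dotProduct, dotProduct_sub] at e1
      rw [hGself, hGself, hGself, dotProduct_comm (q J₁) (q I₁), dotProduct_comm (q I₁) (q J'),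
        dotProduct_comm (q J₁) (q J')] at e1
      linear_combination (1 / 2) * e1
    by_cases hl : ln I₁ = ln J₁
    · -- opposite vectors
      have hIJ : I₁ ≠ J₁ := fun h => hne1 (by rw [h])
      have e1 := hGline _ _ hl hIJ
      rw [e1, dotProduct_neg, neg_dotProduct, hGself] at h6
      have e2 : q J' ⬝ᵥ q J₁ = ρ := by linarith
      left
      by_contra hJ
      by_cases hl2 : ln J' = ln J₁
      · have e3 := hGline _ _ hl2 hJ
        rw [e3, neg_dotProduct, hGself] at e2
        linarith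
      · have e3 := hGoff _ _ hl2
        rw [e2] at e3
        exact hκρ e3.symm
    · have c1 := hGoff _ _ hl
      by_cases hJ : J' = J₁
      · exact Or.inl hJ
      right
      by_cases hl2 : ln J' = ln J₁
      · exfalso
        have e3 := hGline _ _ hl2 hJ
        rw [e3, neg_dotProduct, neg_dotProduct, hGself, dotProduct_comm (q J₁) (q I₁)] at h6
        have e4 : q I₁ ⬝ᵥ q J₁ = ρ := by linarith
        rw [e4] at c1
        exact hκρ c1.symm
      by_cases hl3 : ln J' = ln I₁
      · by_cases hJI : J' = I₁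
        · exfalso
          rw [hJI, hGself] at h6
          have e4 : q I₁ ⬝ᵥ q J₁ = ρ := by linarith
          rw [e4] at c1
          exact hκρ c1.symm
        · -- on one line there are two signed indices
          have : ∀ A B C : ι ⊕ ι, ln A = ln C → ln B = ln C → A ≠ C → B ≠ C → A = B := by
            rintro (a | a) (b | b) (c | c) h1 h2 h3 h4
            · exact absurd (congrArg Sum.inl h1) h3
            · have : a = b := h1.trans h2.symm
              rw [this]
            · exact absurd (congrArg Sum.inl h1) h3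
            · exact absurd (congrArg Sum.inr h2) h4
            · exact absurd (congrArg Sum.inl h2) h4
            · exact absurd (congrArg Sum.inr h1) h3
            · have : a = b := h1.trans h2.symm
              rw [this]
            · exact absurd (congrArg Sum.inr h1) h3
          exact this _ _ _ hl3 hI₁'.2 hJI hI₁'.1
      · exfalso
        have a1 := hGoff _ _ hl3
        have b1 := hGoff _ _ hl2
        set a := q J' ⬝ᵥ q I₁ with ha
        set b' := q J' ⬝ᵥ q J₁ with hb'
        set c := q I₁ ⬝ᵥ q J₁ with hc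
        have hab : (a - b') * (a + b') = 0 := by linear_combination a1 - b1
        rcases mul_eq_zero.mp hab with h7 | h7
        · have : c = ρ := by linarith
          rw [this] at c1
          exact hκρ c1.symm
        · have h8 : 2 * a = c - ρ := by linarith
          have hac : (a - c) * (a + c) = 0 := by linear_combination a1 - c1
          rcases mul_eq_zero.mp hac with h9' | h9'
          · have : a = -ρ := by linarith
            rw [this, neg_sq] at a1
            exact hκρ a1.symm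
          · have : 3 * a = -ρ := by linarith
            apply h9
            rw [← a1]
            have : ρ = -(3 * a) := by linarith
            rw [this]; ring
  have hr : rk x ≤ 2 := by
    refine (rk_le_card b x _ hsrc).trans ?_
    exact (Finset.card_insert_le _ _).trans (by simp)
  exact hC.eq_sp_of_rank_le_two halt hx hx0 hxx hr hz

end MTP
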