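import Pool.Agent.Helper21.MT.Span

/-!
Words in the tori attached to involutions.
-/

open Module Polynomial

namespace MTP

variable {K : Type*} [Field K] {V : Type*} [AddCommGroup V] [Module K V] [FiniteDimensional K V]
variable {ω : LinearMap.BilinForm K V} {L : Submodule K (Module.End K V)}
  {S : Set (Module.End K V)}

/-- The product of the torus elements `t • pp s + qq s`, `(t, s)` running over a list. -/
noncomputable def wd : List (K × Module.End K V) → Module.End K V
  | [] => 1
  | p :: l => (p.1 • pp p.2 + qq p.2) * wd l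

/-- A list of admissible pairs: `t ≠ 0` and `s ∈ S`. -/
def Adm (S : Set (Module.End K V)) (l : List (K × Module.End K V)) : Prop :=
  ∀ p ∈ l, p.1 ≠ 0 ∧ p.2 ∈ S

omit [FiniteDimensional K V] in
lemma wd_append (l l' : List (K × Module.End K V)) : wd (l ++ l') = wd l * wd l' := by
  induction l with
  | nil => simp [wd]
  | cons p l ih => simp [wd, ih, mul_assoc]

/-- The list obtained by evaluating polynomial parameters. -/
noncomputable def evl (a : K) (l : List (K[X] × Module.End K V)) : List (K × Module.End K V) :=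
  l.map fun p => (p.1.eval a, p.2)

omit [FiniteDimensional K V] in
lemma exists_poly (l : List (K[X] × Module.End K V)) (v : V) (f : V →ₗ[K] K) :
    ∃ p : K[X], ∀ a, p.eval a = f (wd (evl a l) v) := by
  induction l generalizing f with
  | nil => exact ⟨C (f v), fun a => by simp [evl, wd]⟩
  | cons q l ih =>
    obtain ⟨p1, h1⟩ := ih (f.comp (pp q.2))
    obtain ⟨p2, h2⟩ := ih (f.comp (qq q.2))
    refine ⟨q.1 * p1 + p2, fun a => ?_⟩
    rw [eval_add, eval_mul, h1, h2]
    simp [evl, wd, Module.End.mul_apply]

section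
variable [CharZero K]

omit [FiniteDimensional K V] in
/-- Two linear conditions on words which can be violated separately can be violated
simultaneously. -/
lemma exists_both {v : V} {f g : V →ₗ[K] K} {l₁ l₂ : List (K × Module.End K V)}
    (h₁ : Adm S l₁) (h₂ : Adm S l₂) (hf : f (wd l₁ v) ≠ 0) (hg : g (wd l₂ v) ≠ 0) :
    ∃ l : List (K × Module.End K V), Adm S l ∧ f (wd l v) ≠ 0 ∧ g (wd l v) ≠ 0 := by
  classical
  let m₁ : List (K[X] × Module.End K V) := l₁.map fun p => (C p.1 + X * C (1 - p.1), p.2)
  let m₂ : List (K[X] × Module.End K V) := l₂.map fun p => (C 1 + X * C (p.1 - 1), p.2)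
  obtain ⟨pf, hpf⟩ := exists_poly (m₁ ++ m₂) v f
  obtain ⟨pg, hpg⟩ := exists_poly (m₁ ++ m₂) v g
  let N : K[X] := ((m₁ ++ m₂).map Prod.fst).prod
  have hone : ∀ l : List (K × Module.End K V), (∀ p ∈ l, p.1 = 1) → wd l = 1 := by
    intro l hl
    induction l with
    | nil => rfl
    | cons p l ih =>
      rw [wd, ih (fun q hq => hl q (List.mem_cons_of_mem _ hq)), hl p (List.mem_cons_self ..), one_smul,
        pp_add_qq, mul_one]
  have e0 : wd (evl 0 (m₁ ++ m₂)) = wd l₁ := by
    have a1 : evl 0 m₁ = l₁ := by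
      simp only [evl, m₁, List.map_map]
      conv_rhs => rw [← List.map_id l₁]
      apply List.map_congr_left
      intro p _
      simp
    have a2 : wd (evl 0 m₂) = 1 := by
      apply hone
      intro p hp
      simp only [evl, m₂, List.map_map, List.mem_map] at hp
      obtain ⟨q, _, rfl⟩ := hp
      simp
    have : evl 0 (m₁ ++ m₂) = evl 0 m₁ ++ evl 0 m₂ := List.map_append ..
    rw [this, wd_append, a1, a2, mul_one]
  have e1 : wd (evl 1 (m₁ ++ m₂)) = wd l₂ := by
    have a2 : evl 1 m₂ = l₂ := by
      simp only [evl, m₂, List.map_map]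
      conv_rhs => rw [← List.map_id l₂]
      apply List.map_congr_left
      intro p _
      simp
    have a1 : wd (evl 1 m₁) = 1 := by
      apply hone
      intro p hp
      simp only [evl, m₁, List.map_map, List.mem_map] at hp
      obtain ⟨q, _, rfl⟩ := hp
      simp
    have : evl 1 (m₁ ++ m₂) = evl 1 m₁ ++ evl 1 m₂ := List.map_append ..
    rw [this, wd_append, a1, a2, one_mul]
  have hN : N ≠ 0 := by
    intro hN
    rw [List.prod_eq_zero_iff] at hN
    rw [List.map_append, List.mem_append] at hN
    rcases hN with hN | hN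
    · simp only [m₁, List.map_map, List.mem_map] at hN
      obtain ⟨q, hq, hq0⟩ := hN
      have := congrArg (eval 0) hq0
      simp at this
      exact (h₁ q hq).1 this
    · simp only [m₂, List.map_map, List.mem_map] at hN
      obtain ⟨q, hq, hq0⟩ := hN
      have := congrArg (eval 0) hq0
      simp at this
  have hpf0 : pf ≠ 0 := by
    rintro rfl
    apply hf
    rw [← e0, ← hpf, eval_zero]
  have hpg0 : pg ≠ 0 := by
    rintro rfl
    apply hg
    rw [← e1, ← hpg, eval_zero]
  obtain ⟨a, ha⟩ : ∃ a, (N * pf * pg).eval a ≠ 0 := by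
    by_contra hcon
    push Not at hcon
    have := Polynomial.funext (p := N * pf * pg) (q := 0) (by intro r; rw [hcon r, eval_zero])
    exact (mul_ne_zero (mul_ne_zero hN hpf0) hpg0) this
  rw [eval_mul, eval_mul] at ha
  have haN : N.eval a ≠ 0 := fun h => ha (by rw [h, zero_mul, zero_mul])
  have haf : pf.eval a ≠ 0 := fun h => ha (by rw [h, mul_zero, zero_mul])
  have hag : pg.eval a ≠ 0 := fun h => ha (by rw [h, mul_zero])
  refine ⟨evl a (m₁ ++ m₂), ?_, by rwa [← hpf], by rwa [← hpg]⟩
  intro p hp
  simp only [evl, List.mem_map] at hp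
  obtain ⟨q, hq, rfl⟩ := hp
  constructor
  · intro h0
    apply haN
    have : N.eval a = ((m₁ ++ m₂).map (fun p => p.1.eval a)).prod := by
      simp only [N]
      rw [Polynomial.eval_list_prod, List.map_map]
      rfl
    rw [this, List.prod_eq_zero_iff, List.mem_map]
    exact ⟨q, hq, h0⟩
  · rw [List.mem_append] at hq
    rcases hq with hq | hq
    · simp only [m₁, List.mem_map] at hq
      obtain ⟨r, hr, rfl⟩ := hq
      exact (h₁ r hr).2
    · simp only [m₂, List.mem_map] at hq
      obtain ⟨r, hr, rfl⟩ := hq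
      exact (h₂ r hr).2

/-- A subspace stable under the generating involutions is trivial. -/
lemma Ctx.stable_of_inv (hC : Ctx ω L S) (W : Submodule K V) (hW : ∀ s ∈ S, ∀ w ∈ W, s w ∈ W) :
    W = ⊥ ∨ W = ⊤ := by
  apply hC.irr.irr
  let M : Submodule K (Module.End K V) :=
    { carrier := {z | ∀ w ∈ W, z w ∈ W}
      add_mem' := by intro a b ha hb w hw; exact W.add_mem (ha w hw) (hb w hw)
      zero_mem' := by intro w _; exact W.zero_mem
      smul_mem' := by intro c a ha w hw; exact W.smul_mem c (ha w hw) }
  have h : L ≤ M := by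
    apply hC.gen
    · intro a ha b hb w hw
      exact W.sub_mem (ha _ (hb w hw)) (hb _ (ha w hw))
    · intro s hs w hw
      exact hW s hs w hw
  intro z hz w hw
  exact h hz w hw

/-- A nonzero vector has a word image outside any hyperplane. -/
lemma Ctx.exists_word (hC : Ctx ω L S) {v : V} (hv : v ≠ 0) {f : V →ₗ[K] K} (hf : f ≠ 0) :
    ∃ l, Adm S l ∧ f (wd l v) ≠ 0 := by
  by_contra hcon
  push Not at hcon
  let W : Submodule K V := Submodule.span K {u | ∃ l, Adm S l ∧ u = wd l v}
  have hW : ∀ s ∈ S, ∀ w ∈ W, s w ∈ W := by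
    intro s hs w hw
    induction hw using Submodule.span_induction with
    | zero => rw [map_zero]; exact W.zero_mem
    | add a b _ _ ha hb => rw [map_add]; exact W.add_mem ha hb
    | smul c a _ ha => rw [map_smul]; exact W.smul_mem _ ha
    | mem u hu =>
      obtain ⟨l, hl, rfl⟩ := hu
      have h2 : ((2 : K) • pp s + qq s) (wd l v) ∈ W := by
        apply Submodule.subset_span
        refine ⟨(2, s) :: l, ?_, rfl⟩
        intro p hp
        rcases List.mem_cons.mp hp with rfl | hp
        · exact ⟨two_ne_zero, hs⟩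
        · exact hl p hp
      have h1 : wd l v ∈ W := Submodule.subset_span ⟨l, hl, rfl⟩
      have e : s (wd l v) = (2 : K) • ((2 : K) • pp s + qq s) (wd l v) - (3 : K) • wd l v := by
        unfold pp qq
        simp only [LinearMap.add_apply, LinearMap.smul_apply, LinearMap.sub_apply,
          Module.End.one_apply]
        match_scalars <;> field_simp <;> norm_num
      rw [e]
      exact W.sub_mem (W.smul_mem _ h2) (W.smul_mem _ h1)
  have hvW : v ∈ W := Submodule.subset_span ⟨[], by intro p hp; simp at hp, rfl⟩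
  rcases hC.stable_of_inv W hW with h | h
  · rw [h, Submodule.mem_bot] at hvW
    exact hv hvW
  · apply hf
    ext u
    have hu : u ∈ W := by rw [h]; trivial
    rw [LinearMap.zero_apply]
    induction hu using Submodule.span_induction with
    | zero => rw [map_zero]
    | add a b _ _ ha hb => rw [map_add, ha, hb, add_zero]
    | smul c a _ ha => rw [map_smul, ha, smul_zero]
    | mem u hu =>
      obtain ⟨l, hl, rfl⟩ := hu
      exact hcon l hl

/-- Words act on `L` by conjugation and preserve the form up to a scalar. -/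
lemma Ctx.word_conj (hC : Ctx ω L S) {l : List (K × Module.End K V)} (hl : Adm S l) :
    ∃ (g' : Module.End K V) (m : K), m ≠ 0 ∧ wd l * g' = 1 ∧ g' * wd l = 1 ∧
      (∀ a b, ω (wd l a) (wd l b) = m * ω a b) ∧ (∀ z ∈ L, g' * z * wd l ∈ L) := by
  induction l with
  | nil =>
    refine ⟨1, 1, one_ne_zero, by simp [wd], by simp [wd], fun a b => by simp [wd],
      fun z hz => by simpa [wd] using hz⟩
  | cons p l ih =>
    obtain ⟨g', m, hm, h1, h2, h3, h4⟩ := ih (fun q hq => hl q (List.mem_cons_of_mem _ hq))
    obtain ⟨ht, hs⟩ := hl p (List.mem_cons_self ..)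
    obtain ⟨hsL, hss⟩ := hC.inv _ hs
    have hsk := hC.irr.sk _ hsL
    have i1 := torus_inv hss ht
    have i2 := torus_inv' hss ht
    refine ⟨g' * ((p.1)⁻¹ • pp p.2 + qq p.2), p.1 * m, mul_ne_zero ht hm, ?_, ?_, ?_, ?_⟩
    · calc (p.1 • pp p.2 + qq p.2) * wd l * (g' * ((p.1)⁻¹ • pp p.2 + qq p.2))
          = (p.1 • pp p.2 + qq p.2) * (wd l * g') * ((p.1)⁻¹ • pp p.2 + qq p.2) := by
            simp only [mul_assoc]
        _ = 1 := by rw [h1, mul_one, i2]
    · calc g' * ((p.1)⁻¹ • pp p.2 + qq p.2) * ((p.1 • pp p.2 + qq p.2) * wd l)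
          = g' * (((p.1)⁻¹ • pp p.2 + qq p.2) * (p.1 • pp p.2 + qq p.2)) * wd l := by
            simp only [mul_assoc]
        _ = 1 := by rw [i1, mul_one, h2]
    · intro a b
      have key : ∀ a b, ω ((p.1 • pp p.2 + qq p.2) a) ((p.1 • pp p.2 + qq p.2) b)
          = p.1 * ω a b := by
        intro a b
        have z1 : ∀ a b, ω (pp p.2 a) (pp p.2 b) = 0 := by
          intro a b
          rw [adj_pp hsk, ← Module.End.mul_apply, qq_mul_pp hss, LinearMap.zero_apply, map_zero]
        have z2 : ∀ a b, ω (qq p.2 a) (qq p.2 b) = 0 := by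
          intro a b
          rw [adj_qq hsk, ← Module.End.mul_apply, pp_mul_qq hss, LinearMap.zero_apply, map_zero]
        have e : ω a b = ω ((pp p.2 + qq p.2) a) ((pp p.2 + qq p.2) b) := by
          rw [pp_add_qq]; rfl
        rw [e]
        simp only [LinearMap.add_apply, map_add, LinearMap.smul_apply, map_smul, z1, z2,
          smul_eq_mul]
        ring
      change ω ((p.1 • pp p.2 + qq p.2) (wd l a)) ((p.1 • pp p.2 + qq p.2) (wd l b)) = _
      rw [key, h3]
      ring
    · intro z hz
      have : g' * ((p.1)⁻¹ • pp p.2 + qq p.2) * z * wd (p :: l) =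
        g' * (((p.1)⁻¹ • pp p.2 + qq p.2) * z * (p.1 • pp p.2 + qq p.2)) * wd l := by
        simp only [wd, mul_assoc]
      rw [this]
      apply h4
      have := hC.torus_mem hs (inv_ne_zero ht) hz
      rwa [inv_inv] at this

end

end MTP
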